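import Pool.Agent.Lib.MP_410da7_agA.L.SpecDL

/-!
# MP_410da7_ag, smooth affine varieties, version 2: DL6, `kSize` is well defined
-/

set_option autoImplicit false

namespace Pool.Agent.Lib.MP_410da7_agA

open MvPolynomial KaehlerDifferential WithZero Module

namespace dL6Aux

/-- The value of an alternating form on combinations with integral coefficients. -/
theorem psi_le {K V : Type} [Field K] [AddCommGroup V] [Module K V] {n : ℕ} (Ψ : V [⋀^Fin n]→ₗ[K] K)
    (v : Valuation K ℤᵐ⁰) (θ ω : Fin n → V) (c : Fin n → Fin n → K)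
    (hc : ∀ i j, v (c i j) ≤ 1) (h : ∀ i, ω i = ∑ j, c i j • θ j) : v (Ψ ω) ≤ v (Ψ θ) := by
  classical
  have e1 : Ψ ω = ∑ f : Fin n → Fin n, (∏ i, c i (f i)) * Ψ (fun i => θ (f i)) := by
    have e2 : ω = fun i => ∑ j, c i j • θ j := funext h
    rw [e2]
    have e3 := Ψ.toMultilinearMap.map_sum (fun i j => c i j • θ j)
    change Ψ (fun i => ∑ j, c i j • θ j) = ∑ f : Fin n → Fin n, Ψ (fun i => c i (f i) • θ (f i)) at e3
    rw [e3]
    refine Finset.sum_congr rfl fun f _ => ?_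
    have e4 := Ψ.toMultilinearMap.map_smul_univ (fun i => c i (f i)) (fun i => θ (f i))
    change Ψ (fun i => c i (f i) • θ (f i)) = (∏ i, c i (f i)) • Ψ (fun i => θ (f i)) at e4
    rw [e4, smul_eq_mul]
  rw [e1]
  refine v.map_sum_le fun f _ => ?_
  rw [map_mul, map_prod]
  have h1 : ∏ i, v (c i (f i)) ≤ 1 := Finset.prod_le_one' fun i _ => hc i (f i)
  have h2 : v (Ψ fun i => θ (f i)) ≤ v (Ψ θ) := by
    by_cases hf : Function.Injective f
    · let σ : Equiv.Perm (Fin n) := Equiv.ofBijective f (Finite.injective_iff_bijective.1 hf)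
      have e5 : (fun i => θ (f i)) = θ ∘ σ := rfl
      rw [e5, AlternatingMap.map_perm, Units.smul_def]
      rcases Int.units_eq_one_or (Equiv.Perm.sign σ) with hs | hs
      · rw [hs, Units.val_one, one_smul]
      · rw [hs, Units.val_neg, Units.val_one, neg_smul, one_smul, Valuation.map_neg]
    · rw [Function.Injective] at hf
      push Not at hf
      obtain ⟨i, j, hij, hne⟩ := hf
      rw [Ψ.map_eq_zero_of_eq (fun i => θ (f i)) (i := i) (j := j) (by rw [hij]) hne, map_zero]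
      exact zero_le
  calc (∏ i, v (c i (f i))) * v (Ψ fun i => θ (f i)) ≤ 1 * v (Ψ θ) := mul_le_mul' h1 h2
    _ = v (Ψ θ) := one_mul _

variable {K : Type} [Field K] [Algebra ℂ K] {n M : ℕ} {Y : Fin (M + 1) → K} {b : Fin (M + 1)} {v : Valuation K ℤᵐ⁰}
  {z : Fin n → K} {lam : Fin n → ℕ}

theorem pol_le (hv : Triv v) (s : Fin (M + 1) → K) (hs : ∀ l, v (s l) ≤ 1)
    (P : MvPolynomial (Fin (M + 1)) ℂ) : v (aeval s P) ≤ 1 := by
  induction P using MvPolynomial.induction_on with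
  | C c =>
    rw [aeval_C]
    by_cases hc : c = 0
    · rw [hc, map_zero, map_zero]
      exact zero_le
    · exact (hv c hc).le
  | add p q hp hq =>
    rw [map_add]
    exact v.map_add_le hp hq
  | mul_X p l hp =>
    rw [map_mul, map_mul, aeval_X]
    exact mul_le_one' hp (hs l)

theorem aff_le (h : LSAt Y b v z lam) (l : Fin (M + 1)) : v (aff Y b l) ≤ 1 := by
  unfold aff
  rw [map_div₀]
  have h1 : 0 < v (Y b) := zero_lt_iff.2 (by rw [ne_eq, map_eq_zero]; exact h.ne)
  rw [div_le_one₀ h1]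
  exact h.max l

theorem loc_le (hv : Triv v) (h : LSAt Y b v z lam) {f : K} (hf : f ∈ locRing Y b v) :
    v f ≤ 1 := by
  obtain ⟨P, Q, hQ, hfQ⟩ := hf
  have h1 : v f = v (aeval (aff Y b) P) := by
    rw [← hfQ, map_mul, hQ, mul_one]
  rw [h1]
  exact pol_le hv _ (aff_le h) P

theorem inv_mem {u : K} (hu : u ∈ locRing Y b v) (h1 : v u = 1) : u⁻¹ ∈ locRing Y b v := by
  obtain ⟨P, Q, hQ, hfQ⟩ := hu
  have hu0 : u ≠ 0 := by
    intro h
    rw [h, map_zero] at h1
    exact zero_ne_one h1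
  refine ⟨Q, P, ?_, ?_⟩
  · rw [← hfQ, map_mul, h1, hQ, one_mul]
  · rw [← hfQ, ← mul_assoc, inv_mul_cancel₀ hu0, one_mul]

/-- The differentials of elements of the local ring are integral combinations of the `dz_i`. -/
theorem diff_eq (h : LSAt Y b v z lam) {f : K} (hf : f ∈ locRing Y b v) :
    ∃ c : Fin n → K, (∀ j, c j ∈ locRing Y b v) ∧ D ℂ K f = ∑ j, c j • D ℂ K (z j) := by
  have hset : {ω : Ω[locRing Y b v⁄ℂ] | ∃ i, ∃ h : z i ∈ locRing Y b v,
      ω = D ℂ (locRing Y b v) ⟨z i, h⟩} =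
      Set.range fun i => D ℂ (locRing Y b v) ⟨z i, h.mem i⟩ := by
    ext ω
    constructor
    · rintro ⟨i, _, rfl⟩
      exact ⟨i, rfl⟩
    · rintro ⟨i, rfl⟩
      exact ⟨i, h.mem i, rfl⟩
  have h1 := h.coord
  rw [hset] at h1
  have h2 : D ℂ (locRing Y b v) ⟨f, hf⟩ ∈
      Submodule.span (locRing Y b v) (Set.range fun i => D ℂ (locRing Y b v) ⟨z i, h.mem i⟩) := by
    rw [h1]
    trivial
  obtain ⟨c, hc⟩ := (Submodule.mem_span_range_iff_exists_fun _).1 h2
  refine ⟨fun j => c j, fun j => (c j).2, ?_⟩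
  have h3 := congrArg (KaehlerDifferential.map ℂ ℂ (locRing Y b v) K) hc
  rw [map_sum, KaehlerDifferential.map_D] at h3
  change _ = D ℂ K f at h3
  rw [← h3]
  refine Finset.sum_congr rfl fun j _ => ?_
  rw [map_smul, KaehlerDifferential.map_D]
  rfl

/-- Values of the product over the boundary coordinates. -/
theorem prod_le (hv : Triv v) (h : LSAt Y b v z lam) {z' : Fin n → K} {lam' : Fin n → ℕ}
    (h' : LSAt Y b v z' lam') : v (∏ i, if lam i = 0 then 1 else z i) ≤
      v (∏ i, if lam' i = 0 then 1 else z' i) := by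
  classical
  obtain ⟨u, hu, hu1, hbd⟩ := h.bd
  have hu0 : u ≠ 0 := by
    intro h
    rw [h, map_zero] at hu1
    exact zero_ne_one hu1
  have hp : (∏ i, if lam i = 0 then 1 else z i) ∈ locRing Y b v := by
    refine Subalgebra.prod_mem _ fun i _ => ?_
    split_ifs
    · exact Subalgebra.one_mem _
    · exact h.mem i
  have hpow : ∃ g ∈ locRing Y b v, (∏ i, if lam i = 0 then 1 else z i) ^ (∑ i, lam i) =
      g * (Y 0 / Y b) := by
    refine ⟨u⁻¹ * ∏ i, (if lam i = 0 then 1 else z i ^ (∑ i, lam i - lam i)), ?_, ?_⟩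
    · refine Subalgebra.mul_mem _ (inv_mem hu hu1) (Subalgebra.prod_mem _ fun i _ => ?_)
      split_ifs
      · exact Subalgebra.one_mem _
      · exact Subalgebra.pow_mem _ (h.mem i) _
    · rw [hbd, ← Finset.prod_pow]
      have e1 : ∏ i, (if lam i = 0 then 1 else z i) ^ (∑ i, lam i) =
          ∏ i, ((if lam i = 0 then 1 else z i ^ (∑ i, lam i - lam i)) * z i ^ lam i) := by
        refine Finset.prod_congr rfl fun i _ => ?_
        split_ifs with hi
        · rw [hi, one_pow, pow_zero, one_mul]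
        · rw [← pow_add, Nat.sub_add_cancel (Finset.single_le_sum (fun _ _ => Nat.zero_le _)
            (Finset.mem_univ i))]
      rw [e1, Finset.prod_mul_distrib]
      field_simp
  obtain ⟨g, hg, hgp⟩ := h'.rad _ hp (∑ i, lam i) hpow
  rw [hgp, map_mul]
  calc v g * v (∏ i, if lam' i = 0 then 1 else z' i) ≤
      1 * v (∏ i, if lam' i = 0 then 1 else z' i) := mul_le_mul' (loc_le hv h hg) le_rfl
    _ = _ := one_mul _

theorem psiD_le (hv : Triv v) (Ψ : Ω[K⁄ℂ] [⋀^Fin n]→ₗ[K] K) (h : LSAt Y b v z lam)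
    {z' : Fin n → K} (hz' : ∀ i, z' i ∈ locRing Y b v) :
    v (Ψ fun i => D ℂ K (z' i)) ≤ v (Ψ fun i => D ℂ K (z i)) := by
  choose c hc1 hc2 using fun i => diff_eq h (hz' i)
  exact psi_le Ψ v (fun i => D ℂ K (z i)) (fun i => D ℂ K (z' i)) c
    (fun i j => loc_le hv h (hc1 i j)) hc2

end dL6Aux

theorem dL6 (hdl5 : DL5Stmt) : DL6Stmt := by
  intro K _ _ n M Ψ Y b b' v z z' lam lam' hv h h'
  classical
  have hb : v (Y b') = v (Y b) := le_antisymm (h.max b') (h'.max b)
  have h2 : LSAt Y b' v z lam := by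
    refine hdl5 K n M M Y Y b b' v z lam hv rfl (fun l' => ?_) (fun l => ⟨l, rfl⟩) h hb
    refine ⟨Pi.single l' 1, ?_⟩
    rw [Finset.sum_eq_single l']
    · rw [Pi.single_eq_same, one_smul]
    · intro l _ hl
      rw [Pi.single_eq_of_ne hl, zero_smul]
    · intro hl
      exact absurd (Finset.mem_univ l') hl
  have e1 := le_antisymm (dL6Aux.psiD_le hv Ψ h2 h'.mem) (dL6Aux.psiD_le hv Ψ h' h2.mem)
  have e2 := le_antisymm (dL6Aux.prod_le hv h2 h') (dL6Aux.prod_le hv h' h2)
  have e3 : ∀ (z : Fin n → K) (lam : Fin n → ℕ), v (∏ i, if lam i = 0 then 1 else z i) =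
      ∏ i, if lam i = 0 then 1 else v (z i) := by
    intro z lam
    rw [map_prod]
    refine Finset.prod_congr rfl fun i _ => ?_
    split_ifs
    · exact map_one v
    · rfl
  rw [e3, e3] at e2
  unfold kSize
  rw [e1, e2]

end Pool.Agent.Lib.MP_410da7_agA
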