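import Pool.Agent.Lib.MP_410da7_agA.L.SpecDL
import Pool.Agent.Lib.MP_410da7_agA.L.DL6
import Pool.Agent.Lib.MP_410da7_agA.D13

/-!
# MP_410da7_ag, smooth affine varieties, version 2: DL13, a unit minor and the frame `ds`
-/

set_option autoImplicit false

namespace Pool.Agent.Lib.MP_410da7_agA

open MvPolynomial KaehlerDifferential WithZero Module

namespace dL13Aux

/-- A derivation with values in a residue field is determined by its values on coordinates. -/
theorem der_zero {O κ : Type} [CommRing O] [Algebra ℂ O] [Field κ] (ρ : O →+* κ) {ι : Type}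
    (z : ι → O) (hz : Submodule.span O (Set.range fun i => D ℂ O (z i)) = ⊤) (δ : O → κ)
    (hadd : ∀ f g, δ (f + g) = δ f + δ g) (hmul : ∀ f g, δ (f * g) = ρ f * δ g + ρ g * δ f)
    (hc : ∀ c : ℂ, δ (algebraMap ℂ O c) = 0) (h0 : ∀ i, δ (z i) = 0) (f : O) : δ f = 0 := by
  let _ : Algebra O κ := ρ.toAlgebra
  let _ : Algebra ℂ κ := (ρ.comp (algebraMap ℂ O)).toAlgebra
  have : IsScalarTower ℂ O κ := IsScalarTower.of_algebraMap_eq' rfl
  let dl : O →ₗ[ℂ] κ :=
    { toFun := δ
      map_add' := hadd
      map_smul' := by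
        intro c g
        rw [Algebra.smul_def, hmul, hc, mul_zero, add_zero, RingHom.id_apply, Algebra.smul_def]
        rfl }
  let d : Derivation ℂ O κ := Derivation.mk' dl (fun a b => by
    change δ (a * b) = _
    rw [hmul]
    rfl)
  have h1 : d.liftKaehlerDifferential = 0 := by
    refine LinearMap.ext_on_range hz fun i => ?_
    rw [Derivation.liftKaehlerDifferential_comp_D, LinearMap.zero_apply]
    exact h0 i
  have h2 := d.liftKaehlerDifferential_comp_D f
  rw [h1, LinearMap.zero_apply] at h2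
  exact h2.symm

section

variable {K : Type} [Field K] [Algebra ℂ K] {v : Valuation K ℤᵐ⁰} {N : ℕ}
  {κ : Type} [Field κ] (hv : Triv v) (s : Fin N → v.integer) (res : v.integer →+* κ)

open d14Aux

/-- extension of the derivation to the local ring -/
theorem exists_der {O : Type} [CommRing O] (inc : O →+* v.integer)
    (hloc : ∀ f : O, ∃ P Q : MvPolynomial (Fin N) ℂ, res (ev hv s Q) ≠ 0 ∧
      inc f * ev hv s Q = ev hv s P) (ξ : Fin N → κ)
    (hker : ∀ P, ev hv s P = 0 → Dx hv s res ξ P = 0) :
    ∃ δ : O → κ,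
      (∀ f P Q, res (ev hv s Q) ≠ 0 → inc f * ev hv s Q = ev hv s P →
        δ f * res (ev hv s Q) = Dx hv s res ξ P - res (inc f) * Dx hv s res ξ Q) ∧
      (∀ f g, δ (f + g) = δ f + δ g) ∧
      (∀ f g, δ (f * g) = res (inc f) * δ g + res (inc g) * δ f) := by
  choose P Q hQ hPQ using hloc
  have key : ∀ f P' Q', res (ev hv s Q') ≠ 0 → inc f * ev hv s Q' = ev hv s P' →
      ((Dx hv s res ξ (P f) - res (inc f) * Dx hv s res ξ (Q f)) / res (ev hv s (Q f))) *
        res (ev hv s Q') = Dx hv s res ξ P' - res (inc f) * Dx hv s res ξ Q' := by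
    intro f P' Q' hQ' hPQ'
    have h0 : ev hv s (P f * Q' - P' * Q f) = 0 := by
      rw [map_sub, map_mul, map_mul, ← hPQ f, ← hPQ']
      ring
    have h1 := hker _ h0
    rw [Dx_sub, Dx_mul, Dx_mul, ← hPQ f, ← hPQ', map_mul, map_mul] at h1
    have h2 := hQ f
    rw [div_mul_eq_mul_div, div_eq_iff h2]
    linear_combination (1 : κ) * h1
  refine ⟨fun f => (Dx hv s res ξ (P f) - res (inc f) * Dx hv s res ξ (Q f)) /
    res (ev hv s (Q f)), key, ?_, ?_⟩
  · intro f g
    have h1 : res (ev hv s (Q f * Q g)) ≠ 0 := by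
      rw [map_mul, map_mul]; exact mul_ne_zero (hQ f) (hQ g)
    have h2 : inc (f + g) * ev hv s (Q f * Q g) = ev hv s (P f * Q g + P g * Q f) := by
      rw [map_mul, map_add, map_add, map_mul, map_mul, ← hPQ f, ← hPQ g]
      ring
    have h3 := key (f + g) _ _ h1 h2
    have hf := hQ f
    have hg := hQ g
    have h4 : ev hv s (P f) = inc f * ev hv s (Q f) := (hPQ f).symm
    have h5 : ev hv s (P g) = inc g * ev hv s (Q g) := (hPQ g).symm
    apply mul_right_cancel₀ h1
    refine h3.trans ?_
    rw [Dx_add, Dx_mul, Dx_mul, Dx_mul, h4, h5, map_mul, map_mul, map_mul, map_mul, map_add,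
      map_add]
    field_simp
    ring
  · intro f g
    have h1 : res (ev hv s (Q f * Q g)) ≠ 0 := by
      rw [map_mul, map_mul]; exact mul_ne_zero (hQ f) (hQ g)
    have h2 : inc (f * g) * ev hv s (Q f * Q g) = ev hv s (P f * P g) := by
      rw [map_mul, map_mul, map_mul, ← hPQ f, ← hPQ g]
      ring
    have h3 := key (f * g) _ _ h1 h2
    have hf := hQ f
    have hg := hQ g
    have h4 : ev hv s (P f) = inc f * ev hv s (Q f) := (hPQ f).symm
    have h5 : ev hv s (P g) = inc g * ev hv s (Q g) := (hPQ g).symm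
    apply mul_right_cancel₀ h1
    refine h3.trans ?_
    rw [Dx_mul, Dx_mul, h4, h5, map_mul, map_mul, map_mul, map_mul, map_mul, map_mul]
    field_simp
    ring

end

end dL13Aux

open d14Aux d13Aux dL6Aux dL13Aux in
theorem dL13 (hd5 : D5Stmt) : DL13Stmt := by
  intro K _ _ n M r κ d Ψ y b F hM hE v z lam hv hLS
  classical
  have hle : ∀ l, v (aff y b l) ≤ 1 := aff_le hLS
  let s : Fin (M + 1) → v.integer := fun l => ⟨aff y b l, hle l⟩
  have hs : ∀ l, (s l : K) = aff y b l := fun l => rfl
  have hfun : (fun l => (s l : K)) = aff y b := rfl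
  -- the residue field
  let κ' := IsLocalRing.ResidueField v.valuationSubring
  let inc0 : v.integer →+* v.valuationSubring :=
    { toFun := fun f => ⟨f, (Valuation.mem_valuationSubring_iff v _).2 f.2⟩
      map_one' := rfl
      map_mul' := fun _ _ => rfl
      map_zero' := rfl
      map_add' := fun _ _ => rfl }
  let res : v.integer →+* κ' := (IsLocalRing.residue v.valuationSubring).comp inc0
  have hres0 : ∀ f : v.integer, res f = 0 ↔ v (f : K) < 1 := by
    intro f
    constructor
    · intro h
      exact Pool.Agent.Lib.MP_410da7_ag.val_lt_one_of_residue_eq_zero v (inc0 f) h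
    · intro h
      exact Pool.Agent.Lib.MP_410da7_ag.residue_eq_zero_of_val_lt_one v (inc0 f) h
  have hres1 : ∀ f : v.integer, v (f : K) = 1 → res f ≠ 0 := by
    intro f hf h
    rw [hres0, hf] at h
    exact lt_irrefl _ h
  -- the local ring
  let inc : locRing y b v →+* v.integer :=
    { toFun := fun f => ⟨f, loc_le hv hLS f.2⟩
      map_one' := rfl
      map_mul' := fun _ _ => rfl
      map_zero' := rfl
      map_add' := fun _ _ => rfl }
  have hloc : ∀ f : locRing y b v, ∃ P Q : MvPolynomial (Fin (M + 1)) ℂ, res (ev hv s Q) ≠ 0 ∧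
      inc f * ev hv s Q = ev hv s P := by
    intro f
    obtain ⟨P, Q, h1, h2⟩ := f.2
    refine ⟨P, Q, hres1 _ ?_, ?_⟩
    · rw [coe_ev]; exact h1
    · apply Subtype.ext
      change (f : K) * ((ev hv s Q : v.integer) : K) = ((ev hv s P : v.integer) : K)
      rw [coe_ev, coe_ev]
      exact h2
  let u : Fin n → locRing y b v := fun i => ⟨z i, hLS.mem i⟩
  have hspan : Submodule.span (locRing y b v) (Set.range fun i => D ℂ (locRing y b v) (u i)) =
      ⊤ := by
    rw [← hLS.coord]
    congr 1
    ext ω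
    constructor
    · rintro ⟨i, rfl⟩
      exact ⟨i, hLS.mem i, rfl⟩
    · rintro ⟨i, _, rfl⟩
      exact ⟨i, rfl⟩
  have hker : finrank κ' (Ker (Jm hv s res F) b) ≤ n := by
    choose Pu Qu hQu hPQu using fun i => hloc (u i)
    have hDsmul : ∀ (c : κ') (ξ : Fin (M + 1) → κ') (P : MvPolynomial (Fin (M + 1)) ℂ),
        Dx hv s res (c • ξ) P = c * Dx hv s res ξ P := by
      intro c ξ P
      unfold Dx
      rw [Finset.mul_sum]
      refine Finset.sum_congr rfl fun l _ => ?_
      rw [Pi.smul_apply, smul_eq_mul]; ring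
    have hDadd : ∀ (ξ ξ' : Fin (M + 1) → κ') (P : MvPolynomial (Fin (M + 1)) ℂ),
        Dx hv s res (ξ + ξ') P = Dx hv s res ξ P + Dx hv s res ξ' P := by
      intro ξ ξ' P
      unfold Dx
      rw [← Finset.sum_add_distrib]
      refine Finset.sum_congr rfl fun l _ => ?_
      rw [Pi.add_apply]; ring
    let Φ : (Fin (M + 1) → κ') →ₗ[κ'] (Fin n → κ') :=
      { toFun := fun ξ i => Dx hv s res ξ (Pu i) - res (inc (u i)) * Dx hv s res ξ (Qu i)
        map_add' := by
          intro x y
          funext i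
          simp only [Pi.add_apply]
          rw [hDadd, hDadd]; ring
        map_smul' := by
          intro c x
          funext i
          simp only [Pi.smul_apply, RingHom.id_apply, smul_eq_mul]
          rw [hDsmul, hDsmul]; ring }
    have hinj : Function.Injective (Φ.comp (Ker (Jm hv s res F) b).subtype) := by
      rw [← LinearMap.ker_eq_bot, LinearMap.ker_eq_bot']
      rintro ⟨ξ, hξ⟩ h0
      have h0' : ∀ i, Dx hv s res ξ (Pu i) - res (inc (u i)) * Dx hv s res ξ (Qu i) = 0 :=
        fun i => congrFun h0 i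
      obtain ⟨hξb, hξF⟩ := (mem_Ker_Jm hv s res F b ξ).mp hξ
      obtain ⟨δ, hδ, hadd, hmul⟩ := dL13Aux.exists_der hv s res inc hloc ξ
        (Dx_ker hd5 y b F hE hLS.ne hv s hs res ξ hξb hξF)
      have hδu : ∀ i, δ (u i) = 0 := by
        intro i
        have h1 := hδ (u i) (Pu i) (Qu i) (hQu i) (hPQu i)
        rw [h0' i] at h1
        exact (mul_eq_zero.1 h1).resolve_right (hQu i)
      have hδ0 := der_zero (res.comp inc) u hspan δ hadd hmul (by
        intro c
        have h1 := hδ (algebraMap ℂ (locRing y b v) c) (C c) 1 (by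
          rw [map_one, map_one]; exact one_ne_zero) (by
          rw [map_one, mul_one, ev_C]; rfl)
        rw [Dx_C, Dx_one, map_one, map_one, mul_one, mul_zero, sub_zero] at h1
        exact h1) hδu
      apply Subtype.ext
      funext l
      have hsl : aff y b l ∈ locRing y b v := ⟨X l, 1, by rw [map_one, map_one], by
        rw [map_one, mul_one, aeval_X]⟩
      have h1 := hδ ⟨aff y b l, hsl⟩ (X l) 1 (by
        rw [map_one, map_one]; exact one_ne_zero) (by
        rw [map_one, mul_one, ev_X]
        rfl)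
      rw [Dx_X, Dx_one, hδ0, zero_mul, mul_zero, sub_zero] at h1
      exact h1.symm
    have h1 := LinearMap.finrank_le_finrank_of_injective hinj
    rwa [Module.finrank_fin_fun] at h1
  obtain ⟨J, e, heb, hminor⟩ := minor_unit hv hM s res (fun f hf => (hres0 f).mpr hf) F b hker
  rw [hfun] at hminor
  refine ⟨J, e, heb, hminor, ?_⟩
  -- the matrices
  let A : Matrix (Fin r) (Fin r) v.integer := Matrix.of fun i k =>
    ev hv s (pderiv (e (Sum.inr k)) (F (J i)))
  let B : Matrix (Fin r) (Fin n) v.integer := Matrix.of fun i a =>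
    ev hv s (pderiv (e (Sum.inl a.succ)) (F (J i)))
  have hdet : ((A.det : v.integer) : K) = minor F (e ∘ Sum.inr) (aff y b) J := by
    have h1 : ((A.det : v.integer) : K) = v.integer.subtype A.det := rfl
    rw [h1, RingHom.map_det]
    unfold minor
    congr 1
    ext i k
    rw [RingHom.mapMatrix_apply, Matrix.map_apply]
    change ((ev hv s (pderiv (e (Sum.inr k)) (F (J i))) : v.integer) : K) = _
    rw [coe_ev]
    rfl
  have hAu : IsUnit A.det := by
    have h1 : v ((A.det : v.integer) : K) = 1 := by rw [hdet]; exact hminor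
    have h2 : ((A.det : v.integer) : K) ≠ 0 := by
      intro h
      rw [h, map_zero] at h1
      exact zero_ne_one h1
    refine IsUnit.of_mul_eq_one (⟨((A.det : v.integer) : K)⁻¹, ?_⟩ : v.integer) ?_
    · change v _ ≤ 1
      rw [map_inv₀, h1, inv_one]
    · apply Subtype.ext
      exact mul_inv_cancel₀ h2
  let T : Matrix (Fin r) (Fin n) v.integer := A⁻¹ * B
  have h0 : D ℂ K ((s (e (Sum.inl 0)) : v.integer) : K) = 0 := by
    have h1 : ((s (e (Sum.inl 0)) : v.integer) : K) = 1 := by
      rw [heb]
      exact div_self hLS.ne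
    rw [h1]
    exact Derivation.map_one_eq_zero _
  have hT : ∀ k, D ℂ K ((s (e (Sum.inr k)) : v.integer) : K) =
      - ∑ a : Fin n, ((T k a : v.integer) : K) •
        D ℂ K ((s (e (Sum.inl a.succ)) : v.integer) : K) := by
    intro k
    refine solve A B hAu (fun a : Fin n => D ℂ K ((s (e (Sum.inl a.succ)) : v.integer) : K))
      (fun k => D ℂ K ((s (e (Sum.inr k)) : v.integer) : K)) ?_ k
    intro i
    have h1 : D ℂ K (aeval (fun l => (s l : K)) (F (J i))) = 0 := by
      rw [hfun, aff_zero hd5 y b F hE hLS.ne (J i), map_zero]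
    rw [Pool.Agent.Lib.MP_410da7_ag.D_aeval, Pool.Agent.Lib.MP_410da7_ag.dmap_apply,
      sum_split e, h0, smul_zero, zero_add] at h1
    simp only [Pool.Agent.Lib.MP_410da7_ag.grad, ← coe_ev hv] at h1
    exact h1
  refine le_antisymm ?_ ?_
  · refine psiD_le hv Ψ hLS fun a => ?_
    exact ⟨X (e (Sum.inl a.succ)), 1, by rw [map_one, map_one], by
      rw [map_one, mul_one, aeval_X]⟩
  · -- the differentials of the `z i`
    choose P Q hQ hPQ using fun i => hLS.mem i
    have hQ0 : ∀ i, aeval (aff y b) (Q i) ≠ 0 := by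
      intro i h
      have h1 := hQ i
      rw [h, map_zero] at h1
      exact zero_ne_one h1
    have hz1 : ∀ i, v (z i) ≤ 1 := fun i => loc_le hv hLS (hLS.mem i)
    refine psi_le Ψ v _ _ (fun i a => (aeval (aff y b) (Q i))⁻¹ *
      (((wf hv s e T (P i) a : v.integer) : K) - z i * ((wf hv s e T (Q i) a : v.integer) : K)))
      (fun i a => ?_) fun i => ?_
    · rw [map_mul, map_inv₀, hQ, inv_one, one_mul]
      refine (v.map_sub _ _).trans (max_le (wf hv s e T (P i) a).2 ?_)
      rw [map_mul]
      exact mul_le_one' (hz1 i) (wf hv s e T (Q i) a).2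
    · have e1 := D_wf hv s e T h0 hT (P i)
      have e2 := D_wf hv s e T h0 hT (Q i)
      rw [hfun] at e1 e2
      rw [← hPQ i, Derivation.leibniz, e2] at e1
      have e3 : aeval (aff y b) (Q i) • D ℂ K (z i) =
          ∑ a : Fin n, (((wf hv s e T (P i) a : v.integer) : K) -
            z i * ((wf hv s e T (Q i) a : v.integer) : K)) •
              D ℂ K ((s (e (Sum.inl a.succ)) : v.integer) : K) := by
        simp only [sub_smul, Finset.sum_sub_distrib, mul_smul]
        rw [← e1, ← Finset.smul_sum]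
        abel
      calc D ℂ K (z i) = (aeval (aff y b) (Q i))⁻¹ • (aeval (aff y b) (Q i) • D ℂ K (z i)) := by
            rw [smul_smul, inv_mul_cancel₀ (hQ0 i), one_smul]
        _ = _ := by
            rw [e3, Finset.smul_sum]
            refine Finset.sum_congr rfl fun a _ => ?_
            rw [smul_smul]

end Pool.Agent.Lib.MP_410da7_agA
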