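import Pool.Agent.Lib.MP_410da7_agA.L.SpecDL

/-!
# MP_410da7_ag, C46 version 2: DL15, the relation `x_0 χ x_b^E = ∏ a_i^{λ_i} q`
-/

set_option autoImplicit false

namespace Pool.Agent.Lib.MP_410da7_agA

open MvPolynomial WithZero

theorem dL15 (h5 : D5Stmt) : DL15Stmt := by
  classical
  intro K _ _ n M κ d y b F hy0 hE v z lam hv hL
  have hyb0 := hL.ne
  obtain ⟨u, ⟨P, Q, hQ, hPQ⟩, hvu, hbd⟩ := hL.bd
  rw [hy0] at hbd
  have hz0 : ∀ i, lam i ≠ 0 → z i ≠ 0 := by
    intro i hi h0
    have h1 : ∏ i, z i ^ lam i = 0 := Finset.prod_eq_zero (Finset.mem_univ i) (by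
      rw [h0, zero_pow hi])
    rw [h1, mul_zero] at hbd
    exact one_div_ne_zero hyb0 hbd
  -- the modified coordinates
  set z' : Fin n → K := fun i => if lam i = 0 then 1 else z i with hz'
  have hz'0 : ∀ i, z' i ≠ 0 := by
    intro i
    by_cases hi : lam i = 0
    · simp [hz', hi]
    · simpa [hz', hi] using hz0 i hi
  have hprod : ∏ i, z i ^ lam i = ∏ i, z' i ^ lam i := by
    refine Finset.prod_congr rfl fun i _ => ?_
    by_cases hi : lam i = 0
    · rw [hi, pow_zero, pow_zero]
    · simp [hz', hi]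
  have hvz' : ∀ i, v (z' i) = if lam i = 0 then 1 else v (z i) := by
    intro i
    by_cases hi : lam i = 0
    · simp [hz', hi]
    · simp [hz', hi]
  have hex : ∀ i, ∃ P Q : MvPolynomial (Fin (M + 1)) ℂ,
      v (aeval (aff y b) Q) = 1 ∧ z' i * aeval (aff y b) Q = aeval (aff y b) P := by
    intro i
    by_cases hi : lam i = 0
    · exact ⟨1, 1, by rw [map_one, map_one], by simp [hz', hi]⟩
    · obtain ⟨P, Q, h1, h2⟩ := hL.mem i
      exact ⟨P, Q, h1, by simpa [hz', hi] using h2⟩
  choose Pi Qi hQi hPQi using hex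
  set W : MvPolynomial (Fin (M + 1)) ℂ := Q * ∏ i, Qi i ^ lam i with hW
  have hWs : aeval (aff y b) W = aeval (aff y b) Q * ∏ i, aeval (aff y b) (Qi i) ^ lam i := by
    rw [hW, map_mul, map_prod]
    simp only [map_pow]
  have hWv : v (aeval (aff y b) W) = 1 := by
    rw [hWs, map_mul, map_prod, hQ, one_mul]
    refine Finset.prod_eq_one fun i _ => ?_
    rw [map_pow, hQi, one_pow]
  have hrel : 1 / y b * aeval (aff y b) W =
      (∏ i, aeval (aff y b) (Pi i) ^ lam i) * aeval (aff y b) P := by
    rw [hbd, hprod, hWs, ← hPQ]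
    have h1 : ∏ i, aeval (aff y b) (Pi i) ^ lam i =
        (∏ i, z' i ^ lam i) * ∏ i, aeval (aff y b) (Qi i) ^ lam i := by
      rw [← Finset.prod_mul_distrib]
      refine Finset.prod_congr rfl fun i _ => ?_
      rw [← hPQi, mul_pow]
    rw [h1]
    ring
  have ha : ∀ i, (hom b (Pi i).totalDegree (Pi i)).IsHomogeneous (Pi i).totalDegree :=
    fun i => (h5 ℂ K M b _ (Pi i) le_rfl).1
  have ha'' : ∀ i, aeval y (hom b (Pi i).totalDegree (Pi i)) =
      y b ^ (Pi i).totalDegree * aeval (aff y b) (Pi i) :=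
    fun i => (h5 ℂ K M b _ (Pi i) le_rfl).2 y hyb0
  obtain ⟨hχ, hχ'⟩ := h5 ℂ K M b W.totalDegree W le_rfl
  obtain ⟨hq, hq'⟩ := h5 ℂ K M b P.totalDegree P le_rfl
  have hχ'' := hχ' y hyb0
  have hq'' := hq' y hyb0
  have hdiv : ∀ i, aeval y (hom b (Pi i).totalDegree (Pi i)) / y b ^ (Pi i).totalDegree =
      aeval (aff y b) (Pi i) := fun i => by
    rw [ha'', mul_div_cancel_left₀ _ (pow_ne_zero _ hyb0)]
  have hPv : ∀ i, v (aeval (aff y b) (Pi i)) = v (z' i) := fun i => by
    rw [← hPQi, map_mul, hQi, mul_one]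
  have hP0 : ∀ i, aeval (aff y b) (Pi i) ≠ 0 := fun i => by
    rw [← Valuation.ne_zero_iff v, hPv]
    exact (Valuation.ne_zero_iff v).2 (hz'0 i)
  have hbh : (X b : MvPolynomial (Fin (M + 1)) ℂ).IsHomogeneous 1 := isHomogeneous_X ℂ b
  have h0h : (X 0 : MvPolynomial (Fin (M + 1)) ℂ).IsHomogeneous 1 := isHomogeneous_X ℂ 0
  set A : MvPolynomial (Fin (M + 1)) ℂ :=
    ∏ i, hom b (Pi i).totalDegree (Pi i) ^ lam i with hA
  set s : ℕ := ∑ i, lam i * (Pi i).totalDegree with hs
  have hAh : A.IsHomogeneous s := by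
    have h1 := IsHomogeneous.prod Finset.univ
      (fun i => hom b (Pi i).totalDegree (Pi i) ^ lam i) (fun i => (Pi i).totalDegree * lam i)
      (fun i _ => (ha i).pow (lam i))
    rw [← hA] at h1
    have h2 : ∑ i, (Pi i).totalDegree * lam i = s := by
      rw [hs]
      refine Finset.sum_congr rfl fun i _ => ?_
      rw [mul_comm]
    rwa [h2] at h1
  have hAy : aeval y A = y b ^ s * ∏ i, aeval (aff y b) (Pi i) ^ lam i := by
    rw [hA, map_prod, hs, ← Finset.prod_pow_eq_pow_sum, ← Finset.prod_mul_distrib]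
    refine Finset.prod_congr rfl fun i _ => ?_
    rw [map_pow, ha'', mul_pow, ← pow_mul, mul_comm (lam i)]
  have hG : (X 0 * hom b W.totalDegree W * X b ^ (s + P.totalDegree) -
      A * hom b P.totalDegree P * X b ^ (W.totalDegree + 1) :
      MvPolynomial (Fin (M + 1)) ℂ).IsHomogeneous
        (1 + W.totalDegree + (s + P.totalDegree)) := by
    refine IsHomogeneous.sub ?_ ?_
    · have := (h0h.mul hχ).mul (hbh.pow (s + P.totalDegree))
      rwa [one_mul] at this
    · have h1 := (hAh.mul hq).mul (hbh.pow (W.totalDegree + 1))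
      rw [one_mul] at h1
      have h2 : s + P.totalDegree + (W.totalDegree + 1) =
          1 + W.totalDegree + (s + P.totalDegree) := by ring
      rwa [h2] at h1
  have hG0 : aeval y (X 0 * hom b W.totalDegree W * X b ^ (s + P.totalDegree) -
      A * hom b P.totalDegree P * X b ^ (W.totalDegree + 1) :
      MvPolynomial (Fin (M + 1)) ℂ) = 0 := by
    simp only [map_sub, map_mul, map_pow, aeval_X, hy0, hAy, hχ'', hq'']
    have h1 : y b ^ s * (∏ i, aeval (aff y b) (Pi i) ^ lam i) *
        (y b ^ P.totalDegree * aeval (aff y b) P) *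
        y b ^ (W.totalDegree + 1) = y b ^ (s + P.totalDegree + W.totalDegree) *
        (y b * ((∏ i, aeval (aff y b) (Pi i) ^ lam i) * aeval (aff y b) P)) := by
      rw [pow_add, pow_add, pow_add]
      ring
    rw [h1, ← hrel, ← mul_assoc (y b), mul_one_div_cancel hyb0, pow_add (y b) (s + P.totalDegree)]
    ring
  have hspan := hE.gen _ _ hG hG0 b
  refine ⟨{ s := n
            a := fun i => hom b (Pi i).totalDegree (Pi i)
            χ := hom b W.totalDegree W
            q := hom b P.totalDegree P * X b ^ (W.totalDegree + 1 + d)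
            e := fun i => (Pi i).totalDegree
            lam := lam
            e₁ := W.totalDegree
            e₂ := P.totalDegree + (W.totalDegree + 1 + d)
            N := 1
            E := s + P.totalDegree + d
            ha := ha
            hχ := hχ
            hq := by
              have := hq.mul (hbh.pow (W.totalDegree + 1 + d))
              rwa [one_mul] at this
            deg := by rw [← hs]; ring
            rel := by
              convert hspan using 1
              rw [pow_one, pow_add, pow_add]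
              ring }, ?_, ?_, ?_, ?_⟩
  · show v (aeval y (hom b W.totalDegree W) / y b ^ W.totalDegree) = 1
    rw [hχ'', mul_div_cancel_left₀ _ (pow_ne_zero _ hyb0)]
    exact hWv
  · show ∀ i, aeval y (hom b (Pi i).totalDegree (Pi i)) ≠ 0
    intro i
    rw [ha'']
    exact mul_ne_zero (pow_ne_zero _ hyb0) (hP0 i)
  · show v (∏ i, aeval y (hom b (Pi i).totalDegree (Pi i)) / y b ^ (Pi i).totalDegree) =
      ∏ i, (if lam i = 0 then 1 else v (z i))
    rw [map_prod]
    refine Finset.prod_congr rfl fun i _ => ?_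
    rw [hdiv, hPv, hvz']
  · show v (∏ i, (aeval y (hom b (Pi i).totalDegree (Pi i)) / y b ^ (Pi i).totalDegree) ^ lam i) *
      v (y b) = 1
    have h1 : ∏ i, v (z' i) ^ lam i = v (1 / y b) := by
      rw [hbd, map_mul, hvu, one_mul, hprod, map_prod]
      exact Finset.prod_congr rfl fun i _ => (map_pow v _ _).symm
    have h2 : v (∏ i, (aeval y (hom b (Pi i).totalDegree (Pi i)) /
        y b ^ (Pi i).totalDegree) ^ lam i) = ∏ i, v (z' i) ^ lam i := by
      rw [map_prod]
      refine Finset.prod_congr rfl fun i _ => ?_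
      rw [map_pow, hdiv, hPv]
    rw [h2, h1, ← map_mul, one_div_mul_cancel hyb0, map_one]

end Pool.Agent.Lib.MP_410da7_agA
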