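import Pool.Agent.Lib.MP_410da7_agA.L.SpecDL
import Pool.Agent.Lib.MP_410da7_agA.DAux

/-!
# MP_410da7_ag, C46 version 2: DL16, the certificate at the finite places
-/

set_option autoImplicit false

namespace Pool.Agent.Lib.MP_410da7_agA

open MvPolynomial KaehlerDifferential WithZero Module
open Pool.Agent.Lib.MP_410da7_ag (regDiff logDiff regGens logGens)

namespace dL16Aux

variable {K : Type} [Field K] [Algebra ℂ K] {M : ℕ}

/-- Polynomials in elements of value at most one have value at most one. -/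
lemma aeval_le_one {ι : Type} {v : Valuation K ℤᵐ⁰} (hv : Triv v) {s : ι → K}
    (hs : ∀ l, v (s l) ≤ 1) (P : MvPolynomial ι ℂ) : v (aeval s P) ≤ 1 := by
  induction P using MvPolynomial.induction_on with
  | C c =>
    rw [aeval_C]
    by_cases hc : c = 0
    · rw [hc, map_zero, map_zero]
      exact zero_le
    · exact (hv c hc).le
  | add p q hp hq =>
    rw [map_add]
    exact v.map_add_le hp hq
  | mul_X p i hp =>
    rw [map_mul, aeval_X, map_mul]
    exact mul_le_one' hp (hs i)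

/-- The elements of the local ring have value at most one. -/
lemma locRing_le {v : Valuation K ℤᵐ⁰} (hv : Triv v) {Y : Fin (M + 1) → K} {b : Fin (M + 1)}
    (hb : Y b ≠ 0) (hmax : ∀ l, v (Y l) ≤ v (Y b)) {f : K} (hf : f ∈ locRing Y b v) :
    v f ≤ 1 := by
  obtain ⟨P, Q, hQ, hPQ⟩ := hf
  have h1 : v (f * aeval (aff Y b) Q) = v f := by rw [map_mul, hQ, mul_one]
  rw [← h1, hPQ]
  refine aeval_le_one hv (fun l => ?_) P
  have h2 : v (Y b) ≠ 0 := (Valuation.ne_zero_iff v).2 hb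
  rw [aff, map_div₀]
  exact div_le_one_of_le₀ (hmax l) zero_le

/-- The value of the form `dz_1 ∧ ... ∧ dz_n` is at most the size of the logarithmic form. -/
lemma val_le_kSize {n : ℕ} (Ψ : Ω[K⁄ℂ] [⋀^Fin n]→ₗ[K] K) {v : Valuation K ℤᵐ⁰} (hv : Triv v)
    {Y : Fin (M + 1) → K} {b : Fin (M + 1)} {z : Fin n → K} {lam : Fin n → ℕ}
    (h : LSAt Y b v z lam) (hY0 : Y 0 ≠ 0) :
    v (Ψ fun i => D ℂ K (z i)) ≤ kSize Ψ v z lam := by
  obtain ⟨u, _, _, hbd⟩ := h.bd
  have hz0 : ∀ i, lam i ≠ 0 → z i ≠ 0 := by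
    intro i hi h0
    have h1 : ∏ i, z i ^ lam i = 0 := Finset.prod_eq_zero (Finset.mem_univ i) (by
      rw [h0, zero_pow hi])
    rw [h1, mul_zero] at hbd
    exact div_ne_zero hY0 h.ne hbd
  have hp0 : (∏ i, if lam i = 0 then (1 : ℤᵐ⁰) else v (z i)) ≠ 0 := by
    refine Finset.prod_ne_zero_iff.2 fun i _ => ?_
    split
    · exact one_ne_zero
    · exact (Valuation.ne_zero_iff v).2 (hz0 i ‹_›)
  have hp1 : (∏ i, if lam i = 0 then (1 : ℤᵐ⁰) else v (z i)) ≤ 1 := by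
    refine Finset.prod_le_one' fun i _ => ?_
    split
    · exact le_rfl
    · exact locRing_le hv h.ne h.max (h.mem i)
  rw [kSize, le_div_iff₀ (pos_iff_ne_zero.2 hp0)]
  calc v (Ψ fun i => D ℂ K (z i)) * (∏ i, if lam i = 0 then (1 : ℤᵐ⁰) else v (z i))
      ≤ v (Ψ fun i => D ℂ K (z i)) * 1 := by gcongr
    _ = v (Ψ fun i => D ℂ K (z i)) := mul_one _

/-- The coordinates `y` are combinations of `1, x_1, ..., x_N` in `K`. -/
lemma comb_map {R : Type} [CommRing R] [Algebra ℂ R] [Algebra R K] [IsScalarTower ℂ R K] {N : ℕ}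
    {x : Fin N → R} {y : Fin (M + 1) → R}
    (h : ∀ l', ∃ c : Fin (N + 1) → ℂ, y l' = ∑ l, c l • (Fin.cons 1 x : Fin (N + 1) → R) l)
    (l' : Fin (M + 1)) : ∃ c : Fin (N + 1) → ℂ, algebraMap R K (y l') =
      ∑ l, c l • cons1 (fun l => algebraMap R K (x l)) l := by
  obtain ⟨c, hc⟩ := h l'
  refine ⟨c, ?_⟩
  rw [hc, map_sum]
  refine Finset.sum_congr rfl fun l _ => ?_
  rw [← IsScalarTower.toAlgHom_apply ℂ R K, map_smul]
  congr 1
  rw [IsScalarTower.toAlgHom_apply]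
  refine Fin.cases ?_ (fun l => ?_) l
  · rw [cons1, Fin.cons_zero, Fin.cons_zero, map_one]
  · rw [cons1, Fin.cons_succ, Fin.cons_succ]

/-- The local data in the coordinates `y`. -/
lemma lsAt_y (hdl5 : DL5Stmt) {R : Type} [CommRing R] [Algebra ℂ R] [Algebra R K]
    [IsScalarTower ℂ R K] {N n κ r d : ℕ} {x : Fin N → R} {y : Fin (M + 1) → R}
    {b : Fin (M + 1)} {S : System ℂ M κ r d} (hm : Model R K n x y b S)
    (hc : ∀ l', ∃ c : Fin (N + 1) → ℂ, y l' = ∑ l, c l • (Fin.cons 1 x : Fin (N + 1) → R) l)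
    {v : Valuation K ℤᵐ⁰} (hv : Triv v) {b₁ : Fin (N + 1)} {z : Fin n → K} {lam : Fin n → ℕ}
    (h : LSAt (cons1 fun l => algebraMap R K (x l)) b₁ v z lam) {b' : Fin (M + 1)}
    (hb' : v (algebraMap R K (y b')) = v (cons1 (fun l => algebraMap R K (x l)) b₁)) :
    LSAt (fun l => algebraMap R K (y l)) b' v z lam := by
  refine hdl5 K n N M _ _ b₁ b' v z lam hv ?_ (comb_map hc) ?_ h hb'
  · show (1 : K) = algebraMap R K (y 0)
    rw [hm.y0, map_one]
  · intro l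
    refine Fin.cases ?_ (fun l => ?_) l
    · exact ⟨0, by rw [cons1, Fin.cons_zero, hm.y0, map_one]⟩
    · obtain ⟨l', hl'⟩ := hm.xy l
      exact ⟨l', by rw [cons1, Fin.cons_succ, hl']⟩

end dL16Aux

open DAux dL16Aux in
theorem dL16 (hd1 : D1Stmt) (hd9 : D9Stmt) (hd10 : D10Stmt) (hdl5 : DL5Stmt)
    (hdl13 : DL13Stmt) : DL16Stmt := by
  intro R K _ _ _ _ _ _ _ _ n N M κ r d m₀ e₀ Ψ x y b S hx hsit hm hcomb hls L Λ _ _ _ _ _ _ _ _
    a hN e' he'0 he'I V hVL hVx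
  have : CharZero L := charZero_of_injective_algebraMap (algebraMap ℂ L).injective
  obtain ⟨w, hw1, hwV⟩ := hd1 L Λ hN.trdeg hN.fg V hVL
  set v : Valuation K ℤᵐ⁰ := w.comap (algebraMap K Λ) with hv
  have htriv : Triv v := triv_comap hw1
  have hvx : ∀ l, v (algebraMap R K (x l)) ≤ 1 := fun l => (hwV _).1 (hVx l)
  have hyK := adjoin_yK hsit.gen hm
  obtain ⟨b₁, z, lam, hls₁⟩ := hls v htriv
  have hb₁ : v (cons1 (fun l => algebraMap R K (x l)) b₁) = 1 := by
    refine le_antisymm ?_ ?_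
    · refine Fin.cases ?_ (fun l => ?_) b₁
      · rw [cons1, Fin.cons_zero, map_one]
      · rw [cons1, Fin.cons_succ]
        exact hvx l
    · have h1 := hls₁.max 0
      rwa [cons1, Fin.cons_zero, map_one] at h1
  have hY0 : (fun l => algebraMap R K (y l)) 0 = 1 := by
    show algebraMap R K (y 0) = 1
    rw [hm.y0, map_one]
  have hY0' : algebraMap R K (y 0) = 1 := hY0
  have hlsy : LSAt (fun l => algebraMap R K (y l)) 0 v z lam :=
    lsAt_y hdl5 hm hcomb htriv hls₁ (by rw [hY0', map_one, hb₁])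
  obtain ⟨J, e, he0, hJ, hJ'⟩ := hdl13 K n M r κ d Ψ (fun l => algebraMap R K (y l)) 0 S.F hm.dimM
    hm.eqs v z lam htriv hlsy
  have haff : aff (fun l => algebraMap R K (y l)) 0 = fun l => algebraMap R K (y l) := by
    funext l
    rw [aff, hY0', div_one]
  rw [haff] at hJ hJ'
  have hfin : ∃ T : Set K, T.Finite ∧ IntermediateField.adjoin ℂ T = ⊤ :=
    ⟨_, Set.finite_range _, hyK⟩
  have hΨ0 := psi_ne hd9 hd10 hsit.trdeg hm.dimM Ψ hsit.Ψ0 hm.eqs.hom hm.eqs.zero hY0 hyK he'0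
    (by rw [he'I]; exact hm.J0)
  have hrel := rel9 hd9 hd10 hsit.trdeg hfin hm.dimM Ψ hm.eqs.hom hm.eqs.zero hY0 J he0 he'0 v
  rw [hJ, mul_one, he'I] at hrel
  -- the curve is negative
  have hnz := hN.neg w hw1 b₁ z lam hls₁
  have hsize : size (fun l => algebraMap R K (x l)) v = 1 := by
    rw [size, sup_eq_right]
    exact Finset.sup_le fun l _ => hvx l
  rw [← hv, hsize, one_pow, one_mul] at hnz
  have hk := val_le_kSize Ψ htriv hls₁ (by rw [cons1, Fin.cons_zero]; exact one_ne_zero)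
  set ψ := Ψ (fun i : Fin n => D ℂ K (algebraMap R K (y (e (Sum.inl i.succ))))) with hψ
  set ψ₀ := Ψ (fun i : Fin n => D ℂ K (algebraMap R K (y (e' (Sum.inl i.succ))))) with hψ₀
  set mJ := minor S.F S.I₀ (fun l => algebraMap R K (y l)) J with hmJ
  have hψa : v ψ ^ m₀ ≤ w a := by
    refine le_trans ?_ hnz
    rw [hJ']
    gcongr
  have hv0 : v ψ₀ ≠ 0 := (Valuation.ne_zero_iff v).2 hΨ0
  have hmul : v ψ * v mJ ≠ 0 := by
    rw [hrel]
    exact hv0
  have hψ1 : v ψ ≠ 0 := left_ne_zero_of_mul hmul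
  have hm1 : v mJ ≠ 0 := right_ne_zero_of_mul hmul
  refine ⟨J, (Valuation.ne_zero_iff v).1 hm1, ?_⟩
  rw [hwV, map_inv₀, map_mul, map_div₀, map_pow, map_pow]
  have e1 : w (algebraMap K Λ ψ₀) = v ψ₀ := rfl
  have e2 : w (algebraMap K Λ mJ) = v mJ := rfl
  rw [e1, e2, ← hrel]
  have h1 : w a / (v ψ * v mJ) ^ m₀ * v mJ ^ m₀ = w a / v ψ ^ m₀ := by
    rw [mul_pow, div_mul_eq_mul_div, mul_div_mul_right _ _ (pow_ne_zero _ hm1)]
  rw [h1, inv_div]
  exact div_le_one_of_le₀ hψa zero_le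

end Pool.Agent.Lib.MP_410da7_agA
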