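import Pool.Agent.Lib.MP_410da7_agA.L.SpecDL
import Pool.Agent.Lib.MP_410da7_agA.DAux
import Pool.Agent.Lib.MP_410da7_agA.D17

/-!
# MP_410da7_ag, smooth affine varieties, version 2: DL17, the certificate at infinity
-/

set_option autoImplicit false

namespace Pool.Agent.Lib.MP_410da7_agA

open MvPolynomial KaehlerDifferential WithZero Module
open Pool.Agent.Lib.MP_410da7_ag (regDiff logDiff regGens logGens)

open DAux d17Aux in
theorem dL17 (hd9 : D9Stmt) (hd10 : D10Stmt) (hdl5 : DL5Stmt) (hdl13 : DL13Stmt)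
    (hdl15 : DL15Stmt) : DL17Stmt := by
  intro R K _ _ _ _ _ _ _ _ n N M κ r d m₀ e₀ Ψ x y b S hx hsit hm hlin hls
    L Λ _ _ _ _ _ _ _ _ a hN e' he'0 he'I w hw1 hwx hwsize
  set v : Valuation K ℤᵐ⁰ := w.comap (algebraMap K Λ) with hv
  have htriv : Triv v := triv_comap hw1
  have hyK := adjoin_yK hsit.gen hm
  have hY0 : (fun l => algebraMap R K (y l)) 0 = 1 := by
    show algebraMap R K (y 0) = 1
    rw [hm.y0, map_one]
  -- the coordinate with the largest value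
  obtain ⟨l₁, hl₁⟩ := hwx
  have : Nonempty (Fin N) := ⟨l₁⟩
  obtain ⟨l₀, hl₀⟩ := Finite.exists_max (fun l => v (algebraMap R K (x l)))
  have hX1 : 1 < v (algebraMap R K (x l₀)) := lt_of_lt_of_le hl₁ (hl₀ l₁)
  set X := v (algebraMap R K (x l₀)) with hX
  have hx0 : x l₀ ≠ 0 := by
    intro h
    rw [hX, h, map_zero, map_zero] at hX1
    exact not_lt_zero hX1
  have hsize : size (fun l => algebraMap R K (x l)) v = X := by
    rw [size]
    refine le_antisymm (sup_le (Finset.sup_le fun l _ => hl₀ l) hX1.le) ?_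
    exact le_sup_of_le_left (Finset.le_sup (f := fun l => v (algebraMap R K (x l)))
      (Finset.mem_univ l₀))
  have hybX : v (algebraMap R K (y b)) = X := by
    rw [← hsize]
    exact hwsize
  have hyb0 : algebraMap R K (y b) ≠ 0 := by
    intro h
    rw [h, map_zero] at hybX
    rw [← hybX] at hX1
    exact not_lt_zero hX1
  have hfin : ∃ T : Set K, T.Finite ∧ IntermediateField.adjoin ℂ T = ⊤ :=
    ⟨_, Set.finite_range _, hyK⟩
  -- the chart
  obtain ⟨b₁, z, lam, hLS₁⟩ := hls v htriv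
  have hcons : ∀ l : Fin (N + 1), cons1 (fun l => algebraMap R K (x l)) l =
      algebraMap R K ((Fin.cons 1 x : Fin (N + 1) → R) l) := by
    intro l
    unfold cons1
    refine Fin.cases ?_ (fun l => ?_) l
    · rw [Fin.cons_zero, Fin.cons_zero, map_one]
    · rw [Fin.cons_succ, Fin.cons_succ]
  have hb₁ : v (cons1 (fun l => algebraMap R K (x l)) b₁) = X := by
    refine le_antisymm ?_ ?_
    · unfold cons1
      refine Fin.cases ?_ (fun l => ?_) b₁
      · rw [Fin.cons_zero, map_one]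
        exact hX1.le
      · rw [Fin.cons_succ]
        exact hl₀ l
    · have h := hLS₁.max l₀.succ
      unfold cons1 at h
      rw [Fin.cons_succ] at h
      exact h
  have hLS : LSAt (fun l => algebraMap R K (y l)) b v z lam := by
    refine hdl5 K n N M (cons1 fun l => algebraMap R K (x l)) (fun l => algebraMap R K (y l)) b₁ b
      v z lam htriv ?_ ?_ ?_ hLS₁ ?_
    · exact Eq.trans rfl hY0.symm
    · intro l'
      obtain ⟨c, hc⟩ := hlin l'
      refine ⟨c, ?_⟩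
      rw [hc, map_sum]
      refine Finset.sum_congr rfl fun l _ => ?_
      rw [hcons, Algebra.smul_def, map_mul, ← IsScalarTower.algebraMap_apply ℂ R K,
        ← Algebra.smul_def]
    · intro l
      rw [hcons]
      refine Fin.cases ?_ (fun l => ?_) l
      · exact ⟨0, by rw [Fin.cons_zero, map_one]; exact hY0⟩
      · obtain ⟨l', hl'⟩ := hm.xy l
        refine ⟨l', ?_⟩
        rw [hl', Fin.cons_succ]
    · rw [hb₁]
      exact hybX
  obtain ⟨J, e, he0, hJ, hψz⟩ := hdl13 K n M r κ d Ψ (fun l => algebraMap R K (y l)) b S.F hm.dimM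
    hm.eqs v z lam htriv hLS
  obtain ⟨T, hT1, hT2, hT3, hT5⟩ := hdl15 K n M κ d (fun l => algebraMap R K (y l)) b S.F hY0
    hm.eqs v z lam htriv hLS
  set ζ := ∏ i, aeval (fun l => algebraMap R K (y l)) (T.a i) / algebraMap R K (y b) ^ T.e i
    with hζ
  have hζ0 : ζ ≠ 0 := Finset.prod_ne_zero_iff.2 fun i _ =>
    div_ne_zero (hT2 i) (pow_ne_zero _ hyb0)
  have hnz := hN.neg w hw1 b₁ z lam hLS₁
  rw [← hv, hsize] at hnz
  set q := kSize Ψ v z lam with hq
  have hvζ0 : v ζ ≠ 0 := (Valuation.ne_zero_iff v).2 hζ0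
  have hθ2 : q * v ζ =
      v (Ψ fun i => D ℂ K (aff (fun l => algebraMap R K (y l)) b (e (Sum.inl i.succ)))) := by
    rw [hψz, hq, kSize, ← hT3]
    exact div_mul_cancel₀ _ hvζ0
  -- the minors
  have hΨ0 := psi_ne hd9 hd10 hsit.trdeg hm.dimM Ψ hsit.Ψ0 hm.eqs.hom hm.eqs.zero hY0 hyK he'0
    (by rw [he'I]; exact hm.J0)
  have hyaff : (fun l => algebraMap R K (y l)) =
      fun l => algebraMap R K (y b) * aff (fun l => algebraMap R K (y l)) b l := by
    funext l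
    rw [aff, mul_div_cancel₀ _ hyb0]
  have hcone : coneDet Ψ (fun l => algebraMap R K (y l)) (e ∘ Sum.inl) =
      algebraMap R K (y b) ^ (n + 1) *
        Ψ (fun i => D ℂ K (aff (fun l => algebraMap R K (y l)) b (e (Sum.inl i.succ)))) := by
    have h1 := (hd10 K n M Ψ (aff (fun l => algebraMap R K (y l)) b) (e ∘ Sum.inl)).1
      (algebraMap R K (y b))
    rw [← hyaff] at h1
    rw [h1, (hd10 K n M Ψ (aff (fun l => algebraMap R K (y l)) b) (e ∘ Sum.inl)).2]
    · rfl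
    · rw [Function.comp_apply, he0]
      exact div_self hyb0
  have hcone' : coneDet Ψ (fun l => algebraMap R K (y l)) (e' ∘ Sum.inl) =
      Ψ (fun i => D ℂ K (algebraMap R K (y (e' (Sum.inl i.succ))))) := by
    refine (hd10 K n M Ψ (fun l => algebraMap R K (y l)) (e' ∘ Sum.inl)).2 ?_
    rw [Function.comp_apply, he'0]
    exact hY0
  have hminor := minor_scale hm.eqs.hom (e ∘ Sum.inr) J (algebraMap R K (y b))
    (aff (fun l => algebraMap R K (y l)) b)
  rw [← hyaff] at hminor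
  have h9 := hd9 K n M r κ d hsit.trdeg hfin hm.dimM Ψ S.F (fun l => algebraMap R K (y l))
    hm.eqs.hom hm.eqs.zero J e e' v
  rw [hcone, hcone', hminor, he'I, map_mul, map_mul, map_pow, map_zpow₀, hJ, mul_one, ← hθ2] at h9
  set ψ₀ := Ψ (fun i => D ℂ K (algebraMap R K (y (e' (Sum.inl i.succ))))) with hψ₀
  set mJ := minor S.F S.I₀ (fun l => algebraMap R K (y l)) J with hmJ
  have hv0 : v ψ₀ ≠ 0 := (Valuation.ne_zero_iff v).2 hΨ0
  have hY0' : v (algebraMap R K (y b)) ≠ 0 := (Valuation.ne_zero_iff v).2 hyb0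
  have hprod : v (algebraMap R K (y b)) ^ (n + 1) * (q * v ζ) * v mJ ≠ 0 := by
    rw [h9]
    exact mul_ne_zero hv0 (zpow_ne_zero _ hY0')
  have hm1 : v mJ ≠ 0 := right_ne_zero_of_mul hprod
  have hq1 : q ≠ 0 := left_ne_zero_of_mul (right_ne_zero_of_mul (left_ne_zero_of_mul hprod))
  have hX0 : X ≠ 0 := ne_of_gt (lt_trans zero_lt_one hX1)
  refine ⟨T, J, l₀, hx0, hT1, hT2, (Valuation.ne_zero_iff v).1 hm1, ?_, ?_, ?_⟩
  · change v ((∏ i, (aeval (fun l => algebraMap R K (y l)) (T.a i) /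
      algebraMap R K (y b) ^ T.e i) ^ T.lam i) * algebraMap R K (y b)) = 1
    rw [map_mul]
    exact hT5
  · change v (algebraMap R K (y b) / algebraMap R K (x l₀)) ≤ 1
    rw [map_div₀, ← hX, hybX, div_self hX0]
  · rw [map_mul, map_div₀, map_pow]
    change 1 ≤ w a / v ψ₀ ^ m₀ * v (mJ ^ m₀ *
      algebraMap R K (y b) ^ (((n : ℤ) + 1 - r * ((d : ℤ) - 1)) * m₀) * ζ ^ m₀ /
        algebraMap R K (x l₀) ^ e₀)
    rw [map_div₀, map_mul, map_mul, map_pow, map_pow, map_pow, map_zpow₀, ← hX]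
    set Yb := v (algebraMap R K (y b)) with hYb
    have h10 : v ψ₀ = v mJ * Yb ^ ((n : ℤ) + 1 - r * ((d : ℤ) - 1)) * (q * v ζ) := by
      have h11 : Yb ^ ((n : ℤ) + 1 - r * ((d : ℤ) - 1)) =
          Yb ^ (n + 1) / Yb ^ ((r : ℤ) * ((d : ℤ) - 1)) := by
        rw [zpow_sub₀ hY0']
        congr 1
        exact_mod_cast zpow_natCast Yb (n + 1)
      rw [h11]
      have h12 : v ψ₀ = Yb ^ (n + 1) * (q * v ζ) * v mJ / Yb ^ ((r : ℤ) * ((d : ℤ) - 1)) := by
        rw [h9, mul_div_cancel_right₀ _ (zpow_ne_zero _ hY0')]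
      rw [h12, mul_div_assoc', div_mul_eq_mul_div]
      congr 1
      ac_rfl
    have h13 : Yb ^ (((n : ℤ) + 1 - r * ((d : ℤ) - 1)) * m₀) =
        (Yb ^ ((n : ℤ) + 1 - r * ((d : ℤ) - 1))) ^ m₀ := by
      rw [zpow_mul, zpow_natCast]
    set Q := Yb ^ ((n : ℤ) + 1 - r * ((d : ℤ) - 1)) with hQ
    have hQ0 : Q ≠ 0 := zpow_ne_zero _ hY0'
    rw [h10, h13]
    have hgoal : w a / (v mJ * Q * (q * v ζ)) ^ m₀ * (v mJ ^ m₀ * Q ^ m₀ * v ζ ^ m₀ / X ^ e₀) =
        w a / (X ^ e₀ * q ^ m₀) := by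
      have h14 : (v mJ * Q * (q * v ζ)) ^ m₀ =
          q ^ m₀ * (v mJ ^ m₀ * Q ^ m₀ * v ζ ^ m₀) := by
        simp only [mul_pow]
        ac_rfl
      have h15 : v mJ ^ m₀ * Q ^ m₀ * v ζ ^ m₀ ≠ 0 :=
        mul_ne_zero (mul_ne_zero (pow_ne_zero _ hm1) (pow_ne_zero _ hQ0)) (pow_ne_zero _ hvζ0)
      have h16 : q ^ m₀ * (v mJ ^ m₀ * Q ^ m₀ * v ζ ^ m₀) * X ^ e₀ =
          X ^ e₀ * q ^ m₀ * (v mJ ^ m₀ * Q ^ m₀ * v ζ ^ m₀) := by
        ac_rfl
      rw [h14, div_mul_div_comm, h16, mul_div_mul_right _ _ h15]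
    rw [hgoal]
    exact (one_le_div₀ (zero_lt_iff.2
      (mul_ne_zero (pow_ne_zero _ hX0) (pow_ne_zero _ hq1)))).2 hnz

end Pool.Agent.Lib.MP_410da7_agA
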