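import Pool.Agent.Lib.MP_410da7_agA.L.SpecDL

/-!
# MP_410da7_ag, smooth affine varieties (C46), version 2, statement DL4: the generic linear form
-/

set_option autoImplicit false

namespace Pool.Agent.Lib.MP_410da7_agA

open MvPolynomial KaehlerDifferential WithZero Module

namespace dL4Aux

/-- At a valuation without center on `X` the size is the value of a coordinate. -/
theorem size_eq {K : Type} [Field K] {N : ℕ} (x : Fin N → K) (v : Valuation K ℤᵐ⁰)
    (h : ¬ Cent x v) : ∃ l, 1 < v (x l) ∧ size x v = v (x l) ∧ ∀ l', v (x l') ≤ v (x l) := by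
  classical
  have h' : ∃ l, 1 < v (x l) := by
    by_contra hcon
    apply h
    intro l
    by_contra hl
    exact hcon ⟨l, not_le.mp hl⟩
  obtain ⟨l₁, hl₁⟩ := h'
  obtain ⟨l₀, -, hmax⟩ := Finset.exists_max_image Finset.univ (fun l => v (x l))
    ⟨l₁, Finset.mem_univ _⟩
  have h0 : 1 < v (x l₀) := lt_of_lt_of_le hl₁ (hmax l₁ (Finset.mem_univ _))
  refine ⟨l₀, h0, ?_, fun l' => hmax l' (Finset.mem_univ _)⟩
  have h1 : (Finset.univ.sup fun l => v (x l)) = v (x l₀) := by
    refine le_antisymm (Finset.sup_le fun l hl => hmax l hl) ?_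
    exact Finset.le_sup (f := fun l => v (x l)) (Finset.mem_univ l₀)
  show (Finset.univ.sup fun l => v (x l)) ⊔ 1 = v (x l₀)
  rw [h1]
  exact sup_eq_left.mpr h0.le

end dL4Aux

/-- DL4. The generic linear form. -/
theorem dL4 : DL4Stmt := by
  intro K _ _ N s x v hv hc
  classical
  choose l₀ hl1 hsz hmax using fun j => dL4Aux.size_eq x (v j) (hc j)
  let L : (Fin N → ℂ) →ₗ[ℂ] K := Fintype.linearCombination ℂ x
  have hL1 : ∀ i, L (Pi.single i 1) = x i := by
    intro i
    show Fintype.linearCombination ℂ x (Pi.single i 1) = x i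
    rw [Fintype.linearCombination_apply_single, one_smul]
  have hsm : ∀ (j : Fin s) (c : ℂ) (r : K), v j (c • r) ≤ v j r := by
    intro j c r
    rw [Algebra.smul_def, map_mul]
    by_cases hc0 : c = 0
    · rw [hc0, map_zero, map_zero, zero_mul]
      exact zero_le
    · rw [hv j c hc0, one_mul]
  have hlt : ∀ j, (0 : ℤᵐ⁰) < v j (x (l₀ j)) := fun j => lt_trans zero_lt_one (hl1 j)
  let S : Fin s → Submodule ℂ (Fin N → ℂ) := fun j =>
    { carrier := {c | v j (L c) < v j (x (l₀ j))}
      zero_mem' := by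
        show v j (L 0) < _
        rw [map_zero, map_zero]
        exact hlt j
      add_mem' := by
        intro a b ha hb
        show v j (L (a + b)) < _
        rw [map_add]
        exact (v j).map_add_lt ha hb
      smul_mem' := by
        intro c a ha
        show v j (L (c • a)) < _
        rw [map_smul]
        exact lt_of_le_of_lt (hsm j c _) ha }
  let T : Finset (Submodule ℂ (Fin N → ℂ)) := Finset.univ.image S
  have hT : ⊤ ∉ T := by
    intro h
    obtain ⟨j, -, hj⟩ := Finset.mem_image.mp h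
    have h1 : (Pi.single (l₀ j) 1 : Fin N → ℂ) ∈ S j := by rw [hj]; exact Submodule.mem_top
    have h2 : v j (L (Pi.single (l₀ j) 1)) < v j (x (l₀ j)) := h1
    rw [hL1] at h2
    exact lt_irrefl _ h2
  have hne' := Subspace.biUnion_ne_univ_of_top_notMem hT
  obtain ⟨c, hc⟩ := (Set.ne_univ_iff_exists_notMem _).mp hne'
  have hc' : ∀ p ∈ T, c ∉ p := by
    intro p hp hcp
    exact hc (Set.mem_biUnion hp hcp)
  refine ⟨c, fun j => ?_⟩
  rw [hsz j]
  have h1 : ∑ l, c l • x l = L c := rfl
  refine le_antisymm ?_ ?_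
  · refine (v j).map_sum_le fun i _ => ?_
    exact le_trans (hsm j _ _) (hmax j i)
  · rw [h1]
    by_contra hcon
    rw [not_le] at hcon
    exact hc' (S j) (Finset.mem_image_of_mem _ (Finset.mem_univ j)) hcon

end Pool.Agent.Lib.MP_410da7_agA
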