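import Pool.Agent.Lib.MP_410da7_agA.L.SpecDL

/-!
# MP_410da7_ag, C46 version 2, DL5: change of the chart and of the homogeneous coordinates

The local ring is the smallest subalgebra which contains the coordinates `Y_l/Y_b` and is closed under
the inverses of the elements of value `1`.
-/

set_option autoImplicit false

namespace Pool.Agent.Lib.MP_410da7_agA

open MvPolynomial KaehlerDifferential WithZero Module

namespace dL5Aux

variable {K : Type} [Field K] [Algebra ℂ K] {M : ℕ}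

theorem inv_mem (Y : Fin (M + 1) → K) (b : Fin (M + 1)) (v : Valuation K ℤᵐ⁰) {g : K}
    (hg : g ∈ locRing Y b v) (hv : v g = 1) : g⁻¹ ∈ locRing Y b v := by
  obtain ⟨P, Q, hQ, hgP⟩ := hg
  have hg0 : g ≠ 0 := by
    intro h
    rw [h, map_zero] at hv
    exact zero_ne_one hv
  refine ⟨Q, P, ?_, ?_⟩
  · rw [← hgP, map_mul, hv, hQ, one_mul]
  · rw [← hgP, ← mul_assoc, inv_mul_cancel₀ hg0, one_mul]

theorem aff_mem (Y : Fin (M + 1) → K) (b : Fin (M + 1)) (v : Valuation K ℤᵐ⁰) (l : Fin (M + 1)) :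
    Y l / Y b ∈ locRing Y b v := by
  refine ⟨X l, 1, by rw [map_one, map_one], ?_⟩
  rw [map_one, mul_one, aeval_X]
  rfl

/-- The local ring is the smallest subalgebra with these properties. -/
theorem loc_le (Y : Fin (M + 1) → K) (b : Fin (M + 1)) (v : Valuation K ℤᵐ⁰) (O : Subalgebra ℂ K)
    (h1 : ∀ l, Y l / Y b ∈ O) (h2 : ∀ g ∈ O, v g = 1 → g⁻¹ ∈ O) : locRing Y b v ≤ O := by
  have h3 : ∀ P : MvPolynomial (Fin (M + 1)) ℂ, aeval (aff Y b) P ∈ O := by
    intro P
    induction P using MvPolynomial.induction_on with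
    | C a => rw [aeval_C]; exact O.algebraMap_mem a
    | add p q hp hq => rw [map_add]; exact O.add_mem hp hq
    | mul_X p l hp =>
      rw [map_mul, aeval_X]
      exact O.mul_mem hp (h1 l)
  rintro f ⟨P, Q, hQ, hf⟩
  have hQ0 : aeval (aff Y b) Q ≠ 0 := by
    intro h
    rw [h, map_zero] at hQ
    exact zero_ne_one hQ
  have : f = aeval (aff Y b) P * (aeval (aff Y b) Q)⁻¹ := by
    rw [← hf, mul_assoc, mul_inv_cancel₀ hQ0, mul_one]
  rw [this]
  exact O.mul_mem (h3 P) (h2 _ (h3 Q) hQ)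

theorem coord_of_eq {n : ℕ} (O O' : Subalgebra ℂ K) (z : Fin n → K) (h : O' = O)
    (hO : Submodule.span O {ω : Ω[O⁄ℂ] | ∃ i, ∃ h : z i ∈ O, ω = D ℂ O ⟨z i, h⟩} = ⊤) :
    Submodule.span O' {ω : Ω[O'⁄ℂ] | ∃ i, ∃ h : z i ∈ O', ω = D ℂ O' ⟨z i, h⟩} = ⊤ := by
  subst h
  exact hO

end dL5Aux

open dL5Aux

theorem dL5 (hd5 : D5Stmt) : DL5Stmt := by
  have _ := hd5
  intro K _ _ n M M' Y Y' b b' v z lam hv h0 hlin hsub hLS hval
  have hYb : Y b ≠ 0 := hLS.ne
  have hvb : v (Y b) ≠ 0 := (Valuation.ne_zero_iff v).mpr hYb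
  have hY'b : Y' b' ≠ 0 := by
    rw [← Valuation.ne_zero_iff v, hval]
    exact hvb
  obtain ⟨b'', hb''⟩ := hsub b
  -- the unit
  have hvu : v (Y b / Y' b') = 1 := by
    rw [map_div₀, hval, div_self hvb]
  have hvu' : v (Y' b' / Y b) = 1 := by
    rw [map_div₀, hval, div_self hvb]
  have hlinO : ∀ l', Y' l' / Y b ∈ locRing Y b v := by
    intro l'
    obtain ⟨c, hc⟩ := hlin l'
    rw [hc, Finset.sum_div]
    refine Subalgebra.sum_mem _ fun l _ => ?_
    rw [smul_div_assoc]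
    exact Subalgebra.smul_mem _ (aff_mem Y b v l) _
  have hEq : locRing Y' b' v = locRing Y b v := by
    apply le_antisymm
    · refine loc_le Y' b' v _ ?_ (fun g hg hg1 => inv_mem Y b v hg hg1)
      intro l'
      have h1 : Y' l' / Y' b' = (Y' l' / Y b) * (Y' b' / Y b)⁻¹ := by
        field_simp
      rw [h1]
      exact Subalgebra.mul_mem _ (hlinO l') (inv_mem Y b v (hlinO b') hvu')
    · refine loc_le Y b v _ ?_ (fun g hg hg1 => inv_mem Y' b' v hg hg1)
      intro l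
      obtain ⟨l', hl'⟩ := hsub l
      have h1 : Y l / Y b = (Y' l' / Y' b') * (Y' b'' / Y' b')⁻¹ := by
        rw [hl', hb'']
        field_simp
      rw [h1]
      refine Subalgebra.mul_mem _ (aff_mem Y' b' v l') (inv_mem Y' b' v (aff_mem Y' b' v b'') ?_)
      rw [hb'']
      exact hvu
  have hw : Y b / Y' b' ∈ locRing Y b v := by
    rw [← hEq, ← hb'']
    exact aff_mem Y' b' v b''
  refine ⟨hY'b, ?_, ?_, ?_, ?_, ?_⟩
  · intro l'
    obtain ⟨c, hc⟩ := hlin l'
    rw [hc, hval]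
    refine Valuation.map_sum_le v fun l _ => ?_
    rw [Algebra.smul_def, map_mul]
    by_cases hcl : c l = 0
    · rw [hcl, map_zero, map_zero, zero_mul]
      exact zero_le
    · rw [hv _ hcl, one_mul]
      exact hLS.max l
  · intro i
    rw [hEq]
    exact hLS.mem i
  · exact coord_of_eq _ _ z hEq hLS.coord
  · obtain ⟨u, hu, hvu1, hbd⟩ := hLS.bd
    refine ⟨u * (Y b / Y' b'), ?_, ?_, ?_⟩
    · rw [hEq]
      exact Subalgebra.mul_mem _ hu hw
    · rw [map_mul, hvu1, hvu, one_mul]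
    · have h1 : Y' 0 / Y' b' = (Y 0 / Y b) * (Y b / Y' b') := by
        rw [← h0]
        field_simp
      rw [h1, hbd]
      ring
  · intro f hf m hm
    rw [hEq] at hf
    obtain ⟨g, hg, hfg⟩ := hm
    rw [hEq] at hg
    have h1 : Y' 0 / Y' b' = (Y 0 / Y b) * (Y b / Y' b') := by
      rw [← h0]
      field_simp
    obtain ⟨g', hg', hfg'⟩ := hLS.rad f hf m ⟨g * (Y b / Y' b'), Subalgebra.mul_mem _ hg hw, by
      rw [hfg, h1]; ring⟩
    refine ⟨g', ?_, hfg'⟩
    rw [hEq]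
    exact hg'

end Pool.Agent.Lib.MP_410da7_agA
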