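import Pool.Agent.Lib.MP_410da7_agA.L.SpecDL

/-!
# MP_410da7_ag, smooth affine varieties (C46), version 2, statement DL7: the logarithmic frame
-/

set_option autoImplicit false

namespace Pool.Agent.Lib.MP_410da7_agA

open MvPolynomial KaehlerDifferential WithZero Module
open Pool.Agent.Lib.MP_410da7_ag (regDiff logDiff regGens logGens)

namespace dL7Aux

variable {K : Type} [Field K] [Algebra ℂ K]

/-- A valuation trivial on `ℂ` is at most `1` on the constants. -/
theorem val_const {v : Valuation K ℤᵐ⁰} (hv : Triv v) (c : ℂ) : v (algebraMap ℂ K c) ≤ 1 := by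
  by_cases hc : c = 0
  · rw [hc, map_zero, map_zero]
    exact zero_le
  · exact (hv c hc).le

/-- A polynomial in elements of the valuation ring is in the valuation ring. -/
theorem val_aeval {M : ℕ} {v : Valuation K ℤᵐ⁰} (hv : Triv v) {t : Fin M → K}
    (ht : ∀ l, v (t l) ≤ 1) (P : MvPolynomial (Fin M) ℂ) : v (aeval t P) ≤ 1 := by
  induction P using MvPolynomial.induction_on with
  | C a =>
    rw [aeval_C]
    exact val_const hv a
  | add p q hp hq =>
    rw [map_add]
    exact v.map_add_le hp hq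
  | mul_X p i hp =>
    rw [map_mul, map_mul, aeval_X]
    exact mul_le_one' hp (ht i)

/-- The elements of the local ring have value at most `1`. -/
theorem val_locRing {M : ℕ} {v : Valuation K ℤᵐ⁰} (hv : Triv v) {Y : Fin (M + 1) → K}
    {b : Fin (M + 1)} (hb : Y b ≠ 0) (hmax : ∀ l, v (Y l) ≤ v (Y b)) {f : K}
    (hf : f ∈ locRing Y b v) : v f ≤ 1 := by
  obtain ⟨P, Q, hQ, hPQ⟩ := hf
  have hb' : v (Y b) ≠ 0 := (Valuation.ne_zero_iff v).mpr hb
  have hs : ∀ l, v (aff Y b l) ≤ 1 := by
    intro l
    show v (Y l / Y b) ≤ 1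
    rw [map_div₀]
    exact div_le_one_of_le₀ (hmax l) zero_le
  have h1 : v f * v (aeval (aff Y b) Q) = v (aeval (aff Y b) P) := by
    rw [← map_mul, hPQ]
  rw [hQ, mul_one] at h1
  rw [h1]
  exact val_aeval hv hs P

end dL7Aux

open dL7Aux in
/-- DL7. The logarithmic frame. -/
theorem dL7 : DL7Stmt := by
  intro K _ _ n N Ψ x b v z lam hv h
  classical
  have hz : ∀ i, v (z i) ≤ 1 := fun i => val_locRing hv h.ne h.max (h.mem i)
  obtain ⟨u, -, hu1, hbd⟩ := h.bd
  have hY0 : cons1 x 0 = 1 := rfl
  have hinv : (1 : K) / cons1 x b ≠ 0 := div_ne_zero one_ne_zero h.ne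
  have hprod : ∏ i, z i ^ lam i ≠ 0 := by
    intro h0
    rw [h0, mul_zero, hY0] at hbd
    exact hinv hbd
  have hz0 : ∀ i, lam i ≠ 0 → z i ≠ 0 := by
    intro i hi h0
    apply hprod
    refine Finset.prod_eq_zero (Finset.mem_univ i) ?_
    rw [h0, zero_pow hi]
  let c : Fin n → K := fun i => if lam i = 0 then 1 else (z i)⁻¹
  refine ⟨fun i => c i • D ℂ K (z i), ⟨fun i => ?_, fun hcent i => ?_⟩, ?_⟩
  · show c i • D ℂ K (z i) ∈ logDiff v
    by_cases hi : lam i = 0
    · have h1 : c i = 1 := if_pos hi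
      rw [h1]
      refine AddSubgroup.subset_closure (Or.inl ?_)
      exact ⟨1, z i, by rw [map_one], hz i, rfl⟩
    · have h1 : c i = (z i)⁻¹ := if_neg hi
      rw [h1]
      refine AddSubgroup.subset_closure (Or.inr ?_)
      exact ⟨1, z i, by rw [map_one], hz0 i hi, by rw [one_div]⟩
  · -- the values `v (z i)` are `1`
    have hYb : v (cons1 x b) = 1 := by
      refine le_antisymm ?_ ?_
      · refine Fin.cases ?_ (fun l => ?_) b
        · show v (1 : K) ≤ 1
          rw [map_one]
        · exact hcent l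
      · have h1 := h.max 0
        rw [hY0, map_one] at h1
        exact h1
    have h2 : ∏ i, v (z i) ^ lam i = 1 := by
      have h3 := congrArg v hbd
      rw [hY0, map_div₀, map_one, hYb, div_one, map_mul, hu1, one_mul, map_prod] at h3
      rw [h3]
      exact Finset.prod_congr rfl fun i _ => (map_pow v (z i) (lam i)).symm
    have h4 : ∀ i, lam i ≠ 0 → v (z i) = 1 := by
      intro i hi
      have h5 : v (z i) ^ lam i = 1 := by
        refine le_antisymm (pow_le_one' (hz i) _) ?_
        rw [← h2]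
        rw [← Finset.mul_prod_erase Finset.univ _ (Finset.mem_univ i)]
        refine mul_le_of_le_one_right' ?_
        exact Finset.prod_le_one' fun j _ => pow_le_one' (hz j) _
      refine le_antisymm (hz i) ?_
      by_contra hcon
      rw [not_le] at hcon
      exact absurd h5 (ne_of_lt (pow_lt_one' hcon hi))
    refine AddSubgroup.subset_closure ?_
    refine ⟨c i, z i, ?_, hz i, rfl⟩
    by_cases hi : lam i = 0
    · have h1 : c i = 1 := if_pos hi
      rw [h1, map_one]
    · have h1 : c i = (z i)⁻¹ := if_neg hi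
      rw [h1, map_inv₀, h4 i hi, inv_one]
  · have h1 : Ψ (fun i => c i • D ℂ K (z i)) = (∏ i, c i) • Ψ (fun i => D ℂ K (z i)) :=
      AlternatingMap.map_smul_univ Ψ c _
    rw [h1, smul_eq_mul, map_mul, map_prod]
    have h2 : ∏ i, v (c i) = (∏ i, if lam i = 0 then (1 : ℤᵐ⁰) else v (z i))⁻¹ := by
      rw [← Finset.prod_inv_distrib]
      refine Finset.prod_congr rfl fun i _ => ?_
      by_cases hi : lam i = 0
      · have h3 : c i = 1 := if_pos hi
        rw [h3, map_one, if_pos hi, inv_one]
      · have h3 : c i = (z i)⁻¹ := if_neg hi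
        rw [h3, map_inv₀, if_neg hi]
    rw [h2, mul_comm, ← div_eq_mul_inv]
    rfl

end Pool.Agent.Lib.MP_410da7_agA
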