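import Pool.Agent.Lib.MP_410da7_agA.L.SpecEL
import Pool.Agent.Lib.MP_410da7_agA.E9

/-!
# MP_410da7_ag, C46 version 2, EFGL: end of block E (helper69; adapted from E9)
-/

set_option autoImplicit false

namespace Pool.Agent.Lib.MP_410da7_agA

open MvPolynomial Module

open efgAux

theorem eFGL (hff1 : FF1Stmt) (hff5 : FF5Stmt) (hff7 : FF7Stmt) (hff10 : FF10Stmt)
    (hfg16l : FG16LStmt) (he4 : E4Stmt) (hel6c : EL6cStmt) (hel7c : EL7cStmt) (he8 : E8Stmt) :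
    EFGLStmt := by
  intro L Λ _ _ _ _ M κ r d n m₀ e₀ E₀ B S y b₀ α hc hB
  classical
  by_contra hno
  -- E8
  obtain ⟨E₁, hE₁⟩ := he8 Λ (M + 1) κ B (fun j => map (algebraMap L Λ) (S.F j)) y 0 (by
    rintro ⟨Ω, _, iΩ, Y, hY, hY0, hYB, hYl, hYy⟩
    apply hno
    let iL : Algebra L Ω := ((algebraMap Λ Ω).comp (algebraMap L Λ)).toAlgebra
    refine ⟨Ω, inferInstance, iL, iΩ, IsScalarTower.of_algebraMap_eq' rfl, Y, ?_, ?_, hYB, hYl,
      hYy⟩
    · intro j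
      rw [← hY j, aeval_def, aeval_def, eval₂_map]
      rfl
    · rw [Polynomial.eq_C_of_natDegree_eq_zero hY0, hYy 0, hc.y0, map_one, map_one])
  -- E6c, E4
  obtain ⟨CL, E, hyE, hFC, hE⟩ := hel6c L Λ M κ r d n m₀ e₀ E₀ S y b₀ α hc
  obtain ⟨p, e, hp, k, Λ', i1, i2, i3, i4, i5, s, he, hOk, -, htr, hfd⟩ :=
    he4 L Λ (y b₀) hc.trans hc.fin CL (E ∪ E₁)
  have hOk' : s.Ok (p ^ e) CL E :=
    ⟨hOk.hC, fun u hu => hOk.hE u (Finset.mem_union_left _ hu), hOk.frob⟩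
  obtain ⟨S', hS', hcQ⟩ := hE k Λ' s (p ^ e) hOk' htr hfd
  -- the curve
  obtain ⟨x, hx⟩ := hff1 k Λ' (s.v (y b₀)) htr hfd
  obtain ⟨C, hC⟩ := hff5 k Λ' x hx
  obtain ⟨hinf, hpole⟩ := hff7 k Λ' C hC x hx
  obtain ⟨ℓ, μ, a', hPt, hlog, ha', hsum, hlt⟩ := hel7c k Λ' C (p ^ e) M κ r d n m₀ e₀ E₀ B S'
    (fun l => s.v (y l)) b₀ (s.v α) hcQ hB (hpole _ htr)
    (fun w => max 0 (-(C.ord w (s.v (y b₀))))) (fun _ => rfl)
  obtain ⟨P, hP⟩ : ∃ P : C.pt → ℤ, P = fun w => max 0 (-(C.ord w (s.v (y b₀)))) := ⟨_, rfl⟩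
  rw [← hP] at hPt hsum hlt
  have hlog' : ∀ w, 0 < P w → ∃ (T : LogPolyL S'.F b₀) (μ' : Fin T.s → ℕ),
      (∀ i, FixedBy (p ^ e) (T.a i)) ∧ FixedBy (p ^ e) T.χ ∧ ∑ i, (μ' i : ℤ) ≤ μ w ∧
      aeval (fun l => s.v (y l)) T.χ ≠ 0 ∧
      C.ord w (aeval (fun l => s.v (y l)) T.χ) = - (T.e₁ * P w) ∧
      (∀ i, ∀ j < (μ' i : ℤ) - T.e i * P w,
        C.cf w j (aeval (fun l => s.v (y l)) (T.a i)) = 0) ∧
      P w ≤ ∑ i, (T.lam i : ℤ) * μ' i := by
    intro w hw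
    rw [hP] at hw ⊢
    exact hlog w hw
  obtain ⟨γ, hγ⟩ := hff10 k Λ' C hC x hx
  -- the set of good points
  obtain ⟨U, hU⟩ : ∃ U : Set C.pt, U = {w | P w = 0 ∧ ∀ u ∈ E ∪ E₁, 0 ≤ C.ord w (s.v u)} :=
    ⟨_, rfl⟩
  have hUinf : U.Infinite := by
    have hfin : Uᶜ.Finite := by
      have h10 : ({w | P w ≠ 0} ∪ ⋃ u ∈ (E ∪ E₁ : Finset Λ),
          {w | C.ord w (s.v u) ≠ 0}).Finite := by
        refine hPt.Pfin.union (Set.Finite.biUnion (Finset.finite_toSet _) fun u _ => ?_)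
        by_cases hu : s.v u = 0
        · have h11 : {w | C.ord w (s.v u) ≠ 0} = ∅ := by
            ext w
            simp [hu, Curve.ord]
          rw [h11]
          exact Set.finite_empty
        · exact C.finite _ hu
      refine h10.subset fun w hw => ?_
      rw [hU, Set.mem_compl_iff, Set.mem_ofPred_eq] at hw
      by_cases hw0 : P w = 0
      · right
        by_contra h11
        apply hw
        refine ⟨hw0, fun u hu => ?_⟩
        by_contra h12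
        apply h11
        rw [Set.mem_iUnion₂]
        exact ⟨u, hu, fun h13 => h12 h13.ge⟩
      · left
        exact hw0
    intro hUf
    exact Set.infinite_univ (α := C.pt) (by
      rw [← Set.union_compl_self U]
      exact hUf.union hfin)
  obtain ⟨m, w, hwU, k', i6, i7, Yp, hYp, hYp0, hYpB, hYpl, hYpy⟩ := hfg16l k Λ' p e C M κ r d n S'
    (fun l => s.v (y l)) P ℓ μ b₀ hc.dimM he hcQ.F_fix hcQ.g_fix hPt hlog' a' γ B ha' hsum hlt
    (by
      intro m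
      have h10 := hγ ((m : ℤ) • P) (hPt.Pfin.subset fun w hw h0 => hw (by
        change (m : ℤ) • P w = 0
        rw [h0, smul_zero]))
      have h11 : ∑ᶠ w, ((m : ℤ) • P) w = (m : ℤ) * ∑ᶠ w, P w := by
        rw [mul_finsum]
        rfl
      rwa [h11] at h10)
    U hUinf (fun w hw => by rw [hU] at hw; exact hw.1)
  rw [hU] at hwU
  obtain ⟨-, hwU⟩ := hwU
  -- the homomorphism
  let ε : rr s C w →+* k' :=
    (algebraMap k k').comp ((iterateFrobenius k p (e * m)).comp ((vh C w).comp (rh s C w)))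
  have hε : ∀ u : rr s C w, ε u = algebraMap k k' ((C.exp w (s.v u)).coeff 0 ^ (p ^ e) ^ m) := by
    intro u
    rw [← pow_mul]
    rfl
  have hmem : ∀ u ∈ E ∪ E₁, u ∈ rr s C w := fun u hu =>
    ⟨(hOk.hE u hu).1, mem_vr_of_ord C w (hwU u hu)⟩
  have hA : ∀ j m', coeff m' (S.F j) ∈ s.A := by
    intro j m'
    by_cases h : m' ∈ (S.F j).support
    · exact (hOk.hC _ (hFC j m' h)).1
    · rw [notMem_support_iff.1 h]
      exact s.A.zero_mem
  have hfinal := hE₁ (rr s C w) (fun u hu => hmem u (Finset.mem_union_right _ hu)) k' ε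
    (fun j => map (algebraMap k k') (S'.F j)) (by
      intro j m'
      have h10 : algebraMap L Λ (coeff m' (S.F j)) ∈ rr s C w := by
        refine ⟨s.incl ⟨_, hA j m'⟩, ?_⟩
        rw [v_alg s (hA j m')]
        exact alg_mem_vr C w _
      have h11 : coeff m' (map (algebraMap L Λ) (S.F j)) = algebraMap L Λ (coeff m' (S.F j)) :=
        coeff_map _ _ _
      refine ⟨by rw [h11]; exact h10, ?_⟩
      rw [hε]
      simp only [h11]
      rw [v_alg s (hA j m'), cf_alg, coeff_map, hS' j, coeff_red, pow_fix (hOk.frob _ (hA j m'))])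
    Yp (by
      intro j
      rw [← hYp j, aeval_def, aeval_def, eval₂_map]
      rfl)
    (by rw [hYp0, Polynomial.natDegree_one]) hYpB (by
      intro l
      refine ⟨hmem _ (Finset.mem_union_left _ (hyE l)), ?_⟩
      rw [hε, hYpy l]
      rfl)
  obtain ⟨l, hl⟩ := hYpl
  rw [hfinal l] at hl
  exact lt_irrefl _ hl

end Pool.Agent.Lib.MP_410da7_agA
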