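import Pool.Agent.Lib.MP_410da7_agA.L.SpecEL
import Pool.Agent.Lib.MP_410da7_agA.E6Aux

/-!
# MP_410da7_ag, smooth affine varieties (C46), version 2, statement EL6b: transport of `LogPolyL` and
`InfDataL`
-/

set_option autoImplicit false

namespace Pool.Agent.Lib.MP_410da7_agA

open MvPolynomial Module

namespace eL6bAux

open e6Aux

variable {L Λ k Λ' : Type} [Field L] [Field Λ] [Algebra L Λ] [Field k] [Field Λ'] [Algebra k Λ']
  {s : Spz L Λ k Λ'}

theorem in_prod (h5 : E5Stmt) {V ι : Type} (t : Finset ι) (f : ι → MvPolynomial V L)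
    (h : ∀ i ∈ t, s.In (f i)) :
    s.In (∏ i ∈ t, f i) ∧ s.red (∏ i ∈ t, f i) = ∏ i ∈ t, s.red (f i) := by
  classical
  obtain ⟨-, -, hone, -⟩ := h5 L Λ k Λ' s V
  induction t using Finset.induction_on with
  | empty =>
    rw [Finset.prod_empty, Finset.prod_empty]
    exact hone
  | insert i t hi ih =>
    obtain ⟨h1, h2⟩ := ih fun j hj => h j (Finset.mem_insert_of_mem hj)
    obtain ⟨h3, h4⟩ := in_mul h5 (h i (Finset.mem_insert_self i t)) h1
    rw [Finset.prod_insert hi, Finset.prod_insert hi, h4, h2]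
    exact ⟨h3, rfl⟩

theorem un_prod {ι : Type} (t : Finset ι) (f : ι → Λ) (h : ∀ i ∈ t, Un s (f i)) :
    Un s (∏ i ∈ t, f i) ∧ s.v (∏ i ∈ t, f i) = ∏ i ∈ t, s.v (f i) := by
  classical
  induction t using Finset.induction_on with
  | empty =>
    rw [Finset.prod_empty, Finset.prod_empty]
    exact ⟨⟨one_ne_zero, s.O.one_mem, by rw [inv_one]; exact s.O.one_mem⟩, v_one⟩
  | insert i t hi ih =>
    obtain ⟨h1, h2⟩ := ih fun j hj => h j (Finset.mem_insert_of_mem hj)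
    have h3 := h i (Finset.mem_insert_self i t)
    rw [Finset.prod_insert hi, Finset.prod_insert hi, v_mul h3.mem h1.mem, h2]
    exact ⟨h3.mul h1, rfl⟩

/-- the transported relation -/
theorem rel (h5 : E5Stmt) {M κ : ℕ} {F : Fin κ → MvPolynomial (Fin (M + 1)) L}
    {b₀ : Fin (M + 1)} (T : LogPolyL F b₀) (w : Fin κ → MvPolynomial (Fin (M + 1)) L)
    (hw : ∑ j, w j * F j = X 0 * T.χ ^ T.N * X b₀ ^ T.E - (∏ i, T.a i ^ T.lam i) * T.q)
    (ha : ∀ i, s.In (T.a i)) (hχ : s.In T.χ) (hq : s.In T.q) (hwI : ∀ j, s.In (w j))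
    (hF : ∀ j, s.In (F j)) :
    ∑ j, s.red (w j) * s.red (F j) =
      X 0 * s.red T.χ ^ T.N * X b₀ ^ T.E - (∏ i, s.red (T.a i) ^ T.lam i) * s.red T.q := by
  have h1 : X 0 * T.χ ^ T.N * X b₀ ^ T.E = ∑ j, w j * F j + (∏ i, T.a i ^ T.lam i) * T.q := by
    rw [hw]
    ring
  have hX0 := in_X (s := s) h5 (0 : Fin (M + 1))
  have hXb := in_pow (s := s) h5 (in_X h5 b₀).1 T.E
  have hχN := in_pow h5 hχ T.N
  have hL1 := in_mul h5 hX0.1 hχN.1
  have hL2 := in_mul h5 hL1.1 hXb.1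
  have hS := in_sum (s := s) h5 Finset.univ (fun j => w j * F j)
    (fun j _ => (in_mul h5 (hwI j) (hF j)).1)
  have haN := in_prod (s := s) h5 Finset.univ (fun i => T.a i ^ T.lam i)
    (fun i _ => (in_pow h5 (ha i) (T.lam i)).1)
  have haN2 : ∏ i, s.red (T.a i ^ T.lam i) = ∏ i, s.red (T.a i) ^ T.lam i :=
    Finset.prod_congr rfl fun i _ => (in_pow h5 (ha i) (T.lam i)).2
  have hR1 := in_mul h5 haN.1 hq
  have hR2 := in_add h5 hS.1 hR1.1
  have h2 : s.red (X 0 * T.χ ^ T.N * X b₀ ^ T.E) =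
      s.red (∑ j, w j * F j + (∏ i, T.a i ^ T.lam i) * T.q) := by rw [h1]
  rw [hL2.2, hL1.2, hX0.2, hχN.2, hXb.2, (in_X h5 b₀).2, hR2.2, hS.2, hR1.2, haN.2, haN2] at h2
  rw [h2, add_sub_cancel_right]
  exact Finset.sum_congr rfl fun j _ => ((in_mul h5 (hwI j) (hF j)).2).symm

end eL6bAux

open e6Aux eL6bAux in
/-- EL6b. Transport of `LogPolyL` and `InfDataL`. -/
theorem eL6b (h1 : E5Stmt) (h2 : E6aStmt) : EL6bStmt := by
  classical
  intro L Λ _ _ _ M κ r d n m₀ e₀ E₀ S y b₀ α ε T J x hz hα hI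
  obtain ⟨w, hw⟩ := Ideal.mem_span_range_iff_exists_fun.1 T.rel
  obtain ⟨C1, E1, g1⟩ := (h2 L Λ (y b₀) _ hz).2 hI.ε_reg
  obtain ⟨C2, E2, g2⟩ := (h2 L Λ (y b₀) _ hz).2 hI.χ_reg
  obtain ⟨C3, E3, g3⟩ := (h2 L Λ (y b₀) _ hz).2 hI.τ_reg
  obtain ⟨C4, E4, g4⟩ := (h2 L Λ (y b₀) _ hz).2 hI.ζ_reg
  obtain ⟨C5, E5, g5⟩ := (h2 L Λ (y b₀) _ hz).2 hI.x_reg
  obtain ⟨CL, hCL⟩ : ∃ CL : Finset L, CL = Finset.univ.biUnion (fun i => cf (T.a i)) ∪
    (cf T.χ ∪ (cf T.q ∪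
    (Finset.univ.biUnion (fun j => cf (w j)) ∪ (Finset.univ.biUnion (fun j => cf (S.F j)) ∪
    (C1 ∪ (C2 ∪ (C3 ∪ (C4 ∪ C5)))))))) := ⟨_, rfl⟩
  obtain ⟨E, hE⟩ : ∃ E : Finset Λ, E = Finset.univ.image y ∪ ({α, ε, x, aeval y T.χ,
    minor S.F S.I₀ y J} ∪ (Finset.univ.image (fun i => aeval y (T.a i)) ∪
    (E1 ∪ (E2 ∪ (E3 ∪ (E4 ∪ E5)))))) := ⟨_, rfl⟩
  refine ⟨CL, E, ?_⟩
  intro k Λ' _ _ _ s Q hok S' hSF hSI
  -- membership
  have cmem : ∀ G : MvPolynomial (Fin (M + 1)) L, cf G ⊆ CL → s.In G := fun G hG =>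
    in_of fun a ha => (hok.hC a (hG ha)).1
  have hTa : ∀ i, s.In (T.a i) := fun i => cmem _ fun a ha => by
    have : a ∈ Finset.univ.biUnion (fun i => cf (T.a i)) :=
      Finset.mem_biUnion.2 ⟨i, Finset.mem_univ i, ha⟩
    rw [hCL]
    simp only [Finset.mem_union]
    tauto
  have hTχ : s.In T.χ := cmem _ fun a ha => by
    rw [hCL]
    simp only [Finset.mem_union]
    tauto
  have hTq : s.In T.q := cmem _ fun a ha => by
    rw [hCL]
    simp only [Finset.mem_union]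
    tauto
  have hwI : ∀ j, s.In (w j) := fun j => cmem _ fun a ha => by
    have : a ∈ Finset.univ.biUnion (fun j => cf (w j)) :=
      Finset.mem_biUnion.2 ⟨j, Finset.mem_univ j, ha⟩
    rw [hCL]
    simp only [Finset.mem_union]
    tauto
  have hF : ∀ j, s.In (S.F j) := fun j => cmem _ fun a ha => by
    have : a ∈ Finset.univ.biUnion (fun j => cf (S.F j)) :=
      Finset.mem_biUnion.2 ⟨j, Finset.mem_univ j, ha⟩
    rw [hCL]
    simp only [Finset.mem_union]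
    tauto
  have hC1 : C1 ⊆ CL := fun a ha => by
    rw [hCL]
    simp only [Finset.mem_union]
    tauto
  have hC2 : C2 ⊆ CL := fun a ha => by
    rw [hCL]
    simp only [Finset.mem_union]
    tauto
  have hC3 : C3 ⊆ CL := fun a ha => by
    rw [hCL]
    simp only [Finset.mem_union]
    tauto
  have hC4 : C4 ⊆ CL := fun a ha => by
    rw [hCL]
    simp only [Finset.mem_union]
    tauto
  have hC5 : C5 ⊆ CL := fun a ha => by
    rw [hCL]
    simp only [Finset.mem_union]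
    tauto
  have hE1 : E1 ⊆ E := fun a ha => by
    rw [hE]
    simp only [Finset.mem_union]
    tauto
  have hE2 : E2 ⊆ E := fun a ha => by
    rw [hE]
    simp only [Finset.mem_union]
    tauto
  have hE3 : E3 ⊆ E := fun a ha => by
    rw [hE]
    simp only [Finset.mem_union]
    tauto
  have hE4 : E4 ⊆ E := fun a ha => by
    rw [hE]
    simp only [Finset.mem_union]
    tauto
  have hE5 : E5 ⊆ E := fun a ha => by
    rw [hE]
    simp only [Finset.mem_union]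
    tauto
  have hyE : ∀ l, y l ∈ E := fun l => by
    rw [hE]
    exact Finset.mem_union_left _ (Finset.mem_image_of_mem _ (Finset.mem_univ l))
  have hsE : ∀ u ∈ ({α, ε, x, aeval y T.χ, minor S.F S.I₀ y J} : Finset Λ), u ∈ E := fun u hu => by
    rw [hE]
    exact Finset.mem_union_right _ (Finset.mem_union_left _ hu)
  have hαE : α ∈ E := hsE α (Finset.mem_insert_self _ _)
  have hεE : ε ∈ E := hsE ε (Finset.mem_insert_of_mem (Finset.mem_insert_self _ _))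
  have hxE : x ∈ E := hsE x (Finset.mem_insert_of_mem (Finset.mem_insert_of_mem
    (Finset.mem_insert_self _ _)))
  have hχE : aeval y T.χ ∈ E := hsE _ (Finset.mem_insert_of_mem (Finset.mem_insert_of_mem
    (Finset.mem_insert_of_mem (Finset.mem_insert_self _ _))))
  have hJE : minor S.F S.I₀ y J ∈ E := hsE _ (Finset.mem_insert_of_mem (Finset.mem_insert_of_mem
    (Finset.mem_insert_of_mem (Finset.mem_insert_of_mem (Finset.mem_singleton_self _)))))
  have haE : ∀ i, aeval y (T.a i) ∈ E := fun i => by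
    rw [hE]
    exact Finset.mem_union_right _ (Finset.mem_union_right _ (Finset.mem_union_left _
      (Finset.mem_image.2 ⟨i, Finset.mem_univ i, rfl⟩)))
  have hy : ∀ l, y l ∈ s.O := fun l => (hok.hE _ (hyE l)).1
  have uz : Un s (y b₀) := un_of hok (hyE b₀) hz
  have uα : Un s α := un_of hok hαE hα
  have ux : Un s x := un_of hok hxE hI.x0
  have uχ : Un s (aeval y T.χ) := un_of hok hχE hI.χ0
  have ua : ∀ i, Un s (aeval y (T.a i)) := fun i => un_of hok (haE i) (hI.a0 i)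
  have uJ : Un s (minor S.F S.I₀ y J) := un_of hok hJE hI.J0
  have hε : ε ∈ s.O := (hok.hE _ hεE).1
  -- values
  have vχ := (v_aeval h1 hTχ hy).2
  have va := fun i => (v_aeval h1 (hTa i) hy).2
  have hSF' : S'.F = fun j => s.red (S.F j) := funext hSF
  have vJ : s.v (minor S.F S.I₀ y J) = minor S'.F S'.I₀ (fun l => s.v (y l)) J := by
    rw [(v_minor h1 S.I₀ J hF hy).2, hSF', hSI]
  -- the new data
  have hrel : X 0 * s.red T.χ ^ T.N * X b₀ ^ T.E - (∏ i, s.red (T.a i) ^ T.lam i) * s.red T.q ∈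
      Ideal.span (Set.range S'.F) := by
    refine Ideal.mem_span_range_iff_exists_fun.2 ⟨fun j => s.red (w j), ?_⟩
    rw [← rel h1 T w hw hTa hTχ hTq hwI hF, hSF']
  refine ⟨⟨T.s, fun i => s.red (T.a i), s.red T.χ, s.red T.q, T.e, T.lam, T.e₁, T.e₂, T.N, T.E,
    fun i => e6Aux.hom h1 (T.ha i), e6Aux.hom h1 T.hχ, e6Aux.hom h1 T.hq, T.deg, hrel⟩,
    fun i => fixed h1 hok (hTa i), fixed h1 hok hTχ, ?_⟩
  refine ⟨ux.vne, ?_, ?_, ?_, ?_, ?_, ?_, ?_, ?_⟩
  · show aeval _ (s.red T.χ) ≠ 0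
    rw [← vχ]
    exact uχ.vne
  · intro i
    show aeval _ (s.red (T.a i)) ≠ 0
    rw [← va i]
    exact (ua i).vne
  · rw [← vJ]
    exact uJ.vne
  · exact g1 k Λ' s Q (ok_mono hok hC1 hE1)
  · have h3 := g2 k Λ' s Q (ok_mono hok hC2 hE2)
    have u1 : Un s (aeval y T.χ / y b₀ ^ T.e₁) := uχ.div (uz.pow _)
    rw [v_div hε u1, v_div uχ.mem (uz.pow _), v_pow uz.mem, vχ] at h3
    exact h3
  · have h3 := g3 k Λ' s Q (ok_mono hok hC3 hE3)
    have u1 := un_prod (s := s) Finset.univ (fun i => aeval y (T.a i) / y b₀ ^ T.e i)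
      (fun i _ => (ua i).div (uz.pow _))
    have u2 := uz.zpow (((n : ℤ) + 1 - r * ((d : ℤ) - 1)) * m₀)
    have u3 : Un s (α * minor S.F S.I₀ y J ^ m₀) := uα.mul (uJ.pow _)
    have u4 := u3.mul u2.1
    have u5 := u4.mul (u1.1.pow m₀)
    have u6 : Un s (tauL S n m₀ e₀ y b₀ α T J x) := u5.div (ux.pow e₀)
    have u7 : ∏ i, s.v (aeval y (T.a i) / y b₀ ^ T.e i) =
        ∏ i, aeval (fun l => s.v (y l)) (s.red (T.a i)) / s.v (y b₀) ^ T.e i :=
      Finset.prod_congr rfl fun i _ => by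
        rw [v_div (ua i).mem (uz.pow (T.e i)), v_pow uz.mem, va i]
    have h4 : s.v (tauL S n m₀ e₀ y b₀ α T J x) = s.v α * s.v (minor S.F S.I₀ y J) ^ m₀ *
        s.v (y b₀) ^ (((n : ℤ) + 1 - r * ((d : ℤ) - 1)) * m₀) *
        (∏ i, aeval (fun l => s.v (y l)) (s.red (T.a i)) / s.v (y b₀) ^ T.e i) ^ m₀ /
          s.v x ^ e₀ := by
      unfold tauL
      rw [v_div u5.mem (ux.pow e₀), v_mul u4.mem (u1.1.pow m₀).mem, v_mul u3.mem u2.1.mem,
        v_mul uα.mem (uJ.pow m₀).mem, v_pow uJ.mem, u2.2, v_pow u1.1.mem, u1.2, u7,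
        v_pow ux.mem]
    rw [v_div hε u6, h4, vJ] at h3
    exact h3
  · have h3 := g4 k Λ' s Q (ok_mono hok hC4 hE4)
    have u1 := un_prod (s := s) Finset.univ (fun i => (aeval y (T.a i) / y b₀ ^ T.e i) ^ T.lam i)
      (fun i _ => ((ua i).div (uz.pow _)).pow _)
    have u2 : Un s ((∏ i, (aeval y (T.a i) / y b₀ ^ T.e i) ^ T.lam i) * y b₀) := u1.1.mul uz
    have u7 : ∏ i, s.v ((aeval y (T.a i) / y b₀ ^ T.e i) ^ T.lam i) =
        ∏ i, (aeval (fun l => s.v (y l)) (s.red (T.a i)) / s.v (y b₀) ^ T.e i) ^ T.lam i :=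
      Finset.prod_congr rfl fun i _ => by
        rw [v_pow ((ua i).div (uz.pow _)).mem, v_div (ua i).mem (uz.pow (T.e i)), v_pow uz.mem,
          va i]
    rw [v_mul hε u2.mem, v_mul u1.1.mem uz.mem, u1.2, u7] at h3
    exact h3
  · have h3 := g5 k Λ' s Q (ok_mono hok hC5 hE5)
    have u1 : Un s (y b₀ / x ^ E₀) := uz.div (ux.pow _)
    rw [v_mul hε u1.mem, v_div uz.mem (ux.pow _), v_pow ux.mem] at h3
    exact h3

end Pool.Agent.Lib.MP_410da7_agA
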