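import Pool.Agent.Lib.MP_410da7_agA.L.SpecEL
import Pool.Agent.Lib.MP_410da7_agA.E7b

/-!
# MP_410da7_ag, C46, version 2, EL7b: the local inequalities at a point
-/

set_option autoImplicit false

namespace Pool.Agent.Lib.MP_410da7_agA

open MvPolynomial Module

open e7bAux

theorem eL7b (h1 : E7aStmt) : EL7bStmt := by
  intro k Λ _ _ _ C Q M κ r d n m₀ e₀ E₀ S y b₀ α hc w P hP
  have hz : y b₀ ≠ 0 := by
    intro h
    have := hc.cert.trans
    rw [h] at this
    exact this isAlgebraic_zero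
  have hα := hc.cert.α0
  rcases lt_or_ge (C.ord w (y b₀)) 0 with hlt | hge
  · -- a pole
    have hP' : P = -(C.ord w (y b₀)) := by rw [hP]; exact max_eq_right (by omega)
    have hPpos : 0 < P := by omega
    have hy : ∀ l, y l ≠ 0 → -P ≤ C.ord w (y l) := by
      intro l hl
      have h2 := (h1 k Λ C (y b₀) (y l / y b₀) w).2 (hc.cert.y_inf l) hlt
      rw [ord_div C w hl hz] at h2
      omega
    refine ⟨fun l i hi => cf_lt C w fun hl => lt_of_lt_of_le hi (hy l hl), ?_⟩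
    obtain ⟨t, ε, hε, hT⟩ := hc.inf
    obtain ⟨j, hj0, hj⟩ := exists_unit C w ε hε
    obtain ⟨T, J, x, hTa, hTχ, hI⟩ := hT j
    have hx0 := hI.x0
    have hχ0 := hI.χ0
    have ha0 := hI.a0
    have hJ0 := hI.J0
    have hε0 : C.ord w (ε j) = 0 :=
      le_antisymm hj ((h1 k Λ C (y b₀) (ε j) w).2 hI.ε_reg hlt)
    have g1 := (h1 k Λ C (y b₀) _ w).2 hI.χ_reg hlt
    have g2 := (h1 k Λ C (y b₀) _ w).2 hI.τ_reg hlt
    have g3 := (h1 k Λ C (y b₀) _ w).2 hI.ζ_reg hlt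
    have g4 := (h1 k Λ C (y b₀) _ w).2 hI.x_reg hlt
    have hza : ∀ i, aeval y (T.a i) / y b₀ ^ T.e i ≠ 0 := fun i =>
      div_ne_zero (ha0 i) (pow_ne_zero _ hz)
    have oza : ∀ i, C.ord w (aeval y (T.a i) / y b₀ ^ T.e i) =
        C.ord w (aeval y (T.a i)) + T.e i * P := fun i => by
      rw [ord_div C w (ha0 i) (pow_ne_zero _ hz), ord_pow, hP']
      ring
    have hzp : ∏ i, aeval y (T.a i) / y b₀ ^ T.e i ≠ 0 :=
      Finset.prod_ne_zero_iff.2 fun i _ => hza i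
    have ozp : C.ord w (∏ i, aeval y (T.a i) / y b₀ ^ T.e i) =
        ∑ i, (C.ord w (aeval y (T.a i)) + T.e i * P) := by
      rw [ord_prod C w _ _ fun i _ => hza i]
      exact Finset.sum_congr rfl fun i _ => oza i
    have hzl : ∏ i, (aeval y (T.a i) / y b₀ ^ T.e i) ^ T.lam i ≠ 0 :=
      Finset.prod_ne_zero_iff.2 fun i _ => pow_ne_zero _ (hza i)
    have ozl : C.ord w (∏ i, (aeval y (T.a i) / y b₀ ^ T.e i) ^ T.lam i) =
        ∑ i, (T.lam i : ℤ) * (C.ord w (aeval y (T.a i)) + T.e i * P) := by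
      rw [ord_prod C w _ _ fun i _ => pow_ne_zero _ (hza i)]
      exact Finset.sum_congr rfl fun i _ => by rw [ord_pow, oza]
    rw [ord_div C w hj0 (div_ne_zero hχ0 (pow_ne_zero _ hz)),
      ord_div C w hχ0 (pow_ne_zero _ hz), ord_pow, hε0] at g1
    rw [ord_mul C w hj0 (mul_ne_zero hzl hz), ord_mul C w hzl hz, ozl, hε0] at g3
    rw [ord_mul C w hj0 (div_ne_zero hz (pow_ne_zero _ hx0)), ord_div C w hz (pow_ne_zero _ hx0),
      ord_pow, hε0] at g4
    have n1 : α * minor S.F S.I₀ y J ^ m₀ ≠ 0 := mul_ne_zero hα (pow_ne_zero _ hJ0)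
    have n2 : α * minor S.F S.I₀ y J ^ m₀ *
        y b₀ ^ (((n : ℤ) + 1 - r * ((d : ℤ) - 1)) * m₀) ≠ 0 := mul_ne_zero n1 (zpow_ne_zero _ hz)
    have n3 : α * minor S.F S.I₀ y J ^ m₀ *
        y b₀ ^ (((n : ℤ) + 1 - r * ((d : ℤ) - 1)) * m₀) *
        (∏ i, aeval y (T.a i) / y b₀ ^ T.e i) ^ m₀ ≠ 0 := mul_ne_zero n2 (pow_ne_zero _ hzp)
    have n4 : tauL S n m₀ e₀ y b₀ α T J x ≠ 0 := div_ne_zero n3 (pow_ne_zero _ hx0)
    have otau : C.ord w (tauL S n m₀ e₀ y b₀ α T J x) =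
        C.ord w α + m₀ * C.ord w (minor S.F S.I₀ y J) +
        (((n : ℤ) + 1 - r * ((d : ℤ) - 1)) * m₀) * C.ord w (y b₀) +
        m₀ * ∑ i, (C.ord w (aeval y (T.a i)) + T.e i * P) - e₀ * C.ord w x := by
      unfold tauL
      rw [ord_div C w n3 (pow_ne_zero _ hx0), ord_mul C w n2 (pow_ne_zero _ hzp),
        ord_mul C w n1 (zpow_ne_zero _ hz), ord_mul C w hα (pow_ne_zero _ hJ0), ord_pow,
        ord_zpow C w hz, ord_pow, ord_pow, ozp]
    rw [ord_div C w hj0 n4, otau, hε0] at g2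
    have hχge := hom_ge C w P y hy T.χ T.hχ hχ0
    have hage : ∀ i, 0 ≤ C.ord w (aeval y (T.a i)) + T.e i * P := fun i => by
      have := hom_ge C w P y hy (T.a i) (T.ha i) (ha0 i)
      linarith
    have hnat : ∀ i, (((C.ord w (aeval y (T.a i)) + T.e i * P).toNat : ℕ) : ℤ) =
        C.ord w (aeval y (T.a i)) + T.e i * P := fun i => Int.toNat_of_nonneg (hage i)
    refine ⟨J, ∑ i, (C.ord w (aeval y (T.a i)) + T.e i * P), -(C.ord w x), hJ0,
      Finset.sum_nonneg fun i _ => hage i, ?_, ?_, ?_, ?_⟩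
    · intro h; omega
    · nlinarith
    · have e1 : C.ord w (y b₀) = -P := by omega
      rw [e1] at g2
      nlinarith
    · intro _
      have e1 : C.ord w (y b₀) = -P := by omega
      rw [e1] at g1 g3
      refine ⟨T, fun i => (C.ord w (aeval y (T.a i)) + T.e i * P).toNat, hTa, hTχ, ?_, hχ0, ?_,
        ?_, ?_⟩
      · exact le_of_eq (Finset.sum_congr rfl fun i _ => hnat i)
      · nlinarith
      · intro i i' hi
        refine cf_lt C w fun _ => ?_
        rw [hnat i] at hi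
        linarith
      · have e2 : ∑ i, (T.lam i : ℤ) * (((C.ord w (aeval y (T.a i)) + T.e i * P).toNat : ℕ) : ℤ) =
            ∑ i, (T.lam i : ℤ) * (C.ord w (aeval y (T.a i)) + T.e i * P) :=
          Finset.sum_congr rfl fun i _ => by rw [hnat i]
        rw [e2]
        linarith
  · -- a finite place
    have hP' : P = 0 := by rw [hP]; exact max_eq_left (by omega)
    refine ⟨fun l i hi => ?_, ?_⟩
    · refine HahnSeries.coeff_eq_zero_of_lt_order (lt_of_lt_of_le hi ?_)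
      rw [hP', neg_zero]
      exact (h1 k Λ C (y b₀) (y l) w).1 (hc.cert.y_fin l) hge
    · obtain ⟨c, hcreg, hcsum⟩ := hc.cert.c_fin
      obtain ⟨J, hJ0, hJ⟩ := exists_unit C w _ hcsum
      have hc0 : c J ≠ 0 := left_ne_zero_of_mul hJ0
      have ham : α * minor S.F S.I₀ y J ^ m₀ ≠ 0 := right_ne_zero_of_mul hJ0
      have hm : minor S.F S.I₀ y J ≠ 0 := by
        intro h
        rw [h, zero_pow (by have := hc.cert.m0; omega), mul_zero] at ham
        exact ham rfl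
      have hcge := (h1 k Λ C (y b₀) (c J) w).1 (hcreg J) hge
      rw [ord_mul C w hc0 ham, ord_mul C w hα (pow_ne_zero _ hm), ord_pow] at hJ
      refine ⟨J, 0, 0, hm, le_rfl, fun _ => ⟨rfl, rfl⟩, by rw [hP']; simp, ?_, fun h => by omega⟩
      rw [hP']
      simp only [mul_zero, add_zero, sub_zero]
      linarith

end Pool.Agent.Lib.MP_410da7_agA
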