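import Pool.Agent.Lib.MP_410da7_agA.L.Defs
import Pool.Agent.Lib.MP_410da7_agA.F13

/-!
# MP_410da7_ag, smooth affine varieties, version 2: F13L

The coordinate `x_0` stays equal to `1` (several boundary components).
-/

set_option autoImplicit false

namespace Pool.Agent.Lib.MP_410da7_agA

open MvPolynomial Module

namespace f13LAux

open EvW f13Aux

variable {k Λ : Type} [Field k] [Field Λ] [Algebra k Λ] {Ω : Type} [Field Ω] [Algebra k Ω]

lemma order_prod {ι : Type} (t : Finset ι) (y : ι → LaurentSeries Ω) (c : ι → ℤ)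
    (h0 : ∀ i ∈ t, y i ≠ 0) (hc : ∀ i ∈ t, c i ≤ (y i).order) :
    ∏ i ∈ t, y i ≠ 0 ∧ ∑ i ∈ t, c i ≤ (∏ i ∈ t, y i).order := by
  classical
  induction t using Finset.induction_on with
  | empty => simp
  | insert a t ha ih =>
    obtain ⟨h1, h2⟩ := ih (fun i hi => h0 i (Finset.mem_insert_of_mem hi))
      (fun i hi => hc i (Finset.mem_insert_of_mem hi))
    have h3 := h0 a (Finset.mem_insert_self a t)
    have h4 := hc a (Finset.mem_insert_self a t)
    rw [Finset.prod_insert ha, Finset.sum_insert ha]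
    refine ⟨mul_ne_zero h3 h1, ?_⟩
    rw [HahnSeries.order_mul h3 h1]
    exact add_le_add h4 h2

/-- The relation at a pole: `ev (x_0(h))` has no pole. -/
lemma regular (hf10 : F10Stmt) (C : Curve k Λ) {M κ r d D : ℕ} {S : System k M κ r d}
    {Y : Fin (M + 1) → Λ} {P ℓ μ : C.pt → ℤ} {b₀ : Fin (M + 1)} (hD : PtDataL C S Y P ℓ μ b₀)
    {ω : Fin D → Λ} (hω : ∀ j, ω j ∈ C.L P) {𝔓 : Ideal (MvPolynomial (Fin (M + 1) × Fin D) k)}
    (h𝔓 : 𝔓 ≤ mx (Fin (M + 1) × Fin D) k) (hF : ∀ j, hval Y ω (S.F j) ∈ ext Λ 𝔓)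
    (s : Fin (M + 1) × Fin D → Ω) (hs : ∀ q, aeval s q = 0 ↔ q ∈ 𝔓) (w : C.pt) (hw : 0 < P w)
    (T : LogPolyL S.F b₀) (μ' : Fin T.s → ℕ) (hχ : aeval Y T.χ ≠ 0)
    (hχord : C.ord w (aeval Y T.χ) = - (T.e₁ * P w)) (hPT : P w ≤ ∑ i, (T.lam i : ℤ) * μ' i)
    (hT : ∀ i, ∀ j < (μ' i : ℤ) - T.e i * P w, push (C.cf w j) (hval Y ω (T.a i)) ∈ 𝔓)
    (i : ℤ) (hi : i < 0) :
    (ev C w s (hval Y ω (X 0 : MvPolynomial (Fin (M + 1)) k))).coeff i = 0 := by
  have hs' : ∀ q : MvPolynomial (Fin (M + 1) × Fin D) k, aeval s q = 0 →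
      q ∈ mx (Fin (M + 1) × Fin D) k := fun q hq => h𝔓 ((hs q).1 hq)
  let Φ : MvPolynomial (Fin (M + 1)) k →+* LaurentSeries Ω :=
    (ev C w s).comp (aeval (hpt Y ω) : MvPolynomial (Fin (M + 1)) k →ₐ[k] _).toRingHom
  have hΦ : ∀ G, Φ G = ev C w s (hval Y ω G) := fun G => rfl
  have hker : Ideal.span (Set.range S.F) ≤ RingHom.ker Φ := by
    rw [Ideal.span_le]
    rintro _ ⟨j, rfl⟩
    rw [SetLike.mem_coe, RingHom.mem_ker, hΦ]
    exact ev_ext C w s (fun q hq => (hs q).2 hq) (hF j)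
  have hrel := hker T.rel
  rw [RingHom.mem_ker, map_sub, map_mul, map_mul, map_mul, map_pow, map_pow, map_prod,
    sub_eq_zero] at hrel
  obtain ⟨c0, cord⟩ := order_ev hf10 C w P hD.YP hω T.hχ s hs' hχ hχord
  obtain ⟨b0, bord⟩ := order_ev hf10 C w P hD.YP hω (isHomogeneous_X k b₀) s hs'
    (by rw [aeval_X]; exact (hD.Yb w hw).1)
    (by rw [aeval_X, (hD.Yb w hw).2, Nat.cast_one, one_mul])
  rw [← hΦ] at c0 cord b0 bord ⊢
  by_cases hx : Φ (X 0) = 0
  · rw [hx, HahnSeries.coeff_zero]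
  have hL : Φ (X 0) * Φ T.χ ^ T.N * Φ (X b₀) ^ T.E ≠ 0 :=
    mul_ne_zero (mul_ne_zero hx (pow_ne_zero _ c0)) (pow_ne_zero _ b0)
  have hR := hL
  rw [hrel] at hR
  have hq0 := right_ne_zero_of_mul hR
  have hP0 := left_ne_zero_of_mul hR
  have ha0 : ∀ i, Φ (T.a i ^ T.lam i) ≠ 0 := fun i =>
    Finset.prod_ne_zero_iff.1 hP0 i (Finset.mem_univ i)
  have hord := congrArg HahnSeries.order hrel
  rw [HahnSeries.order_mul (mul_ne_zero hx (pow_ne_zero _ c0)) (pow_ne_zero _ b0),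
    HahnSeries.order_mul hx (pow_ne_zero _ c0), HahnSeries.order_mul hP0 hq0,
    HahnSeries.order_pow, HahnSeries.order_pow, cord, bord] at hord
  have hqo : -(T.e₂ * P w) ≤ (Φ T.q).order :=
    le_order hq0 (low_coeff hf10 C w P hD.YP hω T.hq s)
  have hao : ∀ i ∈ Finset.univ, (T.lam i : ℤ) * (μ' i - T.e i * P w) ≤
      (Φ (T.a i ^ T.lam i)).order := by
    intro i _
    rw [map_pow, HahnSeries.order_pow, nsmul_eq_mul]
    rcases Nat.eq_zero_or_pos (T.lam i) with h0 | h0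
    · rw [h0, Nat.cast_zero, zero_mul, zero_mul]
    · have h1 : Φ (T.a i) ≠ 0 := by
        intro h
        apply ha0 i
        rw [map_pow, h, zero_pow h0.ne']
      refine mul_le_mul_of_nonneg_left (le_order h1 fun j hj => ?_) (by positivity)
      rw [hΦ, ev_coeff, hs]
      exact hT i j hj
  have hprod := (order_prod Finset.univ (fun i => Φ (T.a i ^ T.lam i))
    (fun i => (T.lam i : ℤ) * (μ' i - T.e i * P w)) (fun i _ => ha0 i) hao).2
  have hdeg : (1 + T.N * T.e₁ + T.E : ℤ) = (∑ i, (T.lam i : ℤ) * T.e i) + T.e₂ := by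
    exact_mod_cast T.deg
  simp only [nsmul_eq_mul, Nat.cast_one] at hord
  have hsum : ∑ i, (T.lam i : ℤ) * (μ' i - T.e i * P w) =
      (∑ i, (T.lam i : ℤ) * μ' i) - (∑ i, (T.lam i : ℤ) * T.e i) * P w := by
    rw [Finset.sum_mul, ← Finset.sum_sub_distrib]
    refine Finset.sum_congr rfl fun i _ => ?_
    ring
  rw [hsum] at hprod
  have hdegP : (1 + T.N * T.e₁ + T.E : ℤ) * P w =
      ((∑ i, (T.lam i : ℤ) * T.e i) + T.e₂) * P w := by rw [hdeg]
  have h0 : 0 ≤ (Φ (X 0)).order := by nlinarith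
  exact HahnSeries.coeff_eq_zero_of_lt_order (lt_of_lt_of_le hi h0)

end f13LAux

open EvW f13Aux f13LAux in
theorem f13L (hf1 : F1Stmt) (hf10 : F10Stmt) : F13LStmt := by
  intro k Λ _ _ _ C M κ r d b D S Y P ℓ μ b₀ hD c hc hb hPc ω hω hωL 𝔓 h𝔓p h𝔓 hF hlog j
  have := h𝔓p
  obtain ⟨Ω, _, _, s, hs⟩ := exists_point 𝔓
  have hωP : ∀ j, ω j ∈ C.L P := fun j => L_sub_le C P c (hωL j)
  -- no poles
  have hA : ∀ (w : C.pt) (i : ℤ), i < 0 → (ev C w s (hpt Y ω 0)).coeff i = 0 := by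
    intro w i hi
    have hX : hpt Y ω 0 = hval Y ω (X 0 : MvPolynomial (Fin (M + 1)) k) := by rw [hval, aeval_X]
    rw [hX]
    rcases (hD.P0 w).lt_or_eq with hw | hw
    · obtain ⟨T, μ', h1, h2, h3, h4⟩ := hlog w hw
      exact f13LAux.regular hf10 C hD hωP h𝔓 hF s hs w hw T μ' h1 h2 h3 h4 i hi
    · refine low_coeff hf10 C w P hD.YP hωP (isHomogeneous_X k 0) s i ?_
      rw [← hw, mul_zero, neg_zero]
      exact hi
  have hB : ∀ (w : C.pt) (i : ℤ), i < 0 →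
      ∑ j, s (0, j) * algebraMap k Ω (C.cf w i (ω j)) = 0 := by
    intro w i hi
    have h := hA w i hi
    rw [ev_hpt_coeff, hD.Y0] at h
    have h1 : C.cf w i 1 = 0 := by
      change (C.exp w 1).coeff i = 0
      rw [map_one, HahnSeries.coeff_one, if_neg (by omega)]
    rwa [h1, map_zero, zero_add] at h
  have hkey : ∀ φ : Dual k Ω, ∀ j, φ (s (0, j)) = 0 := by
    intro φ
    have hcf : ∀ (w : C.pt) (i : ℤ), C.cf w i (∑ j, φ (s (0, j)) • ω j) =
        φ (∑ j, s (0, j) * algebraMap k Ω (C.cf w i (ω j))) := by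
      intro w i
      rw [map_sum, map_sum]
      refine Finset.sum_congr rfl fun j _ => ?_
      rw [map_smul, smul_eq_mul, mul_comm (s (0, j)), ← Algebra.smul_def, map_smul, smul_eq_mul,
        mul_comm]
    obtain ⟨x, hx⟩ := hf1 k Λ C (c ⟨0, hb⟩) (∑ j, φ (s (0, j)) • ω j) (by
      intro w i hi
      change C.cf w i _ = 0
      rw [hcf, hB w i (by simpa using hi), map_zero])
    have hx0 : x = 0 := by
      have h0 : C.cf (c ⟨0, hb⟩) 0 (∑ j, φ (s (0, j)) • ω j) = 0 := by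
        rw [map_sum]
        refine Finset.sum_eq_zero fun j _ => ?_
        rw [map_smul]
        have : C.cf (c ⟨0, hb⟩) 0 (ω j) = 0 := by
          apply hωL j (c ⟨0, hb⟩) 0
          rw [Pi.sub_apply, ptDiv_apply hc, hPc]
          omega
        rw [this, smul_zero]
      rw [← hx] at h0
      have h1 : C.cf (c ⟨0, hb⟩) 0 (algebraMap k Λ x) = x := by
        change (C.exp _ (algebraMap k Λ x)).coeff 0 = x
        rw [C.exp_alg, HahnSeries.C_apply, HahnSeries.coeff_single_same]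
      rw [← h1]
      exact h0
    rw [hx0, map_zero] at hx
    exact fun j => (Fintype.linearIndependent_iff.1 hω) _ hx.symm j
  have hsj : s (0, j) = 0 := (forall_dual_apply_eq_zero_iff k _).1 fun φ => hkey φ j
  rw [← hs, aeval_X]
  exact hsj

end Pool.Agent.Lib.MP_410da7_agA
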