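import Pool.Agent.Lib.MP_410da7_agA.L.Defs
import Pool.Agent.Lib.MP_410da7_agA.F14

/-!
# MP_410da7_ag, smooth affine varieties, version 2: F14L

The family (the end of block F), several boundary components.
-/

set_option autoImplicit false

namespace Pool.Agent.Lib.MP_410da7_agA

open MvPolynomial Module

open EvW f14Aux in
theorem f14L (hf2 : F2Stmt) (hf5 : F5Stmt) (hf6 : F6Stmt) (hf7 : F7Stmt) (hf9 : F9Stmt)
    (hf10 : F10Stmt) (hf11 : F11Stmt) (hf12 : F12Stmt) (hf13l : F13LStmt) : F14LStmt := by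
  classical
  intro k Λ _ _ _ C M κ r d b D n S Y P ℓ μ b₀ hD c hc hb hPc ω hω hωspan hM hcount
  have hωL : ∀ j, ω j ∈ C.L (P - ptDiv c) := fun j => by
    rw [← hωspan]
    exact Submodule.subset_span ⟨j, rfl⟩
  have hωP : ∀ j, ω j ∈ C.L P := fun j => L_sub_le C P c (hωL j)
  have hfinD : finrank k (C.L (P - ptDiv c)) = D := by
    rw [← hωspan, finrank_span_eq_card hω, Fintype.card_fin]
  -- finite dimension
  have hfd1 : FiniteDimensional k (C.L (P - ptDiv c)) := by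
    refine hf2 k Λ C (c ⟨0, hb⟩) _ (hD.Pfin.subset fun w hw => ?_)
    simp only [Set.mem_ofPred_eq, Pi.sub_apply] at hw ⊢
    have := ptDiv_nonneg c w
    omega
  have hfd2 : FiniteDimensional k (C.L ((d : ℤ) • P - ptDiv c)) := by
    refine hf2 k Λ C (c ⟨0, hb⟩) _ (hD.Pfin.subset fun w hw => ?_)
    simp only [Set.mem_ofPred_eq, Pi.sub_apply, Pi.smul_apply, smul_eq_mul] at hw ⊢
    have := ptDiv_nonneg c w
    intro h0
    rw [h0, mul_zero] at hw
    omega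
  -- the space of equations
  let T : Submodule k (Fin κ → Λ) :=
    { carrier := {u | (∀ j, u j ∈ C.L ((d : ℤ) • P - ptDiv c)) ∧
        ∀ j, aeval Y S.g * u j = ∑ i, aeval Y (S.A j i) * u (S.J₀ i)}
      add_mem' := by
        rintro u v ⟨hu1, hu2⟩ ⟨hv1, hv2⟩
        refine ⟨fun j => Submodule.add_mem _ (hu1 j) (hv1 j), fun j => ?_⟩
        simp only [Pi.add_apply, mul_add, Finset.sum_add_distrib, hu2, hv2]
      zero_mem' := by
        refine ⟨fun j => Submodule.zero_mem _, fun j => ?_⟩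
        simp
      smul_mem' := by
        rintro a u ⟨hu1, hu2⟩
        refine ⟨fun j => Submodule.smul_mem _ _ (hu1 j), fun j => ?_⟩
        simp only [Pi.smul_apply, mul_smul_comm, hu2, Finset.smul_sum] }
  have hT : ∀ u, u ∈ T ↔ (∀ j, u j ∈ C.L ((d : ℤ) • P - ptDiv c)) ∧
      ∀ j, aeval Y S.g * u j = ∑ i, aeval Y (S.A j i) * u (S.J₀ i) := fun u => Iff.rfl
  obtain ⟨J, G, hJ1, hJ2, hG1, hG2, hG3, hJ3⟩ := hf6 k Λ (Fin (M + 1) × Fin D) κ r
    (C.L ((d : ℤ) • P - ptDiv c)) hfd2 (fun j => hval Y ω (S.F j))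
    (fun j m => hf11 k Λ C (M + 1) D d b P c hc hD.P0 hPc Y ω hD.YP hωL (S.F j) (S.hom j)
      (hD.YF j) m)
    (fun j => by rw [constantCoeff_hval, hD.YF j])
    (aeval Y S.g) (fun j i => aeval Y (S.A j i)) S.J₀
    (fun J hJ => hf7 k Λ (M + 1) κ r D S.F S.J₀ S.g S.A S.rel Y ω J hJ) T hT
  have hTdim := hf9 k Λ C κ r (jac S.F S.I₀ Y) (P - ptDiv c) (((d : ℤ) - 1) • P) ℓ
    (jac_mem hf10 C S hD.YP) hfd1 hD.ℓfin
    (fun w => by
      obtain ⟨J, h1, h2⟩ := hD.hℓ w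
      refine ⟨J, h1, ?_⟩
      rw [Pi.smul_apply, smul_eq_mul, ← mul_assoc]
      exact h2)
    (aeval Y S.g) (fun j i => aeval Y (S.A j i)) S.J₀ hD.gY hD.mY (jac_rel S hD.YF) T
    (fun u => by
      have h : P - ptDiv c + ((d : ℤ) - 1) • P = (d : ℤ) • P - ptDiv c := by
        rw [sub_smul, one_smul]
        abel
      rw [h]
      exact hT u)
  rw [hfinD] at hTdim
  -- the conditions at infinity
  have hW : ∀ w, ∃ Gw : Finset (MvPolynomial (Fin (M + 1) × Fin D) k),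
      Gw.card ≤ (μ w).toNat ∧ (∀ q ∈ Gw, q ∈ mx (Fin (M + 1) × Fin D) k) ∧
      ∀ P' : Ideal (MvPolynomial (Fin (M + 1) × Fin D) k), (∀ q ∈ Gw, q ∈ P') → 0 < P w →
        ∃ (T : LogPolyL S.F b₀) (μ' : Fin T.s → ℕ), aeval Y T.χ ≠ 0 ∧
          C.ord w (aeval Y T.χ) = - (T.e₁ * P w) ∧ P w ≤ ∑ i, (T.lam i : ℤ) * μ' i ∧
          ∀ i, ∀ j < (μ' i : ℤ) - T.e i * P w, push (C.cf w j) (hval Y ω (T.a i)) ∈ P' := by
    intro w
    by_cases hw : 0 < P w
    · obtain ⟨T, μ', hsum, h1, h2, h3, h4⟩ := hD.log w hw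
      have hG' : ∀ i : Fin T.s, ∃ G' : Finset (MvPolynomial (Fin (M + 1) × Fin D) k),
          G'.card ≤ μ' i ∧ (∀ q ∈ G', q ∈ mx (Fin (M + 1) × Fin D) k) ∧
          ∀ P' : Ideal (MvPolynomial (Fin (M + 1) × Fin D) k), (∀ q ∈ G', q ∈ P') →
            ∀ j < (μ' i : ℤ) - T.e i * P w, push (C.cf w j) (hval Y ω (T.a i)) ∈ P' := by
        intro i
        obtain ⟨G', g1, g2, g3, g4⟩ := hf12 k Λ C (M + 1) D (T.e i) (μ' i) P Y ω hD.YP hωP (T.a i)
          (T.ha i) w (h3 i)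
        refine ⟨g1.toFinset, ?_, ?_, ?_⟩
        · rw [← Set.ncard_eq_toFinset_card G' g1]
          exact g2
        · intro q hq
          exact g3 (g1.mem_toFinset.1 hq)
        · intro P' hP' j hj
          exact g4 P' (fun q hq => hP' q (g1.mem_toFinset.2 hq)) j hj
      choose Gi gi1 gi2 gi3 using hG'
      refine ⟨Finset.univ.biUnion Gi, ?_, ?_, ?_⟩
      · have h5 : (Finset.univ.biUnion Gi).card ≤ ∑ i, μ' i :=
          Finset.card_biUnion_le.trans (Finset.sum_le_sum fun i _ => gi1 i)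
        have h6 : ((∑ i, μ' i : ℕ) : ℤ) ≤ μ w := by
          rw [Nat.cast_sum]
          exact hsum
        omega
      · intro q hq
        obtain ⟨i, _, hi⟩ := Finset.mem_biUnion.1 hq
        exact gi2 i q hi
      · intro P' hP' _
        exact ⟨T, μ', h1, h2, h4, fun i => gi3 i P' fun q hq =>
          hP' q (Finset.mem_biUnion.2 ⟨i, Finset.mem_univ i, hq⟩)⟩
    · refine ⟨∅, by simp, by simp, fun P' _ h => absurd h hw⟩
  choose Gw hGw1 hGw2 hGw3 using hW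
  let GG : Finset (MvPolynomial (Fin (M + 1) × Fin D) k) :=
    hG1.toFinset ∪ hD.Pfin.toFinset.biUnion Gw
  have hμsum : ∑ᶠ w, μ w = ∑ w ∈ hD.Pfin.toFinset, μ w := by
    refine finsum_eq_sum_of_support_subset _ fun w hw => ?_
    rw [Finset.mem_coe, Set.Finite.mem_toFinset]
    exact fun h => hw (hD.μP w h)
  have hGGcard : (GG.card : ℤ) ≤ r * D + ∑ᶠ w, ℓ w + ∑ᶠ w, μ w := by
    have h1 : GG.card ≤ G.ncard + ∑ w ∈ hD.Pfin.toFinset, (μ w).toNat := by
      refine (Finset.card_union_le _ _).trans (add_le_add ?_ ?_)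
      · rw [← Set.ncard_eq_toFinset_card G hG1]
      · exact Finset.card_biUnion_le.trans (Finset.sum_le_sum fun w _ => hGw1 w)
    have h2 : (((∑ w ∈ hD.Pfin.toFinset, (μ w).toNat : ℕ)) : ℤ) = ∑ᶠ w, μ w := by
      rw [hμsum, Nat.cast_sum]
      exact Finset.sum_congr rfl fun w _ => Int.toNat_of_nonneg (hD.μ0 w)
    have h3 : (G.ncard : ℤ) ≤ r * D + ∑ᶠ w, ℓ w := le_trans (by exact_mod_cast hG3) hTdim
    have h4 : (GG.card : ℤ) ≤ G.ncard + ((∑ w ∈ hD.Pfin.toFinset, (μ w).toNat : ℕ) : ℤ) := by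
      exact_mod_cast h1
    linarith
  have hGGmx : (GG : Set (MvPolynomial (Fin (M + 1) × Fin D) k)) ⊆
      mx (Fin (M + 1) × Fin D) k := by
    intro q hq
    rw [Finset.mem_coe, Finset.mem_union, Set.Finite.mem_toFinset, Finset.mem_biUnion] at hq
    rcases hq with hq | ⟨w, _, hq⟩
    · exact hG2 hq
    · exact hGw2 w q hq
  obtain ⟨𝔓, p1, p2, p3, p4, p5⟩ := hf5 k (Fin (M + 1) × Fin D) J
    (GG : Set (MvPolynomial (Fin (M + 1) × Fin D) k)) GG.finite_toSet hJ2 hGGmx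
    (by
      rw [Set.ncard_coe_finset, Fintype.card_prod, Fintype.card_fin, Fintype.card_fin]
      have h1 : ((M + 1 : ℕ) : ℤ) * D = (n + 1) * D + r * D := by
        rw [hM]
        push_cast
        ring
      have h2 : (GG.card : ℤ) < ((M + 1 : ℕ) : ℤ) * D := by
        rw [h1]
        linarith
      exact_mod_cast h2)
    (hJ3.trans (sup_le_sup_right (Ideal.span_mono (fun q hq => by
      rw [Finset.mem_coe, Finset.mem_union, Set.Finite.mem_toFinset]
      exact Or.inl hq)) _))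
  refine ⟨𝔓, p1, p2, p3, fun j => Ideal.map_mono p4 (hJ1 j), ?_⟩
  refine hf13l k Λ C M κ r d b D S Y P ℓ μ b₀ hD c hc hb hPc ω hω hωL 𝔓 p1 p2
    (fun j => Ideal.map_mono p4 (hJ1 j)) fun w hw => ?_
  refine hGw3 w 𝔓 (fun q hq => p5 ?_) hw
  rw [Finset.mem_coe, Finset.mem_union, Finset.mem_biUnion]
  exact Or.inr ⟨w, by
    rw [Set.Finite.mem_toFinset]
    exact (ne_of_gt hw), hq⟩

end Pool.Agent.Lib.MP_410da7_agA
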