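import Pool.Agent.Lib.MP_410da7_agA.L.Defs
import Pool.Agent.Lib.MP_410da7_agA.FG15

/-!
# MP_410da7_ag (C46), version 2: FG15L, the Frobenius twist of the data with several factors
-/

set_option autoImplicit false

namespace Pool.Agent.Lib.MP_410da7_agA

open MvPolynomial Module

open fG15Aux in
theorem fG15L : FG15LStmt := by
  intro k Λ _ _ _ p e₀ _ _ C M κ r d S y P ℓ μ b₀ m he hF hg hD hT
  have hp : (p ^ e₀) ^ m = p ^ (e₀ * m) := by rw [pow_mul]
  have hfix : ∀ G : MvPolynomial (Fin (M + 1)) k, FixedBy (p ^ e₀) G →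
      FixedBy (p ^ (e₀ * m)) G := fun G h => by
    rw [← hp]; exact fixedBy_pow _ m h
  have hcast : ((p : ℤ) ^ e₀) ^ m = ((p ^ (e₀ * m) : ℕ) : ℤ) := by
    rw [← hp]; push_cast; rfl
  have hq0 : p ^ (e₀ * m) ≠ 0 := pow_ne_zero _ (Fact.out : p.Prime).ne_zero
  have hgen : ∀ G : MvPolynomial (Fin (M + 1)) k, FixedBy (p ^ e₀) G →
      aeval (fun l => y l ^ p ^ (e₀ * m)) G = (aeval y G) ^ p ^ (e₀ * m) := fun G h =>
    aeval_pow (Λ := Λ) p (e₀ * m) (hfix G h) y
  have hmin : ∀ J : Fin r → Fin κ, minor S.F S.I₀ (fun l => y l ^ p ^ (e₀ * m)) J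
      = (minor S.F S.I₀ y J) ^ p ^ (e₀ * m) := fun J =>
    minor_pow (Λ := Λ) p (e₀ * m) (fun j => hfix _ (hF j)) S.I₀ y J
  rw [hcast, hp]
  clear hp hfix hcast
  generalize p ^ (e₀ * m) = q at hq0 hgen hmin ⊢
  have hqpos : (0 : ℤ) < q := by exact_mod_cast Nat.pos_of_ne_zero hq0
  have hsm : ∀ (D : C.pt → ℤ) (w : C.pt), ((q : ℤ) • D) w = q * D w := fun D w => by
    rw [Pi.smul_apply, smul_eq_mul]
  have hpos : ∀ (D : C.pt → ℤ) (w : C.pt), 0 < ((q : ℤ) • D) w → 0 < D w := fun D w h => by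
    rw [hsm] at h
    exact (mul_pos_iff_of_pos_left hqpos).1 h
  have hfin : ∀ (D : C.pt → ℤ), {w | D w ≠ 0}.Finite → {w | ((q : ℤ) • D) w ≠ 0}.Finite := by
    intro D h
    refine h.subset fun w hw => ?_
    rw [Set.mem_ofPred_eq, hsm] at hw
    exact right_ne_zero_of_mul hw
  refine
    { Y0 := by
        show y 0 ^ q = 1
        rw [hD.Y0, one_pow]
      YF := fun j => by rw [hgen _ (hF j), hD.YF j, zero_pow hq0]
      gY := by rw [hgen _ hg]; exact pow_ne_zero _ hD.gY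
      mY := by rw [hmin]; exact pow_ne_zero _ hD.mY
      P0 := fun w => by rw [hsm]; exact mul_nonneg hqpos.le (hD.P0 w)
      Pfin := hfin P hD.Pfin
      YP := ?_
      Yb := ?_
      ℓfin := hfin ℓ hD.ℓfin
      hℓ := ?_
      μ0 := fun w => by rw [hsm]; exact mul_nonneg hqpos.le (hD.μ0 w)
      μP := ?_
      log := ?_ }
  · intro l w i hi
    rw [hsm] at hi
    rw [map_pow]
    refine coeff_pow _ (- P w) q hq0 (fun j hj => hD.YP l w j hj) i ?_
    linarith
  · intro w hw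
    obtain ⟨h1, h2⟩ := hD.Yb w (hpos P w hw)
    refine ⟨pow_ne_zero _ h1, ?_⟩
    rw [ord_pow, h2, hsm]
    ring
  · intro w
    obtain ⟨J, h1, h2⟩ := hD.hℓ w
    refine ⟨J, ?_, ?_⟩
    · rw [hmin]; exact pow_ne_zero _ h1
    · rw [hmin, ord_pow, hsm, hsm]
      have h3 := mul_le_mul_of_nonneg_left h2 hqpos.le
      linarith
  · intro w hw
    rw [hsm] at hw ⊢
    rw [hD.μP w ((mul_eq_zero.1 hw).resolve_left hqpos.ne'), mul_zero]
  · intro w hw
    obtain ⟨T, μ', ha, hχ, h0, h1, h2, h3, h4⟩ := hT w (hpos P w hw)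
    refine ⟨T, fun i => q * μ' i, ?_, ?_, ?_, ?_, ?_⟩
    · rw [hsm]
      have h5 := mul_le_mul_of_nonneg_left h0 hqpos.le
      rw [Finset.mul_sum] at h5
      calc ∑ i, ((q * μ' i : ℕ) : ℤ) = ∑ i, (q : ℤ) * μ' i :=
            Finset.sum_congr rfl fun i _ => by push_cast; ring
        _ ≤ _ := h5
    · rw [hgen _ hχ]; exact pow_ne_zero _ h1
    · rw [hgen _ hχ, ord_pow, h2, hsm]
      ring
    · intro i j hj
      rw [hgen _ (ha i)]
      show (C.exp w (aeval y (T.a i) ^ q)).coeff j = 0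
      rw [map_pow]
      refine coeff_pow _ ((μ' i : ℤ) - T.e i * P w) q hq0 (fun j hj => h3 i j hj) j ?_
      rw [hsm] at hj
      push_cast at hj
      linarith
    · rw [hsm]
      have h5 := mul_le_mul_of_nonneg_left h4 hqpos.le
      rw [Finset.mul_sum] at h5
      calc (q : ℤ) * P w ≤ _ := h5
        _ = _ := Finset.sum_congr rfl fun i _ => by push_cast; ring

end Pool.Agent.Lib.MP_410da7_agA
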