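import Pool.Agent.Lib.MP_410da7_agA.L.Defs
import Pool.Agent.Lib.MP_410da7_agA.FG16

/-!
# MP_410da7_ag, smooth affine varieties (C46), version 2: FG16L

The theorem in characteristic `p`, with several boundary components. The proof of `fG16`.
-/

set_option autoImplicit false

namespace Pool.Agent.Lib.MP_410da7_agA

open MvPolynomial Module

open EvW fG16Aux in
theorem fG16L (hf4 : F4Stmt) (hf14l : F14LStmt) (hfg15l : FG15LStmt) (hg4 : G4Stmt) : FG16LStmt := by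
  classical
  intro k Λ _ _ _ p e₀ hpp _ C M κ r d n S y P ℓ μ b₀ hM he hSF hSg hD hlog a' γ B ha hsum hlt hγ
    U hU hUP
  have hQ : 2 ≤ p ^ e₀ := by
    calc 2 ≤ p := hpp.out.two_le
      _ = p ^ 1 := (pow_one p).symm
      _ ≤ p ^ e₀ := Nat.pow_le_pow_right hpp.out.pos he
  obtain ⟨m, b, hb, hb1, hb2⟩ := numbers n B a' γ (∑ᶠ w, P w) (p ^ e₀) hQ ha hlt
  have hcast : ((p ^ e₀) ^ m : ℤ) = (((p ^ e₀) ^ m : ℕ) : ℤ) := by push_cast; rfl
  set q : ℕ := (p ^ e₀) ^ m with hq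
  have hq0 : 0 < q := pow_pos (pow_pos hpp.out.pos _) _
  have hD' := hfg15l k Λ p e₀ C M κ r d S y P ℓ μ b₀ m he hSF hSg hD hlog
  rw [hcast] at hD'
  -- the points
  let c : Fin b → C.pt := fun i => (hU.natEmbedding U i : C.pt)
  have hcU : ∀ i, c i ∈ U := fun i => (hU.natEmbedding U i).2
  have hc : Function.Injective c := by
    intro i j h
    exact Fin.ext ((hU.natEmbedding U).injective (Subtype.ext h))
  have hqPc : ∀ i, ((q : ℤ) • P) (c i) = 0 := fun i => by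
    rw [Pi.smul_apply, hUP _ (hcU i), smul_zero]
  -- finite dimension
  have hfdq : FiniteDimensional k (C.L ((q : ℤ) • P)) := by
    refine f2 k Λ C (c ⟨0, hb⟩) _ (hD'.Pfin.subset fun w hw => ?_)
    exact ne_of_gt hw
  have hfd : FiniteDimensional k (C.L ((q : ℤ) • P - ptDiv c)) :=
    Submodule.finiteDimensional_of_le (L_sub_le C _ c)
  have hdim := hf4 k Λ C ((q : ℤ) • P) hfdq b c hc
  set D := finrank k (C.L ((q : ℤ) • P - ptDiv c)) with hDdef
  let bas := finBasis k (C.L ((q : ℤ) • P - ptDiv c))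
  let ω : Fin D → Λ := fun j => (bas j : Λ)
  have hω : LinearIndependent k ω :=
    bas.linearIndependent.map' (Submodule.subtype _) (Submodule.ker_subtype _)
  have hωspan : Submodule.span k (Set.range ω) = C.L ((q : ℤ) • P - ptDiv c) := by
    have h1 : Set.range ω = (C.L ((q : ℤ) • P - ptDiv c)).subtype '' Set.range bas := by
      rw [← Set.range_comp]
      rfl
    rw [h1, Submodule.span_image, bas.span_eq, Submodule.map_top, Submodule.range_subtype]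
  -- the sums
  have hsP : ∑ᶠ w, ((q : ℤ) • P) w = q * ∑ᶠ w, P w := (mul_finsum _ _).symm
  have hsℓ : ∑ᶠ w, ((q : ℤ) • ℓ) w = q * ∑ᶠ w, ℓ w := (mul_finsum _ _).symm
  have hsμ : ∑ᶠ w, ((q : ℤ) • μ) w = q * ∑ᶠ w, μ w :=
    (mul_finsum _ _).symm
  have hcount : ∑ᶠ w, ((q : ℤ) • ℓ) w + ∑ᶠ w, ((q : ℤ) • μ) w < (n + 1) * D := by
    rw [hsℓ, hsμ]
    have h1 : (q : ℤ) * ∑ᶠ w, P w ≤ D + b + γ := by
      have h2 := hγ q
      have h3 : (finrank k (C.L ((q : ℤ) • P)) : ℤ) ≤ D + b := by exact_mod_cast hdim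
      linarith
    have h4 : (q : ℤ) * (∑ᶠ w, ℓ w + ∑ᶠ w, μ w + a') ≤ q * ((n + 1) * ∑ᶠ w, P w) :=
      mul_le_mul_of_nonneg_left hsum (by positivity)
    have h5 : ((n : ℤ) + 1) * (q * ∑ᶠ w, P w) ≤ (n + 1) * (D + b + γ) :=
      mul_le_mul_of_nonneg_left h1 (by positivity)
    nlinarith
  obtain ⟨𝔓, p1, p2, p3, p4, p5⟩ := hf14l k Λ C M κ r d b D n S _ _ _ _ b₀ hD' c hc hb hqPc ω hω
    hωspan hM hcount
  obtain ⟨i, k', _, _, Yp, y1, y2, y3, y4, y5⟩ := hg4 k Λ C (M + 1) κ D b B S.F _ ((q : ℤ) • P)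
    hD'.P0 hD'.Pfin hD'.YP c hc hqPc (by rw [hsP]; exact hb2) ω hω
    (fun j => by
      rw [← hωspan]
      exact Submodule.subset_span ⟨j, rfl⟩) 𝔓 p1 p2 p3 p4
  have hreg : ∀ l, ∀ i' < 0, C.cf (c i) i' (y l) = 0 := by
    intro l i' hi'
    apply hD.YP l (c i) i'
    rw [hUP _ (hcU i), neg_zero]
    exact hi'
  refine ⟨m, c i, hcU i, k', inferInstance, inferInstance, Yp, y1, ?_, y2, y3, fun l => ?_⟩
  · have h0 := y5 0 p5
    rw [Polynomial.eq_C_of_natDegree_eq_zero h0, y4 0]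
    have h1 : C.cf (c i) 0 (y 0 ^ q) = 1 := by
      rw [hD.Y0, one_pow]
      change (C.exp (c i) 1).coeff 0 = 1
      rw [map_one, HahnSeries.coeff_one, if_pos rfl]
    rw [h1, map_one, map_one]
  · rw [y4 l, ← cf_pow C (c i) (y l) (hreg l)]

end Pool.Agent.Lib.MP_410da7_agA
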