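import Pool.Agent.Lib.MP_410da7_agA.L.SpecDL

/-!
# MP_410da7_ag, smooth affine varieties, version 2: HL3, the unconditional theorem
-/

set_option autoImplicit false

namespace Pool.Agent.Lib.MP_410da7_agA

theorem hL3 (hh4 : H4Stmt) (hn : NStmt) (hhl2 : HL2Stmt) : HL3Stmt := by
  intro R K _ _ _ _ _ _ _ _ n N Ψ x hx hsit hls
  refine ⟨fun h => hh4 R K n N Ψ x hx hsit h, ?_⟩
  rintro ⟨δ, hδ, hvan⟩
  obtain ⟨m₀, e₀, L, Λ, _, _, _, _, _, _, _, _, a, hN⟩ := hn K n N δ Ψ _ hsit hls hδ hvan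
  exact hhl2 R K n N m₀ e₀ Ψ x hx hsit hls L Λ a hN

end Pool.Agent.Lib.MP_410da7_agA
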