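import Pool.Agent.Lib.MP_410da7_agA.L.Defs
import Pool.Agent.Lib.MP_410da7_agA.VCert4

/-!
# MP_410da7_ag, C46 version 2, VL: from the valuative certificate to the certificate
(helper69; adapted from VCert4)
-/

set_option autoImplicit false

namespace Pool.Agent.Lib.MP_410da7_agA

open Pool.Agent.Lib.MP_cc17a8_ag

open MvPolynomial in
theorem vL : VLStmt := by
  intro L Λ _ _ _ _ M κ r d n m₀ e₀ E₀ S y b₀ α h
  classical
  have htr := h.trans
  have hfin := h.fin
  have hz0 : y b₀ ≠ 0 := by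
    intro h0
    rw [h0] at htr
    exact htr isAlgebraic_zero
  refine ⟨h.dimM, h.y0, h.yF, h.g0, h.J0, h.trans, h.fin,
    fun l => vcert_regFin' (fun V hV hz => h.y_fin V hV hz l),
    fun l => vcert_regInf htr hfin (fun V hV hz => h.y_inf V hV hz l), h.m0, h.e0, h.α0, ?_, ?_⟩
  · -- the finite places
    obtain ⟨hD, hFr⟩ := vcert_dedekind (y b₀) htr hfin
    obtain ⟨s, i, a, h1, h2⟩ := vcert_unity
      (S := integralClosure (Algebra.adjoin L {y b₀}) Λ) (F := Λ)
      (ι := {J : Fin r → Fin κ // minor S.F S.I₀ y J ≠ 0})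
      (fun J => {(α * minor S.F S.I₀ y J.1 ^ m₀)⁻¹}) (fun J => Set.finite_singleton _) ⊥ (by
        intro V hV _
        obtain ⟨J, hJ0, hJ⟩ := h.c_fin V (vcert_const_mem hV) (vcert_z_mem hV)
        exact ⟨⟨J, hJ0⟩, Set.singleton_subset_iff.mpr hJ⟩)
    rw [Ideal.mem_bot, sub_eq_zero] at h2
    have h3 : ∀ j, ((a j : Λ)) * (α * minor S.F S.I₀ y (i j).1 ^ m₀)⁻¹ ∈
        integralClosure (Algebra.adjoin L {y b₀}) Λ := by
      intro j
      obtain ⟨c, hc⟩ := h1 j _ (Set.mem_singleton _)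
      have : ((a j : Λ)) * (α * minor S.F S.I₀ y (i j).1 ^ m₀)⁻¹ = (c : Λ) := hc
      rw [this]; exact c.2
    refine ⟨fun J => ∑ j ∈ Finset.univ.filter (fun j => (i j).1 = J),
      (a j : Λ) * (α * minor S.F S.I₀ y (i j).1 ^ m₀)⁻¹, fun J => ?_, ?_⟩
    · apply vcert_regFin
      exact sum_mem (S := integralClosure (Algebra.adjoin L {y b₀}) Λ) fun j _ => h3 j
    · have h4 : ∀ J : Fin r → Fin κ, (∑ j ∈ Finset.univ.filter (fun j => (i j).1 = J),
          (a j : Λ) * (α * minor S.F S.I₀ y (i j).1 ^ m₀)⁻¹) * (α * minor S.F S.I₀ y J ^ m₀) =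
          ∑ j ∈ Finset.univ.filter (fun j => (i j).1 = J), (a j : Λ) := by
        intro J
        rw [Finset.sum_mul]
        refine Finset.sum_congr rfl fun j hj => ?_
        rw [Finset.mem_filter] at hj
        have h5 : α * minor S.F S.I₀ y J ^ m₀ ≠ 0 := by
          rw [← hj.2]
          exact mul_ne_zero h.α0 (pow_ne_zero _ (i j).2)
        rw [hj.2, mul_assoc, inv_mul_cancel₀ h5, mul_one]
      rw [Finset.sum_congr rfl fun J _ => h4 J, Finset.sum_fiberwise]
      have h5 := congrArg (fun x : integralClosure (Algebra.adjoin L {y b₀}) Λ => (x : Λ)) h2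
      simp only [AddSubmonoidClass.coe_finsetSum] at h5
      exact h5.symm
  · -- the places at infinity
    have htr' := vcert_transc_inv htr
    have hfin' : FiniteDimensional (IntermediateField.adjoin L {(y b₀)⁻¹}) Λ := by
      have he : IntermediateField.adjoin L {(y b₀)⁻¹} = IntermediateField.adjoin L {y b₀} := by
        apply le_antisymm
        · rw [IntermediateField.adjoin_simple_le_iff]
          exact inv_mem (IntermediateField.mem_adjoin_simple_self L (y b₀))
        · rw [IntermediateField.adjoin_simple_le_iff]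
          have := inv_mem (IntermediateField.mem_adjoin_simple_self L (y b₀)⁻¹)
          rwa [inv_inv] at this
      rw [he]; exact hfin
    obtain ⟨hD, hFr⟩ := vcert_dedekind (y b₀)⁻¹ htr' hfin'
    let uS : integralClosure (Algebra.adjoin L {(y b₀)⁻¹}) Λ :=
      algebraMap (Algebra.adjoin L {(y b₀)⁻¹}) _
        ⟨(y b₀)⁻¹, Algebra.self_mem_adjoin_singleton L _⟩
    have huS : ((uS : integralClosure (Algebra.adjoin L {(y b₀)⁻¹}) Λ) : Λ) = (y b₀)⁻¹ := rfl
    let ι := {q : LogPolyL S.F b₀ × (Fin r → Fin κ) × Λ // q.2.2 ≠ 0 ∧ aeval y q.1.χ ≠ 0 ∧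
      (∀ i, aeval y (q.1.a i) ≠ 0) ∧ minor S.F S.I₀ y q.2.1 ≠ 0}
    let B : ι → Set Λ := fun q => {(aeval y q.1.1.χ / y b₀ ^ q.1.1.e₁)⁻¹,
      (tauL S n m₀ e₀ y b₀ α q.1.1 q.1.2.1 q.1.2.2)⁻¹,
      (∏ i, (aeval y (q.1.1.a i) / y b₀ ^ q.1.1.e i) ^ q.1.1.lam i) * y b₀,
      y b₀ / q.1.2.2 ^ E₀}
    obtain ⟨s, i, a, h1, h2⟩ := vcert_unity
      (S := integralClosure (Algebra.adjoin L {(y b₀)⁻¹}) Λ) (F := Λ) (ι := ι) B
      (fun q => Set.toFinite _) (Ideal.span {uS}) (by
        intro V hV hJ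
        have hzV : y b₀ ∉ V := by
          have h3 := hJ uS (Ideal.subset_span rfl) (by
            intro h0
            have : (y b₀)⁻¹ = 0 := by rw [← huS, h0]; rfl
            exact hz0 (inv_eq_zero.mp this))
          have h4 : (algebraMap (integralClosure (Algebra.adjoin L {(y b₀)⁻¹}) Λ) Λ uS)⁻¹
            = y b₀ := by
            change ((y b₀)⁻¹)⁻¹ = y b₀
            exact inv_inv _
          rwa [h4] at h3
        obtain ⟨T, J, x, hx, hχ, ha, hJ0, k1, k2, k3, k4⟩ :=
          h.c_inf V (vcert_const_mem hV) hzV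
        refine ⟨⟨(T, J, x), hx, hχ, ha, hJ0⟩, ?_⟩
        intro b hb
        rcases hb with rfl | rfl | rfl | hb
        · exact k1
        · exact k2
        · exact k3
        · rw [Set.mem_singleton_iff] at hb
          rw [hb]; exact k4)
    obtain ⟨c, hc⟩ := Ideal.mem_span_singleton'.mp h2
    set A : Λ := ∑ j, (a j : Λ) with hA
    have hAc : A = 1 - (c : Λ) * (y b₀)⁻¹ := by
      have h5 := congrArg (fun x : integralClosure (Algebra.adjoin L {(y b₀)⁻¹}) Λ => (x : Λ)) hc
      have h6 : (c : Λ) * (y b₀)⁻¹ = 1 - A := by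
        have h7 : (((c * uS : integralClosure (Algebra.adjoin L {(y b₀)⁻¹}) Λ)) : Λ) =
          (c : Λ) * (y b₀)⁻¹ := rfl
        have h8 : (((1 - ∑ j, a j : integralClosure (Algebra.adjoin L {(y b₀)⁻¹}) Λ)) : Λ) =
            1 - A := by
          rw [hA]
          simp
        rw [← h7, ← h8]; exact h5
      rw [h6]; ring
    -- `A` is a unit at infinity
    have hunit : ∀ V : ValuationSubring Λ, (∀ a : L, algebraMap L Λ a ∈ V) → y b₀ ∉ V →
        A ≠ 0 ∧ A⁻¹ ∈ V ∧ ∀ s : integralClosure (Algebra.adjoin L {(y b₀)⁻¹}) Λ, (s : Λ) ∈ V := by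
      intro V hV hz
      have hu : (y b₀)⁻¹ ∈ V := (V.mem_or_inv_mem _).resolve_left hz
      have hint := vcert_integral_mem hV hu
      have h3 : V.valuation ((c : Λ) * (y b₀)⁻¹) < 1 := by
        rw [map_mul]
        have h4 : V.valuation (y b₀)⁻¹ < 1 := by
          rw [map_inv₀]
          have h5 : 1 < V.valuation (y b₀) := by
            rw [← not_le]
            intro h6
            exact hz ((V.valuation_le_one_iff _).mp h6)
          exact inv_lt_one_of_one_lt₀ h5
        exact lt_of_le_of_lt (mul_le_of_le_one_left' ((V.valuation_le_one_iff _).mpr (hint c))) h4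
      have h4 : V.valuation A = 1 := by
        rw [hAc]
        exact Valuation.map_one_sub_of_lt _ h3
      have hA0 : A ≠ 0 := by
        intro h0
        rw [h0, map_zero] at h4
        exact zero_ne_one h4
      refine ⟨hA0, ?_, hint⟩
      rw [← V.valuation_le_one_iff, map_inv₀, h4, inv_one]
    obtain ⟨V₀, hV₀, hzV₀⟩ := vcert_exists_inf (L := L) htr
    have hA0 : A ≠ 0 := (hunit V₀ hV₀ hzV₀).1
    have key : ∀ j, ∀ b : Λ, (∃ c : integralClosure (Algebra.adjoin L {(y b₀)⁻¹}) Λ,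
        (a j : Λ) * b = (c : Λ)) → RegInf L (y b₀) ((a j : Λ) / A * b) := by
      rintro j b ⟨c, hc⟩
      apply vcert_regInf htr hfin
      intro V hV hz
      obtain ⟨-, k1, k2⟩ := hunit V hV hz
      have h5 : (a j : Λ) / A * b = (c : Λ) * A⁻¹ := by
        rw [← hc]; field_simp
      rw [h5]
      exact V.mul_mem _ _ (k2 c) k1
    refine ⟨s, fun j => (a j : Λ) / A, ?_, ?_⟩
    · rw [← Finset.sum_div, ← hA, div_self hA0]
    · intro j
      have hB := h1 j
      obtain ⟨⟨⟨T, J, x⟩, hx, hχ, ha, hJ0⟩, hq⟩ : ∃ q, q = i j := ⟨_, rfl⟩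
      rw [← hq] at hB
      refine ⟨T, J, x, hx, hχ, ha, hJ0, ?_, ?_, ?_, ?_, ?_⟩
      · have := key j 1 ⟨a j, mul_one _⟩
        rwa [mul_one] at this
      · rw [div_eq_mul_inv]
        exact key j _ (hB _ (by simp [B]))
      · rw [div_eq_mul_inv ((a j : Λ) / A)]
        exact key j _ (hB _ (by simp [B]))
      · exact key j _ (hB _ (by simp [B]))
      · exact key j _ (hB _ (by simp [B]))

end Pool.Agent.Lib.MP_410da7_agA
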