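import Pool.Agent.Lib.MP_410da7_agA.Assembly
import Pool.Agent.Lib.MP_410da7_agA.H4
import Pool.Agent.Lib.MP_410da7_agA.NG5
import Pool.Agent.Lib.MP_410da7_agA.L.F13L
import Pool.Agent.Lib.MP_410da7_agA.L.F14L
import Pool.Agent.Lib.MP_410da7_agA.L.FG15L
import Pool.Agent.Lib.MP_410da7_agA.L.FG16L
import Pool.Agent.Lib.MP_410da7_agA.L.EL6b
import Pool.Agent.Lib.MP_410da7_agA.L.EL6c
import Pool.Agent.Lib.MP_410da7_agA.L.EL7b
import Pool.Agent.Lib.MP_410da7_agA.L.EL7c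
import Pool.Agent.Lib.MP_410da7_agA.L.EFGL
import Pool.Agent.Lib.MP_410da7_agA.L.VL
import Pool.Agent.Lib.MP_410da7_agA.L.DL4
import Pool.Agent.Lib.MP_410da7_agA.L.DL5
import Pool.Agent.Lib.MP_410da7_agA.L.DL6
import Pool.Agent.Lib.MP_410da7_agA.L.DL7
import Pool.Agent.Lib.MP_410da7_agA.L.DL13
import Pool.Agent.Lib.MP_410da7_agA.L.DL15
import Pool.Agent.Lib.MP_410da7_agA.L.DL16
import Pool.Agent.Lib.MP_410da7_agA.L.DL17
import Pool.Agent.Lib.MP_410da7_agA.L.DL18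
import Pool.Agent.Lib.MP_410da7_agA.L.HL2
import Pool.Agent.Lib.MP_410da7_agA.L.HL3

/-!
# MP_410da7_ag, smooth affine varieties (C46), version 2: assembly
-/

set_option autoImplicit false

namespace Pool.Agent.Lib.MP_410da7_agA

theorem fg16LAll : FG16LStmt :=
  fG16L f4 (f14L f2 f5 f6 f7 (f9 f8) f10 (f11 f10) (f12 f10) (f13L f1 f10)) fG15L
    (g4 (g1 f3) g2 g3)

theorem efgLAll : EFGLStmt :=
  eFGL ff1 (ff5 ff2 ff3 ff4) (ff7 f1) (ff10 f2 ff8 (ff9 f2 ff6)) fg16LAll (e4 e1 e2 e3)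
    (eL6c e5 e6a (eL6b e5 e6a)) (eL7c (eL7b e7a)) e8

theorem dl5All : DL5Stmt := dL5 d5

theorem dl13All : DL13Stmt := dL13 d5

/-- Log bend and break for a log smooth embedding. -/
theorem hl2All : HL2Stmt :=
  hL2 (dL18 d1 d2 d5 (d7 d5 d6) (d9 d8) d10 dL4 (dL16 d1 (d9 d8) d10 dl5All dl13All)
    (dL17 (d9 d8) d10 dl5All dl13All (dL15 d5))) vL efgLAll h1

theorem hl3All (hN : NThmIf) : HL3Stmt :=
  hL3 h4 (ng_nstmt hN dL7) hl2All

end Pool.Agent.Lib.MP_410da7_agA
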