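import Pool.Agent.Lib.MP_410da7_agA.L.Defs

/-!
# MP_410da7_ag, smooth affine varieties (C46), version 2: block D for a log smooth embedding

`X ⊆ 𝔸^N` has a log smooth closure in `ℙ^N`. A covering family of curves, negative for `K + D`, gives
`𝔸¹`-uniruledness; the curves may meet the boundary anywhere.
-/

set_option autoImplicit false

namespace Pool.Agent.Lib.MP_410da7_agA

open MvPolynomial KaehlerDifferential WithZero Module
open Pool.Agent.Lib.MP_410da7_ag (regDiff logDiff regGens logGens A1Uniruled LogKodairaNegInf dim)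

section

variable {K : Type} [Field K] [Algebra ℂ K] {M : ℕ}

/-- The local ring of the projective variety with homogeneous coordinates `Y` at the center of `v`, in
the chart `Y_b ≠ 0` (`|Y_b|` maximal): the quotients `P(s)/Q(s)`, `s = Y/Y_b`, `v(Q(s)) = 1`. -/
def locRing (Y : Fin (M + 1) → K) (b : Fin (M + 1)) (v : Valuation K ℤᵐ⁰) : Subalgebra ℂ K where
  carrier := {f | ∃ P Q : MvPolynomial (Fin (M + 1)) ℂ,
    v (aeval (aff Y b) Q) = 1 ∧ f * aeval (aff Y b) Q = aeval (aff Y b) P}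
  mul_mem' := by
    rintro f g ⟨P, Q, hQ, hf⟩ ⟨P', Q', hQ', hg⟩
    refine ⟨P * P', Q * Q', by rw [map_mul, map_mul, hQ, hQ', one_mul], ?_⟩
    rw [map_mul, map_mul, ← hf, ← hg]
    ring
  add_mem' := by
    rintro f g ⟨P, Q, hQ, hf⟩ ⟨P', Q', hQ', hg⟩
    refine ⟨P * Q' + P' * Q, Q * Q', by rw [map_mul, map_mul, hQ, hQ', one_mul], ?_⟩
    rw [map_mul, map_add, map_mul, map_mul, ← hf, ← hg]
    ring
  algebraMap_mem' := by
    intro c
    exact ⟨C c, 1, by rw [map_one, map_one], by rw [map_one, mul_one, aeval_C]⟩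

/-- At the center of `v` the projective variety `Xbar` with homogeneous coordinates `Y` is smooth of
dimension `n` with local coordinates `z_1, ..., z_n` (the differentials of its local ring are generated
by the `dz_i`), the hyperplane section `Y_0 = 0` is `∏ z_i^{λ_i} = 0`, and the reduced boundary `D` (the
support of this hyperplane section) is defined by `∏_{λ_i ≥ 1} z_i`: a function that vanishes on it
is a multiple of this product. So `D` has simple normal crossings there. -/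
structure LSAt {n : ℕ} (Y : Fin (M + 1) → K) (b : Fin (M + 1)) (v : Valuation K ℤᵐ⁰)
    (z : Fin n → K) (lam : Fin n → ℕ) : Prop where
  ne : Y b ≠ 0
  max : ∀ l, v (Y l) ≤ v (Y b)
  mem : ∀ i, z i ∈ locRing Y b v
  coord : Submodule.span (locRing Y b v) {ω : Ω[locRing Y b v⁄ℂ] |
    ∃ i, ∃ h : z i ∈ locRing Y b v, ω = D ℂ (locRing Y b v) ⟨z i, h⟩} = ⊤
  bd : ∃ u ∈ locRing Y b v, v u = 1 ∧ Y 0 / Y b = u * ∏ i, z i ^ lam i
  rad : ∀ f ∈ locRing Y b v, ∀ m : ℕ, (∃ g ∈ locRing Y b v, f ^ m = g * (Y 0 / Y b)) →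
    ∃ g ∈ locRing Y b v, f = g * ∏ i, if lam i = 0 then 1 else z i

/-- `(1, x_1, ..., x_N)`. -/
def cons1 {N : ℕ} (x : Fin N → K) : Fin (N + 1) → K := Fin.cons 1 x

/-- The closure of `X` in `ℙ^N` is smooth and the boundary has simple normal crossings. -/
def LogSmoothEmb (n : ℕ) {N : ℕ} (x : Fin N → K) : Prop :=
  ∀ v : Valuation K ℤᵐ⁰, Triv v → ∃ (b : Fin (N + 1)) (z : Fin n → K) (lam : Fin n → ℕ),
    LSAt (cons1 x) b v z lam

/-- The local size of the generator `dz_1 ∧ ... ∧ dz_n / ∏_{λ_i ≥ 1} z_i` of `K + D`. -/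
noncomputable def kSize {n : ℕ} (Ψ : Ω[K⁄ℂ] [⋀^Fin n]→ₗ[K] K) (v : Valuation K ℤᵐ⁰)
    (z : Fin n → K) (lam : Fin n → ℕ) : ℤᵐ⁰ :=
  v (Ψ fun i => D ℂ K (z i)) / ∏ i, if lam i = 0 then 1 else v (z i)

/-- A covering family of curves on `Xbar` which is negative for `K + D` (the generic curve has function
field `Λ` over `L`): the section `a` of `m₀ (K + D) + e₀ H`, restricted to the curve, has no zero, so
that `m₀ (K + D) + e₀ H` has degree `≤ 0` on the curve. -/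
structure NegCurveL {n N : ℕ} (Ψ : Ω[K⁄ℂ] [⋀^Fin n]→ₗ[K] K) (x : Fin N → K) (m₀ e₀ : ℕ)
    (L Λ : Type) [Field L] [Field Λ] [Algebra ℂ L] [Algebra L Λ] [Algebra K Λ] [Algebra ℂ Λ]
    [IsScalarTower ℂ L Λ] [IsScalarTower ℂ K Λ] (a : Λ) : Prop where
  m0 : 1 ≤ m₀
  e0 : 1 ≤ e₀
  a0 : a ≠ 0
  trdeg : Algebra.trdeg L Λ = 1
  fg : ∃ T : Set Λ, T.Finite ∧ IntermediateField.adjoin L T = ⊤
  gen : IntermediateField.adjoin L (Set.range (algebraMap K Λ)) = ⊤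
  neg : ∀ w : Valuation Λ ℤᵐ⁰, (∀ c : L, c ≠ 0 → w (algebraMap L Λ c) = 1) →
    ∀ (b : Fin (N + 1)) (z : Fin n → K) (lam : Fin n → ℕ),
      LSAt (cons1 x) b (w.comap (algebraMap K Λ)) z lam →
      size x (w.comap (algebraMap K Λ)) ^ e₀ * kSize Ψ (w.comap (algebraMap K Λ)) z lam ^ m₀ ≤ w a

end

/-- DL4. The generic linear form.
PROOF. At `v_j` let `l_j` be such that `v_j(x_{l_j})` is maximal (`> 1`); the `c ∈ ℂ^N` with
`v_j(∑ c_l x_l) < v_j(x_{l_j})` form a proper subspace (the kernel of the nonzero linear form, the residue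
of `∑ c_l x_l/x_{l_j}`); finitely many proper subspaces do not cover `ℂ^N`. See also D4.lean. -/
def DL4Stmt : Prop :=
  ∀ (K : Type) [Field K] [Algebra ℂ K] (N s : ℕ) (x : Fin N → K)
    (v : Fin s → Valuation K ℤᵐ⁰), (∀ j, Triv (v j)) → (∀ j, ¬ Cent x (v j)) →
    ∃ c : Fin N → ℂ, ∀ j, v j (∑ l, c l • x l) = size x (v j)

/-- DL5. Change of the chart and of the homogeneous coordinates.
PROOF. `s'_l = Y'_l/Y'_{b'} = (∑ c (Y/Y_b))/(Y'_{b'}/Y_b)` with `Y'_{b'}/Y_b` a polynomial in `s` of value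
`1`, and conversely `Y_l/Y_b = (Y'_{l'}/Y'_{b'})/(Y_b/Y'_{b'})`: so `locRing Y' b' v = locRing Y b v`
(homogenize the polynomials `P`, `Q` with a power of the unit). `Y_0 = Y'_0`; the two equations of the
hyperplane section differ by the unit `Y_b/Y'_{b'}`. -/
def DL5Stmt : Prop :=
  ∀ (K : Type) [Field K] [Algebra ℂ K] (n M M' : ℕ) (Y : Fin (M + 1) → K) (Y' : Fin (M' + 1) → K)
    (b : Fin (M + 1)) (b' : Fin (M' + 1)) (v : Valuation K ℤᵐ⁰) (z : Fin n → K) (lam : Fin n → ℕ),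
    Triv v → Y 0 = Y' 0 → (∀ l', ∃ c : Fin (M + 1) → ℂ, Y' l' = ∑ l, c l • Y l) →
    (∀ l, ∃ l', Y' l' = Y l) → LSAt Y b v z lam → v (Y' b') = v (Y b) → LSAt Y' b' v z lam

/-- DL6. `kSize` does not depend on the choices.
PROOF. The local rings are equal (DL5 with `Y' = Y`; all elements have value `≤ 1`). By `coord` (map
`Ω[locRing⁄ℂ] → Ω[K⁄ℂ]`) the `D z_i` are combinations of the `D z'_i` with coefficients in the local
ring, so `v(Ψ(dz)) ≤ v(Ψ(dz'))`, and conversely. The products `∏_{λ_i ≥ 1} z_i` and `∏_{λ'_i ≥ 1} z'_i`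
divide each other in the local ring: a power of the first is a multiple of `Y_0/Y_b` (`bd`), so `rad`. -/
def DL6Stmt : Prop :=
  ∀ (K : Type) [Field K] [Algebra ℂ K] (n M : ℕ) (Ψ : Ω[K⁄ℂ] [⋀^Fin n]→ₗ[K] K)
    (Y : Fin (M + 1) → K) (b b' : Fin (M + 1)) (v : Valuation K ℤᵐ⁰) (z z' : Fin n → K)
    (lam lam' : Fin n → ℕ), Triv v → LSAt Y b v z lam → LSAt Y b' v z' lam' →
    kSize Ψ v z lam = kSize Ψ v z' lam'

/-- DL7. The logarithmic frame.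
PROOF. `θ_i = dz_i/z_i` if `λ_i ≥ 1` (`z_i ≠ 0` by `bd` if `Y_0 = 1`), `θ_i = dz_i` otherwise;
`v(z_i) ≤ 1`. If `v` has a center on `X` then `v(Y_b) = 1` (`= max(1, |x_l|)`), `Y_0/Y_b` has value `1`, so
`v(z_i) = 1` for `λ_i ≥ 1`, and `dz_i/z_i` is regular. `Ψ θ = Ψ(dz)/∏_{λ_i ≥ 1} z_i`. -/
def DL7Stmt : Prop :=
  ∀ (K : Type) [Field K] [Algebra ℂ K] (n N : ℕ) (Ψ : Ω[K⁄ℂ] [⋀^Fin n]→ₗ[K] K) (x : Fin N → K)
    (b : Fin (N + 1)) (v : Valuation K ℤᵐ⁰) (z : Fin n → K) (lam : Fin n → ℕ), Triv v →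
    LSAt (cons1 x) b v z lam →
    ∃ θ : Fin n → Ω[K⁄ℂ], Frame x v θ ∧ v (Ψ θ) = kSize Ψ v z lam

/-- DL13. Regularity: a unit minor, and the frame `ds`.
PROOF. Compare D13 (`D13.lean`). `O = locRing y b v`, `κ` = the residue field of `v`, `res : O → κ`. The
entries `∂_l F_j(s)` are in `O`. If all the `r × r` minors in the columns `l ≠ b` are in the maximal ideal
then the space of the `ξ ∈ κ^{l ≠ b}` with `∑ res(∂_l F_j(s)) ξ_l = 0` has dimension `> M - r = n`. Such a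
`ξ` defines a derivation `δ : O → κ` with `δ s_l = ξ_l` (as in D13: on `ℂ[s]` by
`δ(P(s)) = ∑ res(∂_l P(s)) ξ_l`, well defined by `Eqs.gen` and `hom`, then the quotient rule). By `coord`
a derivation `O → κ` is determined by the `δ z_i` (it factors through `Ω[O⁄ℂ]`), so the dimension is
`≤ n`: contradiction. So there are `J`, and `e` with `e inl 0 = b`, `v(minor) = 1`. The second claim: by
Cramer's rule applied to `∑_l ∂_l F_{J i}(s) ds_l = 0` (`ds_b = 0`) all `ds_l` are combinations, with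
coefficients in `O`, of the `ds_{e inl (a+1)}`; so are the `dz_i` (`z_i = P(s)/Q(s)`), and by `coord` the
`ds_l` are combinations of the `dz_i`. Hence the values of `Ψ` on the two families are `≤` each other. -/
def DL13Stmt : Prop :=
  ∀ (K : Type) [Field K] [Algebra ℂ K] (n M r κ d : ℕ) (Ψ : Ω[K⁄ℂ] [⋀^Fin n]→ₗ[K] K)
    (y : Fin (M + 1) → K) (b : Fin (M + 1)) (F : Fin κ → MvPolynomial (Fin (M + 1)) ℂ),
    M = n + r → Eqs d y F → ∀ (v : Valuation K ℤᵐ⁰) (z : Fin n → K)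
    (lam : Fin n → ℕ), Triv v → LSAt y b v z lam →
    ∃ (J : Fin r → Fin κ) (e : Fin (n + 1) ⊕ Fin r ≃ Fin (M + 1)), e (Sum.inl 0) = b ∧
      v (minor F (e ∘ Sum.inr) (aff y b) J) = 1 ∧
      v (Ψ fun a => D ℂ K (aff y b (e (Sum.inl a.succ)))) = v (Ψ fun i => D ℂ K (z i))

/-- DL15. The relation `x_0 χ^N x_b^E = ∏ a_i^{λ_i} q`.
PROOF. (Compare D15.) `z_i Q_i(s) = P_i(s)`, `v(Q_i(s)) = 1`. `I = {i : λ_i ≥ 1}`, enumerated by `Fin s`.
`a_i = hom b e_i P_i`, so `a_i(y)/y_b^{e_i} = P_i(s) = z_i Q_i(s)` has value `v(z_i)`. From `bd` (`y_0 = 1`):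
`1/y_b = u ∏ z_i^{λ_i}`, `u Q(s) = P(s)`, `v(Q(s)) = v(P(s)) = 1` (`v u = 1`):
`(1/y_b) Q(s) ∏ Q_i(s)^{λ_i} = P(s) ∏ P_i(s)^{λ_i}`. `χ = hom b e₁ (Q ∏ Q_i^{λ_i})`,
`q' = hom b e' P`: the homogeneous polynomial
`X_0 χ X_b^(∑ λ_i e_i + e') - (∏ a_i^{λ_i}) q' X_b^(e₁+1)` vanishes at `y`; multiply by `X_b^d`
(`Eqs.gen`). `v(∏ (a_i(y)/y_b^{e_i})^{λ_i}) v(y_b) = ∏ v(z_i)^{λ_i} v(y_b) = v(u)^{-1} = 1`. -/
def DL15Stmt : Prop :=
  ∀ (K : Type) [Field K] [Algebra ℂ K] (n M κ d : ℕ) (y : Fin (M + 1) → K) (b : Fin (M + 1))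
    (F : Fin κ → MvPolynomial (Fin (M + 1)) ℂ), y 0 = 1 → Eqs d y F →
    ∀ (v : Valuation K ℤᵐ⁰) (z : Fin n → K) (lam : Fin n → ℕ), Triv v → LSAt y b v z lam →
    ∃ T : LogPolyL F b, v (aeval y T.χ / y b ^ T.e₁) = 1 ∧ (∀ i, aeval y (T.a i) ≠ 0) ∧
      v (∏ i, aeval y (T.a i) / y b ^ T.e i) = ∏ i, (if lam i = 0 then 1 else v (z i)) ∧
      v (∏ i, (aeval y (T.a i) / y b ^ T.e i) ^ T.lam i) * v (y b) = 1

/-- DL16. Finite places. `e'` is an enumeration with `e' inl 0 = 0`, `e' inr = I₀`;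
`α = a / Ψ(dy_{e' inl})^m₀`.
PROOF. D1: `w` for `V`, `v = w|K`; `v(x_l) ≤ 1` for all `l`. `LogSmoothEmb` and DL5 (coordinates `y`, chart
`b' = 0`: `v(y_0) = 1` is maximal) give `LSAt y 0 v z lam`, and `LSAt (cons1 x) 0 v z lam`;
`v(z_i) = 1` if `λ_i ≥ 1` (`bd`: `1 = u ∏ z_i^{λ_i}`), so `kSize = v(Ψ(dz))`, `size = 1`:
`v(Ψ(dz))^m₀ ≤ w a` (`NegCurveL.neg`). DL13 with `b = 0`: `J`, `e`; `aff y 0 = y`. Then as in D16 with D9
and D10. -/
def DL16Stmt : Prop :=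
  ∀ (R K : Type) [CommRing R] [IsDomain R] [Algebra ℂ R] [Field K]
    [Algebra R K] [IsFractionRing R K] [Algebra ℂ K] [IsScalarTower ℂ R K] (n N M κ r d m₀ e₀ : ℕ)
    (Ψ : Ω[K⁄ℂ] [⋀^Fin n]→ₗ[K] K) (x : Fin N → R) (y : Fin (M + 1) → R) (b : Fin (M + 1))
    (S : System ℂ M κ r d), Algebra.adjoin ℂ (Set.range x) = ⊤ →
    Sit Ψ (fun l => algebraMap R K (x l)) → Model R K n x y b S →
    (∀ l', ∃ c : Fin (N + 1) → ℂ, y l' = ∑ l, c l • (Fin.cons 1 x : Fin (N + 1) → R) l) →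
    LogSmoothEmb n (fun l => algebraMap R K (x l)) →
    ∀ (L Λ : Type) [Field L] [Field Λ] [Algebra ℂ L] [Algebra L Λ] [Algebra K Λ] [Algebra ℂ Λ]
      [IsScalarTower ℂ L Λ] [IsScalarTower ℂ K Λ] (a : Λ),
    NegCurveL Ψ (fun l => algebraMap R K (x l)) m₀ e₀ L Λ a →
    ∀ (e' : Fin (n + 1) ⊕ Fin r ≃ Fin (M + 1)), e' (Sum.inl 0) = 0 → e' ∘ Sum.inr = S.I₀ →
    ∀ V : ValuationSubring Λ, (∀ c : L, algebraMap L Λ c ∈ V) →
      (∀ l, algebraMap K Λ (algebraMap R K (x l)) ∈ V) →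
      ∃ J : Fin r → Fin κ, minor S.F S.I₀ (fun l => algebraMap R K (y l)) J ≠ 0 ∧
        (a / algebraMap K Λ (Ψ fun i => D ℂ K (algebraMap R K (y (e' (Sum.inl i.succ))))) ^ m₀ *
          algebraMap K Λ (minor S.F S.I₀ (fun l => algebraMap R K (y l)) J) ^ m₀)⁻¹ ∈ V

/-- DL17. Places at infinity.
PROOF. `v = w|K`, `LSAt (cons1 x) b₁ v z lam` (`LogSmoothEmb`), `LSAt y b v z lam` by DL5
(`v(y_b) = size = v((cons1 x)_{b₁})`). DL13: `J, e`. DL15: `T`. `NegCurveL.neg`: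
`size^e₀ (v(Ψ(dz))/∏_{λ_i ≥ 1} v(z_i))^m₀ ≤ w a`. As in D17 (D9, D10):
`v(Ψ(ds_{S'})) v(minor I₀) = v(y_b)^(r(d-1)-(n+1)) v(Ψ(dy_{S₀}))`, `S' = e inl`, so
`w(tauL) = w(a) (∏_{λ_i ≥ 1} v(z_i))^m₀ / (v(Ψ(ds_{S'}))^m₀ size^e₀) ≥ 1`. The exponent `E₀ = 1`:
`v(y_b) = size = v(x_l)`. -/
def DL17Stmt : Prop :=
  ∀ (R K : Type) [CommRing R] [IsDomain R] [Algebra ℂ R] [Field K]
    [Algebra R K] [IsFractionRing R K] [Algebra ℂ K] [IsScalarTower ℂ R K]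
    (n N M κ r d m₀ e₀ : ℕ)
    (Ψ : Ω[K⁄ℂ] [⋀^Fin n]→ₗ[K] K) (x : Fin N → R) (y : Fin (M + 1) → R) (b : Fin (M + 1))
    (S : System ℂ M κ r d), Algebra.adjoin ℂ (Set.range x) = ⊤ →
    Sit Ψ (fun l => algebraMap R K (x l)) → Model R K n x y b S →
    (∀ l', ∃ c : Fin (N + 1) → ℂ, y l' = ∑ l, c l • (Fin.cons 1 x : Fin (N + 1) → R) l) →
    LogSmoothEmb n (fun l => algebraMap R K (x l)) →
    ∀ (L Λ : Type) [Field L] [Field Λ] [Algebra ℂ L] [Algebra L Λ] [Algebra K Λ] [Algebra ℂ Λ]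
      [IsScalarTower ℂ L Λ] [IsScalarTower ℂ K Λ] (a : Λ),
    NegCurveL Ψ (fun l => algebraMap R K (x l)) m₀ e₀ L Λ a →
    ∀ (e' : Fin (n + 1) ⊕ Fin r ≃ Fin (M + 1)), e' (Sum.inl 0) = 0 → e' ∘ Sum.inr = S.I₀ →
    ∀ w : Valuation Λ ℤᵐ⁰, (∀ c : L, c ≠ 0 → w (algebraMap L Λ c) = 1) →
      (∃ l, 1 < w (algebraMap K Λ (algebraMap R K (x l)))) →
      w (algebraMap K Λ (algebraMap R K (y b))) =
        size (fun l => algebraMap R K (x l)) (w.comap (algebraMap K Λ)) →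
      ∃ (T : LogPolyL S.F b) (J : Fin r → Fin κ) (l : Fin N), x l ≠ 0 ∧
        w (algebraMap K Λ (aeval (fun l => algebraMap R K (y l)) T.χ /
          algebraMap R K (y b) ^ T.e₁)) = 1 ∧
        (∀ i, aeval (fun l => algebraMap R K (y l)) (T.a i) ≠ 0) ∧
        minor S.F S.I₀ (fun l => algebraMap R K (y l)) J ≠ 0 ∧
        w (algebraMap K Λ ((∏ i, (aeval (fun l => algebraMap R K (y l)) (T.a i) /
          algebraMap R K (y b) ^ T.e i) ^ T.lam i) * algebraMap R K (y b))) = 1 ∧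
        w (algebraMap K Λ (algebraMap R K (y b) / algebraMap R K (x l))) ≤ 1 ∧
        1 ≤ w (a / algebraMap K Λ
            (Ψ fun i => D ℂ K (algebraMap R K (y (e' (Sum.inl i.succ))))) ^ m₀ *
          algebraMap K Λ (minor S.F S.I₀ (fun l => algebraMap R K (y l)) J ^ m₀ *
            algebraMap R K (y b) ^ (((n : ℤ) + 1 - r * ((d : ℤ) - 1)) * m₀) *
            (∏ i, aeval (fun l => algebraMap R K (y l)) (T.a i) /
              algebraMap R K (y b) ^ T.e i) ^ m₀ /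
            algebraMap R K (x l) ^ e₀))

/-- DL18. THE CERTIFICATE.
PROOF. As D18 (`D18.lean`). D2: the finitely many `w_j` at infinity. DL4: `z = ∑ c_l x_l` with
`w_j(z) = size` for all `j` (if there is no `w_j` then every `x_l` is algebraic over `L`, impossible);
`y = (1, x_1, ..., x_N, z)`, `M = N + 1`, `b` = the last index. D7 over `ℂ`: `S`, `Model`. `E₀ = 1`.
`c_fin`: DL16, `c_inf`: DL17. -/
def DL18Stmt : Prop :=
  ∀ (R K : Type) [CommRing R] [IsDomain R] [Algebra ℂ R] [Field K]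
    [Algebra R K] [IsFractionRing R K] [Algebra ℂ K] [IsScalarTower ℂ R K] (n N m₀ e₀ : ℕ)
    (Ψ : Ω[K⁄ℂ] [⋀^Fin n]→ₗ[K] K) (x : Fin N → R), Algebra.adjoin ℂ (Set.range x) = ⊤ →
    Sit Ψ (fun l => algebraMap R K (x l)) → LogSmoothEmb n (fun l => algebraMap R K (x l)) →
    ∀ (L Λ : Type) [Field L] [Field Λ] [Algebra ℂ L] [Algebra L Λ] [Algebra K Λ] [Algebra ℂ Λ]
      [IsScalarTower ℂ L Λ] [IsScalarTower ℂ K Λ] (a : Λ),
    NegCurveL Ψ (fun l => algebraMap R K (x l)) m₀ e₀ L Λ a →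
    ∃ (M κ r d E₀ : ℕ) (S : System L M κ r d) (y : Fin (M + 1) → R) (b : Fin (M + 1)) (α : Λ),
      VCertL S n m₀ e₀ E₀ (fun l => algebraMap K Λ (algebraMap R K (y l))) b α ∧
      Algebra.adjoin ℂ (Set.range y) = ⊤ ∧
      ∀ P : MvPolynomial (Fin (M + 1)) ℂ, aeval y P = 0 →
        MvPolynomial.map (algebraMap ℂ L) P ∈ Ideal.span (Set.range S.F ∪ {X 0 - 1})

/-- HL2. THE LOG MIYAOKA-MORI THEOREM for affine varieties with a log smooth closure: a covering family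
of curves which is negative for `K + D` gives `𝔸¹`-uniruledness.
PROOF. As H2 (`H2.lean`): DL18, VL, EFGL, H1. -/
def HL2Stmt : Prop :=
  ∀ (R K : Type) [CommRing R] [IsDomain R] [Algebra ℂ R] [Field K]
    [Algebra R K] [IsFractionRing R K] [Algebra ℂ K] [IsScalarTower ℂ R K] (n N m₀ e₀ : ℕ)
    (Ψ : Ω[K⁄ℂ] [⋀^Fin n]→ₗ[K] K) (x : Fin N → R), Algebra.adjoin ℂ (Set.range x) = ⊤ →
    Sit Ψ (fun l => algebraMap R K (x l)) → LogSmoothEmb n (fun l => algebraMap R K (x l)) →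
    ∀ (L Λ : Type) [Field L] [Field Λ] [Algebra ℂ L] [Algebra L Λ] [Algebra K Λ] [Algebra ℂ Λ]
      [IsScalarTower ℂ L Λ] [IsScalarTower ℂ K Λ] (a : Λ),
    NegCurveL Ψ (fun l => algebraMap R K (x l)) m₀ e₀ L Λ a → A1Uniruled R

/-- NSTMT. THE END THEOREM OF BLOCK N (algebraic Boucksom-Demailly-Paun-Peternell duality): if
`K + D` is not pseudo-effective (`m (K + D) + e H` has no sections for `e δ < m`) then there is a
covering family of curves which is negative for `K + D`. -/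
def NStmt : Prop :=
  ∀ (K : Type) [Field K] [Algebra ℂ K] (n N δ : ℕ) (Ψ : Ω[K⁄ℂ] [⋀^Fin n]→ₗ[K] K)
    (x : Fin N → K), Sit Ψ x → LogSmoothEmb n x → 1 ≤ δ →
    (∀ m e : ℕ, e * δ < m → ∀ F ∈ Sec Ψ x m e, F = 0) →
    ∃ (m₀ e₀ : ℕ) (L Λ : Type) (_ : Field L) (_ : Field Λ) (_ : Algebra ℂ L) (_ : Algebra L Λ)
      (_ : Algebra K Λ) (_ : Algebra ℂ Λ) (_ : IsScalarTower ℂ L Λ) (_ : IsScalarTower ℂ K Λ)
      (a : Λ), NegCurveL Ψ x m₀ e₀ L Λ a

/-- HL3. THE UNCONDITIONAL THEOREM: for a log smooth embedding, `X` is `𝔸¹`-uniruled if and only if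
`K + D` is not pseudo-effective.
PROOF. H4 one direction, N and HL2 the other. -/
def HL3Stmt : Prop :=
  ∀ (R K : Type) [CommRing R] [IsDomain R] [Algebra ℂ R] [Field K]
    [Algebra R K] [IsFractionRing R K] [Algebra ℂ K] [IsScalarTower ℂ R K] (n N : ℕ)
    (Ψ : Ω[K⁄ℂ] [⋀^Fin n]→ₗ[K] K) (x : Fin N → R), Algebra.adjoin ℂ (Set.range x) = ⊤ →
    Sit Ψ (fun l => algebraMap R K (x l)) → LogSmoothEmb n (fun l => algebraMap R K (x l)) →
    (A1Uniruled R ↔ ∃ δ : ℕ, 1 ≤ δ ∧ ∀ m e : ℕ, e * δ < m →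
      ∀ F ∈ Sec Ψ (fun l => algebraMap R K (x l)) m e, F = 0)

end Pool.Agent.Lib.MP_410da7_agA
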