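import Pool.Agent.Lib.MP_410da7_agA.Statement2
import Pool.Agent.Lib.MP_410da7_agA.FinalA
import Pool.Agent.Lib.MP_410da7_agA.L.SpecDL
import Pool.Agent.Lib.MP_410da7_agA.DAux

/-!
# MP_410da7_ag, smooth affine varieties (C46), version 2: from closed points to centers of valuations
-/

set_option autoImplicit false

namespace Pool.Agent.Lib.MP_410da7_agA

open MvPolynomial KaehlerDifferential WithZero Module
open Pool.Agent.Lib.MP_410da7_ag (regDiff logDiff regGens logGens A1Uniruled LogKodairaNegInf dim)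

namespace closedAux

variable {K : Type} [Field K] [Algebra ℂ K] {M : ℕ}

theorem exists_max (Y : Fin (M + 1) → K) (v : Valuation K ℤᵐ⁰) :
    ∃ b, ∀ l, v (Y l) ≤ v (Y b) := by
  obtain ⟨b, -, hb⟩ := Finset.exists_max_image (Finset.univ : Finset (Fin (M + 1)))
    (fun l => v (Y l)) ⟨0, Finset.mem_univ _⟩
  exact ⟨b, fun l => hb l (Finset.mem_univ _)⟩

theorem aeval_le {Y : Fin (M + 1) → K} {b : Fin (M + 1)} {v : Valuation K ℤᵐ⁰} (hv : Triv v)
    (h : ∀ l, v (aff Y b l) ≤ 1) (P : MvPolynomial (Fin (M + 1)) ℂ) : v (aeval (aff Y b) P) ≤ 1 := by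
  induction P using MvPolynomial.induction_on with
  | C a =>
    rw [aeval_C]
    rcases eq_or_ne a 0 with rfl | ha
    · rw [map_zero, map_zero]; exact zero_le
    · exact (hv a ha).le
  | add p q hp hq =>
    rw [map_add]
    exact (v.map_add _ _).trans (max_le hp hq)
  | mul_X p l hp =>
    rw [map_mul, aeval_X, map_mul]
    exact mul_le_one' hp (h l)

/-- A closed point in the closure of the center of `v`. -/
theorem exists_point {Y : Fin (M + 1) → K} {b : Fin (M + 1)} {v : Valuation K ℤᵐ⁰} (hv : Triv v)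
    (h : ∀ l, v (aff Y b l) ≤ 1) :
    ∃ p : Fin (M + 1) → ℂ, ∀ P : MvPolynomial (Fin (M + 1)) ℂ, eval p P ≠ 0 →
      v (aeval (aff Y b) P) = 1 := by
  let J : Ideal (MvPolynomial (Fin (M + 1)) ℂ) :=
    { carrier := {P | v (aeval (aff Y b) P) < 1}
      add_mem' := by
        intro P Q hP hQ
        simp only [Set.mem_setOf_eq, map_add] at hP hQ ⊢
        exact lt_of_le_of_lt (v.map_add _ _) (max_lt hP hQ)
      zero_mem' := by
        simp only [Set.mem_setOf_eq, map_zero]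
        exact zero_lt_one
      smul_mem' := by
        intro P Q hQ
        simp only [Set.mem_setOf_eq, smul_eq_mul, map_mul] at hQ ⊢
        calc v (aeval (aff Y b) P) * v (aeval (aff Y b) Q) ≤ 1 * v (aeval (aff Y b) Q) :=
              mul_le_mul' (aeval_le hv h P) le_rfl
          _ = v (aeval (aff Y b) Q) := one_mul _
          _ < 1 := hQ }
  have hJ : J ≠ ⊤ := by
    intro htop
    have h1 : (1 : MvPolynomial (Fin (M + 1)) ℂ) ∈ J := by rw [htop]; trivial
    have h2 : v (aeval (aff Y b) (1 : MvPolynomial (Fin (M + 1)) ℂ)) < 1 := h1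
    rw [map_one, map_one] at h2
    exact lt_irrefl _ h2
  obtain ⟨𝔪, h𝔪, hJ𝔪⟩ := Ideal.exists_le_maximal J hJ
  obtain ⟨p, hp⟩ := (isMaximal_iff_eq_vanishingIdeal_singleton (K := ℂ)).1 h𝔪
  refine ⟨p, fun P hP => ?_⟩
  by_contra hne
  have h1 : P ∈ J := lt_of_le_of_ne (aeval_le hv h P) hne
  have h2 : P ∈ 𝔪 := hJ𝔪 h1
  rw [hp, mem_vanishingIdeal_singleton_iff] at h2
  apply hP
  rw [← h2]
  exact (congrFun (congrArg DFunLike.coe (MvPolynomial.coe_aeval_eq_eval p)) P).symm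

end closedAux

open closedAux

theorem lsAt_of_chart {K : Type} [Field K] [Algebra ℂ K] {n M : ℕ} {Y : Fin (M + 1) → K}
    {b : Fin (M + 1)} {p : Fin (M + 1) → ℂ} {v : Valuation K ℤᵐ⁰} (hv : Triv v)
    (hat : AtPoint Y b p v) {z : Fin n → pointRing Y b p} {lam : Fin n → ℕ}
    (hch : IsLogChart Y b p z lam) : LSAt Y b v (fun i => (z i : K)) lam := by
  obtain ⟨hYb, hp'⟩ := hat
  have hp : ∀ P : MvPolynomial (Fin (M + 1)) ℂ, eval p P ≠ 0 → v (aeval (aff Y b) P) = 1 := hp'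
  have hs : ∀ l, v (aff Y b l) ≤ 1 := by
    intro l
    have h1 : eval p (X l - C (p l + 1) : MvPolynomial (Fin (M + 1)) ℂ) ≠ 0 := by
      rw [map_sub, eval_X, eval_C]
      intro h
      have : (1 : ℂ) = 0 := by linear_combination -h
      exact one_ne_zero this
    have h2 := hp _ h1
    rw [map_sub, aeval_X, aeval_C] at h2
    have h3 : v (algebraMap ℂ K (p l + 1)) ≤ 1 := by
      rcases eq_or_ne (p l + 1) 0 with h0 | h0
      · rw [h0, map_zero, map_zero]; exact zero_le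
      · exact (hv _ h0).le
    calc v (aff Y b l) = v ((aff Y b l - algebraMap ℂ K (p l + 1)) + algebraMap ℂ K (p l + 1)) := by
          rw [sub_add_cancel]
      _ ≤ max (v (aff Y b l - algebraMap ℂ K (p l + 1))) (v (algebraMap ℂ K (p l + 1))) :=
          v.map_add _ _
      _ ≤ 1 := max_le h2.le h3
  have hvb0 : v (Y b) ≠ 0 := by rwa [Valuation.ne_zero_iff]
  have hb : ∀ l, v (Y l) ≤ v (Y b) := by
    intro l
    have h1 : v (Y l / Y b) ≤ 1 := hs l
    rw [map_div₀] at h1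
    exact (div_le_one₀ (zero_lt_iff.2 hvb0)).1 h1
  obtain ⟨hcoord, ⟨u, hu⟩, hrad⟩ := hch
  -- the inclusion of the local rings
  have hle : ∀ f ∈ pointRing Y b p, f ∈ locRing Y b v := by
    rintro f ⟨P, Q, hQ, hf⟩
    exact ⟨P, Q, hp Q hQ, hf⟩
  have hloc1 : ∀ f ∈ locRing Y b v, v f ≤ 1 := by
    rintro f ⟨P, Q, hQ, hf⟩
    have h1 : v f * v (aeval (aff Y b) Q) = v (aeval (aff Y b) P) := by rw [← map_mul, hf]
    rw [hQ, mul_one] at h1
    rw [h1]
    exact aeval_le hv hs P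
  have hprod : (∏ i with 1 ≤ lam i, (z i : K)) = ∏ i, if lam i = 0 then 1 else (z i : K) := by
    rw [Finset.prod_filter]
    refine Finset.prod_congr rfl fun i _ => ?_
    by_cases hi : lam i = 0
    · rw [if_neg (by omega), if_pos hi]
    · rw [if_pos (by omega), if_neg hi]
  have hmem : ∀ P : MvPolynomial (Fin (M + 1)) ℂ, aeval (aff Y b) P ∈ pointRing Y b p := fun P =>
    ⟨P, 1, by rw [map_one]; exact one_ne_zero, by rw [map_one, mul_one]; rfl⟩
  have hne0 : ∀ Q : MvPolynomial (Fin (M + 1)) ℂ, v (aeval (aff Y b) Q) = 1 →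
      aeval (aff Y b) Q ≠ 0 := by
    intro Q hQ h0
    rw [h0, map_zero] at hQ
    exact zero_ne_one hQ
  have hinv : ∀ Q : MvPolynomial (Fin (M + 1)) ℂ, v (aeval (aff Y b) Q) = 1 →
      (aeval (aff Y b) Q)⁻¹ ∈ locRing Y b v := by
    intro Q hQ
    refine ⟨1, Q, hQ, ?_⟩
    rw [map_one]
    exact inv_mul_cancel₀ (hne0 Q hQ)
  refine ⟨hYb, hb, fun i => hle _ (z i).2, ?_, ?_, ?_⟩
  · -- the differentials
    let ι : pointRing Y b p →ₐ[ℂ] locRing Y b v := Subalgebra.inclusion (fun f hf => hle f hf)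
    let _ : Algebra (pointRing Y b p) (locRing Y b v) := ι.toRingHom.toAlgebra
    have : IsScalarTower ℂ (pointRing Y b p) (locRing Y b v) :=
      IsScalarTower.of_algebraMap_eq fun c => (ι.commutes c).symm
    set W : Submodule (locRing Y b v) Ω[locRing Y b v⁄ℂ] :=
      Submodule.span (locRing Y b v) {ω : Ω[locRing Y b v⁄ℂ] |
        ∃ i, ∃ h : (z i : K) ∈ locRing Y b v, ω = D ℂ (locRing Y b v) ⟨z i, h⟩} with hW
    have h1 : ∀ f : pointRing Y b p, D ℂ (locRing Y b v) (ι f) ∈ W := by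
      intro f
      have h2 : D ℂ (pointRing Y b p) f ∈ Submodule.span (pointRing Y b p)
          (Set.range fun i => D ℂ (pointRing Y b p) (z i)) := by rw [hcoord]; trivial
      have h3 : KaehlerDifferential.map ℂ ℂ (pointRing Y b p) (locRing Y b v)
          (D ℂ (pointRing Y b p) f) ∈ W := by
        refine Submodule.span_induction (p := fun ω _ =>
          KaehlerDifferential.map ℂ ℂ (pointRing Y b p) (locRing Y b v) ω ∈ W) ?_ ?_ ?_ ?_ h2
        · rintro _ ⟨i, rfl⟩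
          change KaehlerDifferential.map ℂ ℂ (pointRing Y b p) (locRing Y b v)
            (D ℂ (pointRing Y b p) (z i)) ∈ W
          rw [KaehlerDifferential.map_D]
          exact Submodule.subset_span ⟨i, hle _ (z i).2, rfl⟩
        · rw [map_zero]; exact W.zero_mem
        · intro ω ω' _ _ hω hω'
          rw [map_add]; exact W.add_mem hω hω'
        · intro c ω _ hω
          rw [map_smul, ← algebraMap_smul (locRing Y b v) c]
          exact W.smul_mem _ hω
      rw [KaehlerDifferential.map_D] at h3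
      exact h3
    rw [eq_top_iff, ← KaehlerDifferential.span_range_derivation, Submodule.span_le]
    rintro _ ⟨f, rfl⟩
    obtain ⟨P, Q, hQ, hf⟩ := f.2
    have h4 : f * ι ⟨_, hmem Q⟩ = ι ⟨_, hmem P⟩ := Subtype.ext hf
    have h5 : (D ℂ (locRing Y b v)) f =
        (⟨_, hinv Q hQ⟩ : locRing Y b v) • (D ℂ (locRing Y b v) (ι ⟨_, hmem P⟩) -
          f • D ℂ (locRing Y b v) (ι ⟨_, hmem Q⟩)) := by
      have h6 := congrArg (D ℂ (locRing Y b v)) h4
      rw [Derivation.leibniz] at h6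
      rw [← h6, add_sub_cancel_left, smul_smul]
      have h7 : (⟨_, hinv Q hQ⟩ : locRing Y b v) * ι ⟨_, hmem Q⟩ = 1 :=
        Subtype.ext (inv_mul_cancel₀ (hne0 Q hQ))
      rw [h7, one_smul]
    rw [h5]
    exact W.smul_mem _ (W.sub_mem (h1 _) (W.smul_mem _ (h1 _)))
  · -- the hyperplane section
    refine ⟨((u : pointRing Y b p) : K), hle _ (u : pointRing Y b p).2, ?_, hu⟩
    refine le_antisymm (hloc1 _ (hle _ (u : pointRing Y b p).2)) ?_
    have h1 : ((u : pointRing Y b p) : K) * (((u⁻¹ : (pointRing Y b p)ˣ) : pointRing Y b p) : K) = 1 := by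
      have h0 := congrArg (Subtype.val) (Units.mul_inv u)
      exact h0
    have h2 : v ((u : pointRing Y b p) : K) *
        v (((u⁻¹ : (pointRing Y b p)ˣ) : pointRing Y b p) : K) = 1 := by
      rw [← map_mul, h1, map_one]
    have h3 := hloc1 _ (hle _ ((u⁻¹ : (pointRing Y b p)ˣ) : pointRing Y b p).2)
    calc (1 : ℤᵐ⁰) = v ((u : pointRing Y b p) : K) *
        v (((u⁻¹ : (pointRing Y b p)ˣ) : pointRing Y b p) : K) := h2.symm
      _ ≤ v ((u : pointRing Y b p) : K) * 1 := mul_le_mul' le_rfl h3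
      _ = _ := mul_one _
  · -- the reduced boundary
    rintro f ⟨P, Q, hQ, hf⟩ m ⟨g, ⟨P', Q', hQ', hg⟩, hfg⟩
    -- `P Q'` vanishes on the boundary near `p`
    have h1 : (aeval (aff Y b) (P * Q')) ^ (m + 1) =
        aeval (aff Y b) (P * P' * Q ^ m * Q' ^ m) * (Y 0 / Y b) := by
      rw [map_mul, map_mul, map_mul, map_mul, ← hf, ← hg, map_pow, map_pow]
      have h2 : (f * aeval (aff Y b) Q * aeval (aff Y b) Q') ^ (m + 1) =
          f ^ m * (f * aeval (aff Y b) Q ^ (m + 1) * aeval (aff Y b) Q' ^ (m + 1)) := by ring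
      rw [h2, hfg]
      ring
    obtain ⟨g', hg'⟩ := hrad ⟨_, hmem (P * Q')⟩ (m + 1) ⟨⟨_, hmem (P * P' * Q ^ m * Q' ^ m)⟩, h1⟩
    have hg'' : aeval (aff Y b) (P * Q') = (g' : K) * ∏ i with 1 ≤ lam i, (z i : K) := hg'
    refine ⟨(g' : K) * ((aeval (aff Y b) Q)⁻¹ * (aeval (aff Y b) Q')⁻¹),
      mul_mem (hle _ g'.2) (mul_mem (hinv Q hQ) (hinv Q' hQ')), ?_⟩
    rw [← hprod]
    rw [map_mul] at hg''
    have hQ0 := hne0 Q hQ
    have hQ0' := hne0 Q' hQ'
    have h3 : f = aeval (aff Y b) P * (aeval (aff Y b) Q)⁻¹ := by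
      rw [← hf, mul_assoc, mul_inv_cancel₀ hQ0, mul_one]
    rw [h3]
    calc aeval (aff Y b) P * (aeval (aff Y b) Q)⁻¹
        = (aeval (aff Y b) P * aeval (aff Y b) Q') *
            ((aeval (aff Y b) Q)⁻¹ * (aeval (aff Y b) Q')⁻¹) := by
          field_simp
      _ = _ := by rw [hg'']; ring

/-- Every valuation is centered near some closed point. -/
theorem exists_atPoint {K : Type} [Field K] [Algebra ℂ K] {N : ℕ} (x : Fin N → K)
    {v : Valuation K ℤᵐ⁰} (hv : Triv v) :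
    ∃ (b : Fin (N + 1)) (p : Fin (N + 1) → ℂ), AtPoint (cons1 x) b p v ∧ IsPoint (cons1 x) b p := by
  obtain ⟨b, hb⟩ := exists_max (cons1 x) v
  have hY0 : cons1 x 0 = 1 := rfl
  have hvb : 1 ≤ v (cons1 x b) := by
    have := hb 0
    rwa [hY0, map_one] at this
  have hvb0 : v (cons1 x b) ≠ 0 := by
    intro h0
    rw [h0] at hvb
    exact absurd hvb (not_le.2 zero_lt_one)
  have hYb : cons1 x b ≠ 0 := fun h0 => hvb0 (by rw [h0, map_zero])
  have hs : ∀ l, v (aff (cons1 x) b l) ≤ 1 := by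
    intro l
    change v (cons1 x l / cons1 x b) ≤ 1
    rw [map_div₀]
    exact div_le_one_of_le₀ (hb l) zero_le
  obtain ⟨p, hp⟩ := exists_point hv hs
  refine ⟨b, p, ⟨hYb, hp⟩, hYb, fun P hP => ?_⟩
  by_contra hne
  have h1 := hp P hne
  have h2 : aeval (aff (cons1 x) b) P = 0 := hP
  rw [h2, map_zero] at h1
  exact zero_ne_one h1

section

variable {R K : Type} [CommRing R] [IsDomain R] [Algebra ℂ R] [Field K]
  [Algebra R K] [IsFractionRing R K] [Algebra ℂ K] [IsScalarTower ℂ R K] {n N : ℕ}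

theorem logSmoothEmb_of_closed (x : Fin N → R) (hc : LogSmoothClosure K n x) :
    LogSmoothEmb n (fun l => algebraMap R K (x l)) := by
  intro v hv
  obtain ⟨b, p, hat, hpt⟩ := exists_atPoint (fun l => algebraMap R K (x l)) hv
  obtain ⟨z, lam, hch⟩ := hc b p hpt
  exact ⟨b, fun i => (z i : K), lam, lsAt_of_chart hv hat hch⟩

theorem negCurveL_of_negFamily (hdl6 : DL6Stmt) (x : Fin N → R) (hc : LogSmoothClosure K n x)
    (Ψ : Ω[K⁄ℂ] [⋀^Fin n]→ₗ[K] K) (m₀ e₀ : ℕ) (L Λ : Type) [Field L] [Field Λ] [Algebra ℂ L]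
    [Algebra L Λ] [Algebra K Λ] [Algebra ℂ Λ] [IsScalarTower ℂ L Λ] [IsScalarTower ℂ K Λ] (a : Λ)
    (h : NegFamily Ψ x m₀ e₀ L Λ a) :
    NegCurveL Ψ (fun l => algebraMap R K (x l)) m₀ e₀ L Λ a := by
  refine ⟨h.m0, h.e0, h.a0, h.trdeg, h.fg, h.gen, ?_⟩
  intro w hw b z lam hls
  have hv : Triv (w.comap (algebraMap K Λ)) := DAux.triv_comap hw
  obtain ⟨b', p, hat, hpt⟩ := exists_atPoint (fun l => algebraMap R K (x l)) hv
  obtain ⟨z', lam', hch⟩ := hc b' p hpt
  have hls' := lsAt_of_chart hv hat hch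
  rw [hdl6 K n N Ψ (cons1 fun l => algebraMap R K (x l)) b b' _ z (fun i => (z' i : K)) lam lam'
    hv hls hls']
  have h1 := h.neg w hw b' p z' lam' hat hch
  have hprod : (∏ i with 1 ≤ lam' i, w (algebraMap K Λ (z' i : K))) =
      ∏ i, if lam' i = 0 then 1 else w (algebraMap K Λ (z' i : K)) := by
    rw [Finset.prod_filter]
    refine Finset.prod_congr rfl fun i _ => ?_
    by_cases hi : lam' i = 0
    · rw [if_neg (by omega), if_pos hi]
    · rw [if_pos (by omega), if_neg hi]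
  have hne : (∏ i, if lam' i = 0 then 1 else w (algebraMap K Λ (z' i : K))) ≠ 0 := by
    obtain ⟨u, -, hu1, hu2⟩ := hls'.bd
    have hY : (cons1 (fun l => algebraMap R K (x l)) 0 : K) ≠ 0 := one_ne_zero
    have h2 : (∏ i, (z' i : K) ^ lam' i) ≠ 0 := by
      intro h0
      rw [h0, mul_zero] at hu2
      exact (div_ne_zero hY hls'.ne) hu2
    refine Finset.prod_ne_zero_iff.2 fun i _ => ?_
    by_cases hi : lam' i = 0
    · rw [if_pos hi]; exact one_ne_zero
    · rw [if_neg hi]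
      have h3 := Finset.prod_ne_zero_iff.1 h2 i (Finset.mem_univ _)
      have h4 : (z' i : K) ≠ 0 := fun h0 => h3 (by rw [h0, zero_pow hi])
      rw [Valuation.ne_zero_iff]
      exact (map_ne_zero _).2 h4
  rw [hprod] at h1
  rw [kSize, div_pow, mul_div_assoc']
  exact (div_le_iff₀ (zero_lt_iff.2 (pow_ne_zero _ hne))).2 h1

theorem negFamily_of_negCurveL (x : Fin N → R)
    (Ψ : Ω[K⁄ℂ] [⋀^Fin n]→ₗ[K] K) (m₀ e₀ : ℕ) (L Λ : Type) [Field L] [Field Λ] [Algebra ℂ L]
    [Algebra L Λ] [Algebra K Λ] [Algebra ℂ Λ] [IsScalarTower ℂ L Λ] [IsScalarTower ℂ K Λ] (a : Λ)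
    (h : NegCurveL Ψ (fun l => algebraMap R K (x l)) m₀ e₀ L Λ a) :
    NegFamily Ψ x m₀ e₀ L Λ a := by
  refine ⟨h.m0, h.e0, h.a0, h.trdeg, h.fg, h.gen, ?_⟩
  intro w hw b p z lam hat hch
  have hv : Triv (w.comap (algebraMap K Λ)) := DAux.triv_comap hw
  have hls := lsAt_of_chart hv hat hch
  have h1 := h.neg w hw b (fun i => (z i : K)) lam hls
  have hprod : (∏ i with 1 ≤ lam i, w (algebraMap K Λ (z i : K))) =
      ∏ i, if lam i = 0 then 1 else w (algebraMap K Λ (z i : K)) := by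
    rw [Finset.prod_filter]
    refine Finset.prod_congr rfl fun i _ => ?_
    by_cases hi : lam i = 0
    · rw [if_neg (by omega), if_pos hi]
    · rw [if_pos (by omega), if_neg hi]
  have hne : (∏ i, if lam i = 0 then 1 else w (algebraMap K Λ (z i : K))) ≠ 0 := by
    obtain ⟨u, -, hu1, hu2⟩ := hls.bd
    have hY : (homCoord K x 0 : K) ≠ 0 := one_ne_zero
    have h2 : (∏ i, (z i : K) ^ lam i) ≠ 0 := by
      intro h0
      rw [h0, mul_zero] at hu2
      exact (div_ne_zero hY hls.ne) hu2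
    refine Finset.prod_ne_zero_iff.2 fun i _ => ?_
    by_cases hi : lam i = 0
    · rw [if_pos hi]; exact one_ne_zero
    · rw [if_neg hi]
      have h3 := Finset.prod_ne_zero_iff.1 h2 i (Finset.mem_univ _)
      have h4 : (z i : K) ≠ 0 := fun h0 => h3 (by rw [h0, zero_pow hi])
      rw [Valuation.ne_zero_iff]
      exact (map_ne_zero _).2 h4
  rw [kSize, div_pow, mul_div_assoc'] at h1
  rw [hprod]
  exact (div_le_iff₀ (zero_lt_iff.2 (pow_ne_zero _ hne))).1 h1

end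

/-- The theorem for log smooth closures. -/
theorem criterion (h4 : H4Stmt) (hN : NStmt) (hl2 : HL2Stmt) (hdl6 : DL6Stmt)
    (R K : Type) [CommRing R] [IsDomain R] [Algebra ℂ R] [Field K]
    [Algebra R K] [IsFractionRing R K] [Algebra ℂ K] [IsScalarTower ℂ R K] {N : ℕ} (x : Fin N → R)
    (hx : Algebra.adjoin ℂ (Set.range x) = ⊤) (hc : LogSmoothClosure K (dim R) x)
    (Ψ : Ω[K⁄ℂ] [⋀^Fin (dim R)]→ₗ[K] K) (hΨ : Ψ ≠ 0) :
    List.TFAE [A1Uniruled R, NotPseudoEffective Ψ x,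
      ∃ (m₀ e₀ : ℕ) (L Λ : Type) (_ : Field L) (_ : Field Λ) (_ : Algebra ℂ L) (_ : Algebra L Λ)
        (_ : Algebra K Λ) (_ : Algebra ℂ Λ) (_ : IsScalarTower ℂ L Λ) (_ : IsScalarTower ℂ K Λ)
        (a : Λ), NegFamily Ψ x m₀ e₀ L Λ a] := by
  have hsit := sit_of x hx Ψ hΨ
  have hls := logSmoothEmb_of_closed x hc
  tfae_have 1 → 2 := by
    intro h
    obtain ⟨δ, h1, h2⟩ := h4 R K (dim R) N Ψ x hx hsit h
    exact ⟨δ, h1, fun m e hme F hF => h2 m e hme F ((mem_sec_iff Ψ x hx m e F).2 hF)⟩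
  tfae_have 2 → 3 := by
    rintro ⟨δ, h1, h2⟩
    obtain ⟨m₀, e₀, L, Λ, i1, i2, i3, i4, i5, i6, i7, i8, a, ha⟩ :=
      hN K (dim R) N δ Ψ _ hsit hls h1 fun m e hme F hF => h2 m e hme F
        ((mem_sec_iff Ψ x hx m e F).1 hF)
    exact ⟨m₀, e₀, L, Λ, i1, i2, i3, i4, i5, i6, i7, i8, a,
      negFamily_of_negCurveL x Ψ m₀ e₀ L Λ a ha⟩
  tfae_have 3 → 1 := by
    rintro ⟨m₀, e₀, L, Λ, i1, i2, i3, i4, i5, i6, i7, i8, a, ha⟩
    exact hl2 R K (dim R) N m₀ e₀ Ψ x hx hsit hls L Λ a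
      (negCurveL_of_negFamily hdl6 x hc Ψ m₀ e₀ L Λ a ha)
  tfae_finish

end Pool.Agent.Lib.MP_410da7_agA
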