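import Pool.Agent.Lib.MP_410da7_agA.L.SpecDL
import Pool.Agent.Lib.MP_410da7_agA.D18Aux

/-!
# MP_410da7_ag, C46 version 2: DL18, the certificate (the end of block D)
-/

set_option autoImplicit false

namespace Pool.Agent.Lib.MP_410da7_agA

open MvPolynomial KaehlerDifferential WithZero Module

namespace dL18Aux

/-- Base change of the relation at infinity. -/
noncomputable def logMapL {M κ r d : ℕ} {S : System ℂ M κ r d} {b : Fin (M + 1)}
    (T : LogPolyL S.F b) (L : Type) [Field L] [Algebra ℂ L] : LogPolyL (S.map L).F b where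
  s := T.s
  a := fun i => MvPolynomial.map (algebraMap ℂ L) (T.a i)
  χ := MvPolynomial.map (algebraMap ℂ L) T.χ
  q := MvPolynomial.map (algebraMap ℂ L) T.q
  e := T.e
  lam := T.lam
  e₁ := T.e₁
  e₂ := T.e₂
  N := T.N
  E := T.E
  ha := fun i => (T.ha i).map _
  hχ := T.hχ.map _
  hq := T.hq.map _
  deg := T.deg
  rel := by
    have h := Ideal.mem_map_of_mem (MvPolynomial.map (algebraMap ℂ L)) T.rel
    rw [Ideal.map_span, ← Set.range_comp] at h
    simp only [map_sub, map_mul, map_pow, map_prod, MvPolynomial.map_X] at h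
    exact h

/-- The coordinates `(1, x_1, ..., x_N, z)`. -/
def yy {R : Type} [CommRing R] {N : ℕ} (x : Fin N → R) (z : R) : Fin (N + 1 + 1) → R :=
  Fin.snoc (Fin.cons 1 x : Fin (N + 1) → R) z

lemma yy_last {R : Type} [CommRing R] {N : ℕ} (x : Fin N → R) (z : R) :
    yy x z (Fin.last (N + 1)) = z := by
  rw [yy, Fin.snoc_last]

lemma yy_cast {R : Type} [CommRing R] {N : ℕ} (x : Fin N → R) (z : R) (l : Fin (N + 1)) :
    yy x z l.castSucc = (Fin.cons 1 x : Fin (N + 1) → R) l := by
  rw [yy, Fin.snoc_castSucc]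

lemma yy_zero {R : Type} [CommRing R] {N : ℕ} (x : Fin N → R) (z : R) : yy x z 0 = 1 := by
  have h := yy_cast x z 0
  rwa [Fin.castSucc_zero, Fin.cons_zero] at h

lemma yy_x {R : Type} [CommRing R] {N : ℕ} (x : Fin N → R) (z : R) (l : Fin N) :
    yy x z l.succ.castSucc = x l := by
  rw [yy_cast, Fin.cons_succ]

lemma yy_comb {R : Type} [CommRing R] [Algebra ℂ R] {N : ℕ} (x : Fin N → R) (c : Fin N → ℂ)
    (l' : Fin (N + 1 + 1)) : ∃ c' : Fin (N + 1) → ℂ, yy x (∑ l, c l • x l) l' =
      ∑ l, c' l • (Fin.cons 1 x : Fin (N + 1) → R) l := by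
  classical
  refine Fin.lastCases ?_ (fun l => ?_) l'
  · refine ⟨Fin.cons 0 c, ?_⟩
    rw [yy_last, Fin.sum_univ_succ, Fin.cons_zero, zero_smul, zero_add]
    refine Finset.sum_congr rfl fun l _ => ?_
    rw [Fin.cons_succ, Fin.cons_succ]
  · refine ⟨Pi.single l 1, ?_⟩
    rw [yy_cast, Finset.sum_eq_single l]
    · rw [Pi.single_eq_same, one_smul]
    · intro i _ hi
      rw [Pi.single_eq_of_ne hi, zero_smul]
    · intro h
      exact absurd (Finset.mem_univ l) h

end dL18Aux

open DAux d18Aux dL18Aux in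
theorem dL18 (_hd1 : D1Stmt) (hd2 : D2Stmt) (hd5 : D5Stmt) (hd7 : D7Stmt) (hd9 : D9Stmt)
    (hd10 : D10Stmt) (hdl4 : DL4Stmt) (hdl16 : DL16Stmt) (hdl17 : DL17Stmt) : DL18Stmt := by
  intro R K _ _ _ _ _ _ _ _ n N m₀ e₀ Ψ x hx hsit hls L Λ _ _ _ _ _ _ _ _ a hN
  have : CharZero L := charZero_of_injective_algebraMap (algebraMap ℂ L).injective
  obtain ⟨s, w, hw1, hwinf, hwall⟩ := hd2 L Λ hN.trdeg hN.fg N
    (fun l => algebraMap K Λ (algebraMap R K (x l)))
  obtain ⟨l₁, hl₁⟩ := exists_transcendental hsit.gen hN.gen hN.trdeg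
  have hncent : ∀ j, ¬ Cent (fun l => algebraMap R K (x l)) ((w j).comap (algebraMap K Λ)) := by
    intro j h
    obtain ⟨l, hl⟩ := hwinf j
    exact absurd (h l) (not_le.2 hl)
  obtain ⟨c, hc⟩ := hdl4 K N s (fun l => algebraMap R K (x l))
    (fun j => (w j).comap (algebraMap K Λ)) (fun j => triv_comap (hw1 j)) hncent
  set z : R := ∑ l, c l • x l with hz
  have hzK : algebraMap R K z = ∑ l, c l • algebraMap R K (x l) := by
    rw [hz, map_sum]
    refine Finset.sum_congr rfl fun l _ => ?_
    rw [← IsScalarTower.toAlgHom_apply ℂ R K, map_smul, IsScalarTower.toAlgHom_apply]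
  have hzv : ∀ j, w j (algebraMap K Λ (algebraMap R K z)) =
      size (fun l => algebraMap R K (x l)) ((w j).comap (algebraMap K Λ)) := by
    intro j
    rw [hzK]
    exact hc j
  have hxsize : ∀ j l, w j (algebraMap K Λ (algebraMap R K (x l))) ≤
      size (fun l => algebraMap R K (x l)) ((w j).comap (algebraMap K Λ)) := fun j l =>
    le_trans (Finset.le_sup (f := fun l => (w j).comap (algebraMap K Λ) (algebraMap R K (x l)))
      (Finset.mem_univ l)) le_sup_left
  have h1size : ∀ j, 1 ≤
      size (fun l => algebraMap R K (x l)) ((w j).comap (algebraMap K Λ)) := fun j =>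
    le_sup_right
  -- the places
  have hVx : ∀ V : ValuationSubring Λ, (∀ c : L, algebraMap L Λ c ∈ V) →
      algebraMap K Λ (algebraMap R K z) ∈ V →
      ∀ l, algebraMap K Λ (algebraMap R K (x l)) ∈ V := by
    intro V hV hyV
    by_contra hcon
    push Not at hcon
    obtain ⟨j, hj⟩ := hwall V hV hcon
    obtain ⟨l, hl⟩ := hcon
    rw [hj, not_le] at hl
    have h2 := (hj _).1 hyV
    rw [hzv] at h2
    exact absurd h2 (not_le.2 (lt_of_lt_of_le hl (hxsize j l)))
  have htrans : Transcendental L (algebraMap K Λ (algebraMap R K z)) := by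
    intro halg
    rw [← mem_all_iff] at halg
    apply hl₁
    rw [← mem_all_iff]
    intro V hV
    exact hVx V hV (halg V hV) l₁
  have hz0 : z ≠ 0 := by
    intro h
    rw [h, map_zero, map_zero] at htrans
    exact htrans isAlgebraic_zero
  -- the model
  set M : ℕ := N + 1 with hMdef
  set y : Fin (M + 1) → R := yy x z with hy
  set b : Fin (M + 1) := Fin.last M with hb
  have hyb' : y b = z := yy_last x z
  have hy0 : y 0 = 1 := yy_zero x z
  have hxy : ∀ l, ∃ l', y l' = x l := fun l => ⟨_, yy_x x z l⟩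
  have hyb : y b ≠ 0 := by rw [hyb']; exact hz0
  have hcomb : ∀ l', ∃ c : Fin (N + 1) → ℂ, y l' =
      ∑ l, c l • (Fin.cons 1 x : Fin (N + 1) → R) l := yy_comb x c
  have hyK : IntermediateField.adjoin ℂ (Set.range fun l => algebraMap R K (y l)) = ⊤ := by
    rw [eq_top_iff, ← hsit.gen]
    refine IntermediateField.adjoin.mono _ _ _ ?_
    rintro _ ⟨l, rfl⟩
    obtain ⟨l', hl'⟩ := hxy l
    exact ⟨l', congrArg _ hl'⟩
  have hY0 : (fun l => algebraMap R K (y l)) 0 = 1 := by
    show algebraMap R K (y 0) = 1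
    rw [hy0, map_one]
  have hmax : ∀ j l, w j (algebraMap K Λ (algebraMap R K (y l))) ≤
      w j (algebraMap K Λ (algebraMap R K (y b))) := by
    intro j l
    rw [hyb', hzv]
    refine Fin.lastCases ?_ (fun l => ?_) l
    · rw [← hb, hyb', hzv]
    · have h1 : y l.castSucc = (Fin.cons 1 x : Fin (N + 1) → R) l := yy_cast x z l
      rw [h1]
      refine Fin.cases ?_ (fun l => ?_) l
      · rw [Fin.cons_zero, map_one, map_one, map_one]
        exact h1size j
      · rw [Fin.cons_succ]
        exact hxsize j l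
  clear hy hb
  clear_value y b M
  obtain ⟨κ, r, d, S, hM, heqs, hI, hI0, hg, hJ0⟩ := hd7 ℂ K n M (fun l => algebraMap R K (y l))
    hY0 hyK hsit.trdeg
  have hm : Model R K n x y b S := ⟨hy0, hyb, hxy, hM, heqs, hI, hI0, hg, hJ0⟩
  obtain ⟨e', he'0, he'I⟩ := exists_enum' hM S.I₀ hI hI0
  have hΨ0 := psi_ne hd9 hd10 hsit.trdeg hM Ψ hsit.Ψ0 heqs.hom heqs.zero hY0 hyK he'0
    (by rw [he'I]; exact hJ0)
  have hybK : algebraMap R K (y b) ≠ 0 := by
    intro h
    exact hyb ((map_eq_zero_iff _ (IsFractionRing.injective R K)).1 h)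
  have hKΛ : ∀ f : K, f ≠ 0 → algebraMap K Λ f ≠ 0 := fun f hf h =>
    hf ((map_eq_zero_iff _ (algebraMap K Λ).injective).1 h)
  rw [← hyb'] at hVx htrans
  have hVy : ∀ V : ValuationSubring Λ, (∀ c : L, algebraMap L Λ c ∈ V) →
      algebraMap K Λ (algebraMap R K (y b)) ∉ V → ∃ j, ∀ f, f ∈ V ↔ w j f ≤ 1 := by
    intro V hV hyV
    refine hwall V hV ?_
    by_contra hcon
    push Not at hcon
    exact hyV (mem_of_coord hx hV hcon _)
  refine ⟨M, κ, r, d, 1, S.map L, y, b,
    a / algebraMap K Λ (Ψ fun i => D ℂ K (algebraMap R K (y (e' (Sum.inl i.succ))))) ^ m₀,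
    ?_, adjoin_y hx hm, ?_⟩
  · constructor
    · exact hM
    · show algebraMap K Λ (algebraMap R K (y 0)) = 1
      rw [hy0, map_one, map_one]
    · intro j
      have h := aeval_map_L (L := L) (Λ := Λ) (fun l => algebraMap R K (y l)) (S.F j)
      rw [heqs.zero j, map_zero] at h
      exact h
    · have h := aeval_map_L (L := L) (Λ := Λ) (fun l => algebraMap R K (y l)) S.g
      intro h0
      exact hKΛ _ hg (h.symm.trans h0)
    · have h := minor_map_L (L := L) (Λ := Λ) S.F S.I₀ (fun l => algebraMap R K (y l)) S.J₀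
      intro h0
      exact hKΛ _ hJ0 (h.symm.trans h0)
    · exact htrans
    · exact finite_of_transcendental hN.trdeg hN.fg htrans
    · exact hN.m0
    · exact hN.e0
    · exact div_ne_zero hN.a0 (pow_ne_zero _ (hKΛ _ hΨ0))
    · intro V hV hyV l
      exact mem_of_coord hx hV (hVx V hV hyV) _
    · intro V hV hyV l
      obtain ⟨j, hj⟩ := hVy V hV hyV
      rw [hj, map_div₀]
      exact div_le_one_of_le₀ (hmax j l) zero_le
    · intro V hV hyV
      obtain ⟨J, j1, j2⟩ := hdl16 R K n N M κ r d m₀ e₀ Ψ x y b S hx hsit hm hcomb hls L Λ a hN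
        e' he'0 he'I V hV (hVx V hV hyV)
      have h := minor_map_L (L := L) (Λ := Λ) S.F S.I₀ (fun l => algebraMap R K (y l)) J
      refine ⟨J, fun h0 => hKΛ _ j1 (h.symm.trans h0), ?_⟩
      have h' : minor (S.map L).F (S.map L).I₀
          (fun l => algebraMap K Λ (algebraMap R K (y l))) J =
          algebraMap K Λ (minor S.F S.I₀ (fun l => algebraMap R K (y l)) J) := h
      rw [h']
      exact j2
    · intro V hV hyV
      obtain ⟨j, hj⟩ := hVy V hV hyV
      obtain ⟨T, J, l, t1, t2, t3, t4, t5, t6, t7⟩ := hdl17 R K n N M κ r d m₀ e₀ Ψ x y b S hx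
        hsit hm hcomb hls L Λ a hN e' he'0 he'I (w j) (hw1 j) (hwinf j) (by rw [hyb', hzv])
      have h1 : minor (S.map L).F (S.map L).I₀
          (fun l => algebraMap K Λ (algebraMap R K (y l))) J =
          algebraMap K Λ (minor S.F S.I₀ (fun l => algebraMap R K (y l)) J) :=
        minor_map_L (L := L) (Λ := Λ) S.F S.I₀ (fun l => algebraMap R K (y l)) J
      have h2 : aeval (fun l => algebraMap K Λ (algebraMap R K (y l))) (logMapL T L).χ =
          algebraMap K Λ (aeval (fun l => algebraMap R K (y l)) T.χ) :=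
        aeval_map_L (L := L) (Λ := Λ) (fun l => algebraMap R K (y l)) T.χ
      have h3 : ∀ i : Fin T.s, aeval (fun l => algebraMap K Λ (algebraMap R K (y l)))
          ((logMapL T L).a i) = algebraMap K Λ (aeval (fun l => algebraMap R K (y l)) (T.a i)) :=
        fun i => aeval_map_L (L := L) (Λ := Λ) (fun l => algebraMap R K (y l)) (T.a i)
      have hχ0 : aeval (fun l => algebraMap R K (y l)) T.χ ≠ 0 := by
        intro h0
        rw [h0, zero_div, map_zero, map_zero] at t2
        exact zero_ne_one t2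
      refine ⟨logMapL T L, J, algebraMap K Λ (algebraMap R K (x l)), ?_, ?_, ?_, ?_, ?_, ?_, ?_, ?_⟩
      · apply hKΛ
        intro h
        exact t1 ((map_eq_zero_iff _ (IsFractionRing.injective R K)).1 h)
      · rw [h2]
        exact hKΛ _ hχ0
      · intro i
        rw [h3 i]
        exact hKΛ _ (t3 i)
      · rw [h1]
        exact hKΛ _ t4
      · rw [hj, h2, map_inv₀]
        have h4 : algebraMap K Λ (aeval (fun l => algebraMap R K (y l)) T.χ) /
            algebraMap K Λ (algebraMap R K (y b)) ^ (logMapL T L).e₁ =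
            algebraMap K Λ (aeval (fun l => algebraMap R K (y l)) T.χ /
              algebraMap R K (y b) ^ T.e₁) := by
          rw [map_div₀, map_pow]
          rfl
        rw [h4, t2, inv_one]
      · have h5 : (∏ i : Fin (logMapL T L).s,
            aeval (fun l => algebraMap K Λ (algebraMap R K (y l))) ((logMapL T L).a i) /
            algebraMap K Λ (algebraMap R K (y b)) ^ (logMapL T L).e i) =
            algebraMap K Λ (∏ i : Fin T.s, aeval (fun l => algebraMap R K (y l)) (T.a i) /
              algebraMap R K (y b) ^ T.e i) := by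
          rw [map_prod]
          refine Finset.prod_congr rfl fun i _ => ?_
          rw [h3 i, map_div₀, map_pow]
          rfl
        have h4 : tauL (S.map L) n m₀ e₀ (fun l => algebraMap K Λ (algebraMap R K (y l))) b
            (a / algebraMap K Λ
              (Ψ fun i => D ℂ K (algebraMap R K (y (e' (Sum.inl i.succ))))) ^ m₀)
            (logMapL T L) J (algebraMap K Λ (algebraMap R K (x l))) =
            a / algebraMap K Λ
              (Ψ fun i => D ℂ K (algebraMap R K (y (e' (Sum.inl i.succ))))) ^ m₀ *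
            algebraMap K Λ (minor S.F S.I₀ (fun l => algebraMap R K (y l)) J ^ m₀ *
              algebraMap R K (y b) ^ (((n : ℤ) + 1 - r * ((d : ℤ) - 1)) * m₀) *
              (∏ i, aeval (fun l => algebraMap R K (y l)) (T.a i) /
                algebraMap R K (y b) ^ T.e i) ^ m₀ /
              algebraMap R K (x l) ^ e₀) := by
          rw [tauL, h1, h5, map_div₀ (algebraMap K Λ) (_ * _ * _), map_mul (algebraMap K Λ) (_ * _),
            map_mul (algebraMap K Λ) (_ ^ m₀), map_pow, map_zpow₀, map_pow, map_pow]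
          rw [mul_div_assoc']
          congr 1
          simp only [mul_assoc]
        rw [hj, h4, map_inv₀]
        exact inv_le_one_of_one_le₀ t7
      · have h5 : (∏ i : Fin (logMapL T L).s,
            (aeval (fun l => algebraMap K Λ (algebraMap R K (y l))) ((logMapL T L).a i) /
            algebraMap K Λ (algebraMap R K (y b)) ^ (logMapL T L).e i) ^ (logMapL T L).lam i) =
            algebraMap K Λ (∏ i : Fin T.s, (aeval (fun l => algebraMap R K (y l)) (T.a i) /
              algebraMap R K (y b) ^ T.e i) ^ T.lam i) := by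
          rw [map_prod]
          refine Finset.prod_congr rfl fun i _ => ?_
          rw [h3 i, map_pow, map_div₀, map_pow]
          rfl
        rw [hj, h5, ← map_mul, t5]
      · rw [hj, pow_one, ← map_div₀]
        exact t6
  · intro P hP
    have hPK : aeval (fun l => algebraMap R K (y l)) P = 0 := by
      have h := comp_aeval_apply y (IsScalarTower.toAlgHom ℂ R K) P
      rw [hP, map_zero] at h
      exact h.symm
    obtain ⟨g1, g2⟩ := hd5 ℂ K M 0 P.totalDegree P le_rfl
    have hY0' : algebraMap R K (y 0) = 1 := hY0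
    have haff : aff (fun l => algebraMap R K (y l)) 0 = fun l => algebraMap R K (y l) := by
      funext l
      rw [aff, hY0', div_one]
    have h0 := g2 (fun l => algebraMap R K (y l)) (by rw [hY0']; exact one_ne_zero)
    rw [haff, hPK, mul_zero] at h0
    have h1 := heqs.gen _ _ g1 h0 0
    have h2 := hom_congr d P.totalDegree P
    have h3 : P = (P - X 0 ^ d * hom 0 P.totalDegree P) + X 0 ^ d * hom 0 P.totalDegree P := by
      ring
    rw [h3, map_add]
    refine Ideal.add_mem _ ?_ ?_
    · have h4 := Ideal.mem_map_of_mem (MvPolynomial.map (algebraMap ℂ L)) h2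
      rw [Ideal.map_span, Set.image_singleton, map_sub, MvPolynomial.map_X, map_one] at h4
      exact Ideal.span_mono (Set.subset_union_right) h4
    · have h4 := Ideal.mem_map_of_mem (MvPolynomial.map (algebraMap ℂ L)) h1
      rw [Ideal.map_span, ← Set.range_comp] at h4
      exact Ideal.span_mono (Set.subset_union_left) h4

end Pool.Agent.Lib.MP_410da7_agA
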