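import Pool.Agent.Lib.MP_410da7_agA.VCert
import Pool.Agent.Lib.MP_410da7_agA.SpecD

/-!
# MP_410da7_ag, smooth affine varieties (C46), version 2: several boundary components

The curve may meet the boundary in points of any codimension of a log smooth compactification. Hence
the logarithmic relation `x_0 χ^N x_b^E = ∏ a_i^{λ_i} q` has several factors `a_i`. Everything else is
as in `SpecF`, `Cert`, `VCert`.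
-/

set_option autoImplicit false

namespace Pool.Agent.Lib.MP_410da7_agA

open MvPolynomial Module

/-- A relation `x_0 χ^N x_b^E = ∏ a_i^{λ_i} q` modulo the `F j`, homogeneous. -/
structure LogPolyL {k : Type} [Field k] {M κ : ℕ} (F : Fin κ → MvPolynomial (Fin (M + 1)) k)
    (b₀ : Fin (M + 1)) where
  s : ℕ
  a : Fin s → MvPolynomial (Fin (M + 1)) k
  χ : MvPolynomial (Fin (M + 1)) k
  q : MvPolynomial (Fin (M + 1)) k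
  e : Fin s → ℕ
  lam : Fin s → ℕ
  e₁ : ℕ
  e₂ : ℕ
  N : ℕ
  E : ℕ
  ha : ∀ i, (a i).IsHomogeneous (e i)
  hχ : χ.IsHomogeneous e₁
  hq : q.IsHomogeneous e₂
  deg : 1 + N * e₁ + E = ∑ i, lam i * e i + e₂
  rel : X 0 * χ ^ N * X b₀ ^ E - (∏ i, a i ^ lam i) * q ∈ Ideal.span (Set.range F)

/-- `PtData` with relations with several factors: at `w` with `P_w > 0` the value `a_i(Y)` has order at
least `μ'_i - e_i P_w`, `∑ μ'_i ≤ μ_w`, `P_w ≤ ∑ λ_i μ'_i`. -/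
structure PtDataL {k Λ : Type} [Field k] [Field Λ] [Algebra k Λ] (C : Curve k Λ) {M κ r d : ℕ}
    (S : System k M κ r d) (Y : Fin (M + 1) → Λ) (P ℓ μ : C.pt → ℤ) (b₀ : Fin (M + 1)) : Prop where
  Y0 : Y 0 = 1
  YF : ∀ j, aeval Y (S.F j) = 0
  gY : aeval Y S.g ≠ 0
  mY : minor S.F S.I₀ Y S.J₀ ≠ 0
  P0 : ∀ w, 0 ≤ P w
  Pfin : {w | P w ≠ 0}.Finite
  YP : ∀ l, Y l ∈ C.L P
  Yb : ∀ w, 0 < P w → Y b₀ ≠ 0 ∧ C.ord w (Y b₀) = - P w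
  ℓfin : {w | ℓ w ≠ 0}.Finite
  hℓ : ∀ w, ∃ J : Fin r → Fin κ, minor S.F S.I₀ Y J ≠ 0 ∧
    C.ord w (minor S.F S.I₀ Y J) + r * ((d : ℤ) - 1) * P w ≤ ℓ w
  μ0 : ∀ w, 0 ≤ μ w
  μP : ∀ w, P w = 0 → μ w = 0
  log : ∀ w, 0 < P w → ∃ (T : LogPolyL S.F b₀) (μ' : Fin T.s → ℕ), ∑ i, (μ' i : ℤ) ≤ μ w ∧
    aeval Y T.χ ≠ 0 ∧ C.ord w (aeval Y T.χ) = - (T.e₁ * P w) ∧
    (∀ i, ∀ j < (μ' i : ℤ) - T.e i * P w, C.cf w j (aeval Y (T.a i)) = 0) ∧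
    P w ≤ ∑ i, (T.lam i : ℤ) * μ' i

/-- F13L. As F13 (`F13.lean`), with several factors.
PROOF. The proof of `f13`: now `ev(x_0(h)) ev(χ(h))^N ev(x_b(h))^E = ∏ ev(a_i(h))^{λ_i} ev(q(h))`,
`ev(a_i(h))` has order at least `μ'_i - e_i P_w`, so `ev(x_0(h))` has order at least
`∑ λ_i μ'_i - P_w ≥ 0`, or one of the factors vanishes and `x_0(h)` does. -/
def F13LStmt : Prop :=
  ∀ (k Λ : Type) [Field k] [Field Λ] [Algebra k Λ] (C : Curve k Λ) (M κ r d b D : ℕ)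
    (S : System k M κ r d) (Y : Fin (M + 1) → Λ) (P ℓ μ : C.pt → ℤ) (b₀ : Fin (M + 1)),
    PtDataL C S Y P ℓ μ b₀ → ∀ (c : Fin b → C.pt), Function.Injective c → 0 < b →
    (∀ i, P (c i) = 0) → ∀ (ω : Fin D → Λ), LinearIndependent k ω →
    (∀ j, ω j ∈ C.L (P - ptDiv c)) →
    ∀ (𝔓 : Ideal (MvPolynomial (Fin (M + 1) × Fin D) k)), 𝔓.IsPrime →
    𝔓 ≤ mx (Fin (M + 1) × Fin D) k → (∀ j, hval Y ω (S.F j) ∈ ext Λ 𝔓) →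
    (∀ w, 0 < P w → ∃ (T : LogPolyL S.F b₀) (μ' : Fin T.s → ℕ), aeval Y T.χ ≠ 0 ∧
      C.ord w (aeval Y T.χ) = - (T.e₁ * P w) ∧ P w ≤ ∑ i, (T.lam i : ℤ) * μ' i ∧
      ∀ i, ∀ j < (μ' i : ℤ) - T.e i * P w, push (C.cf w j) (hval Y ω (T.a i)) ∈ 𝔓) →
    ∀ j, X (0, j) ∈ 𝔓

/-- F14L. As F14.
PROOF. The proof of `f14`; at `w` with `P_w > 0` add the sets of F12 for all the `a_i`, at most
`∑ μ'_i ≤ μ_w` elements. -/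
def F14LStmt : Prop :=
  ∀ (k Λ : Type) [Field k] [Field Λ] [Algebra k Λ] (C : Curve k Λ) (M κ r d b D n : ℕ)
    (S : System k M κ r d) (Y : Fin (M + 1) → Λ) (P ℓ μ : C.pt → ℤ) (b₀ : Fin (M + 1)),
    PtDataL C S Y P ℓ μ b₀ → ∀ (c : Fin b → C.pt), Function.Injective c → 0 < b →
    (∀ i, P (c i) = 0) → ∀ (ω : Fin D → Λ), LinearIndependent k ω →
    Submodule.span k (Set.range ω) = C.L (P - ptDiv c) → M = n + r →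
    ∑ᶠ w, ℓ w + ∑ᶠ w, μ w < (n + 1) * D →
    ∃ 𝔓 : Ideal (MvPolynomial (Fin (M + 1) × Fin D) k), 𝔓.IsPrime ∧
      𝔓 ≤ mx (Fin (M + 1) × Fin D) k ∧ 𝔓 ≠ mx (Fin (M + 1) × Fin D) k ∧
      (∀ j, hval Y ω (S.F j) ∈ ext Λ 𝔓) ∧ ∀ j, X (0, j) ∈ 𝔓

/-- FG15L. As FG15. -/
def FG15LStmt : Prop :=
  ∀ (k Λ : Type) [Field k] [Field Λ] [Algebra k Λ] (p e₀ : ℕ) [Fact p.Prime] [CharP k p]
    (C : Curve k Λ) (M κ r d : ℕ) (S : System k M κ r d) (y : Fin (M + 1) → Λ)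
    (P ℓ μ : C.pt → ℤ) (b₀ : Fin (M + 1)) (m : ℕ), 0 < e₀ → (∀ j, FixedBy (p ^ e₀) (S.F j)) →
    FixedBy (p ^ e₀) S.g → PtDataL C S y P ℓ μ b₀ →
    (∀ w, 0 < P w → ∃ (T : LogPolyL S.F b₀) (μ' : Fin T.s → ℕ), (∀ i, FixedBy (p ^ e₀) (T.a i)) ∧
      FixedBy (p ^ e₀) T.χ ∧ ∑ i, (μ' i : ℤ) ≤ μ w ∧
      aeval y T.χ ≠ 0 ∧ C.ord w (aeval y T.χ) = - (T.e₁ * P w) ∧
      (∀ i, ∀ j < (μ' i : ℤ) - T.e i * P w, C.cf w j (aeval y (T.a i)) = 0) ∧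
      P w ≤ ∑ i, (T.lam i : ℤ) * μ' i) →
    PtDataL C S (fun l => y l ^ (p ^ e₀) ^ m) (((p ^ e₀) ^ m : ℤ) • P) (((p ^ e₀) ^ m : ℤ) • ℓ)
      (((p ^ e₀) ^ m : ℤ) • μ) b₀

/-- FG16L. As FG16 (`FG16.lean`). -/
def FG16LStmt : Prop :=
  ∀ (k Λ : Type) [Field k] [Field Λ] [Algebra k Λ] (p e₀ : ℕ) [Fact p.Prime] [CharP k p]
    (C : Curve k Λ) (M κ r d n : ℕ) (S : System k M κ r d) (y : Fin (M + 1) → Λ)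
    (P ℓ μ : C.pt → ℤ) (b₀ : Fin (M + 1)), M = n + r → 0 < e₀ →
    (∀ j, FixedBy (p ^ e₀) (S.F j)) →
    FixedBy (p ^ e₀) S.g → PtDataL C S y P ℓ μ b₀ →
    (∀ w, 0 < P w → ∃ (T : LogPolyL S.F b₀) (μ' : Fin T.s → ℕ), (∀ i, FixedBy (p ^ e₀) (T.a i)) ∧
      FixedBy (p ^ e₀) T.χ ∧ ∑ i, (μ' i : ℤ) ≤ μ w ∧
      aeval y T.χ ≠ 0 ∧ C.ord w (aeval y T.χ) = - (T.e₁ * P w) ∧
      (∀ i, ∀ j < (μ' i : ℤ) - T.e i * P w, C.cf w j (aeval y (T.a i)) = 0) ∧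
      P w ≤ ∑ i, (T.lam i : ℤ) * μ' i) →
    ∀ (a' γ : ℤ) (B : ℕ), 1 ≤ a' → ∑ᶠ w, ℓ w + ∑ᶠ w, μ w + a' ≤ (n + 1) * ∑ᶠ w, P w →
    (n + 1) * ∑ᶠ w, P w < (B + 1) * a' →
    (∀ m : ℕ, (m : ℤ) * ∑ᶠ w, P w ≤ finrank k (C.L ((m : ℤ) • P)) + γ) →
    ∀ (U : Set C.pt), U.Infinite → (∀ w ∈ U, P w = 0) →
    ∃ (m : ℕ) (w : C.pt) (_ : w ∈ U) (k' : Type) (_ : Field k') (_ : Algebra k k')
      (Yp : Fin (M + 1) → Polynomial k'),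
      (∀ j, aeval Yp (S.F j) = 0) ∧ Yp 0 = 1 ∧ (∀ l, (Yp l).natDegree ≤ B) ∧
      (∃ l, 0 < (Yp l).natDegree) ∧
      ∀ l, (Yp l).coeff 0 = algebraMap k k' (C.cf w 0 (y l) ^ (p ^ e₀) ^ m)

/-! ## The certificate -/

/-- `tau` with several factors: `α Δ^{m₀} z^{(n+1-r(d-1)) m₀} (∏ a_i(y)/z^{e_i})^{m₀} / x^{e₀}`. -/
noncomputable def tauL {k Λ : Type} [Field k] [Field Λ] [Algebra k Λ] {M κ r d : ℕ}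
    (S : System k M κ r d) (n m₀ e₀ : ℕ) (y : Fin (M + 1) → Λ) (b₀ : Fin (M + 1)) (α : Λ)
    (T : LogPolyL S.F b₀) (J : Fin r → Fin κ) (x : Λ) : Λ :=
  α * minor S.F S.I₀ y J ^ m₀ * y b₀ ^ (((n : ℤ) + 1 - r * ((d : ℤ) - 1)) * m₀) *
    (∏ i, aeval y (T.a i) / y b₀ ^ T.e i) ^ m₀ / x ^ e₀

/-- As `InfData`. -/
structure InfDataL {k Λ : Type} [Field k] [Field Λ] [Algebra k Λ] {M κ r d : ℕ}
    (S : System k M κ r d) (n m₀ e₀ E₀ : ℕ) (y : Fin (M + 1) → Λ) (b₀ : Fin (M + 1)) (α : Λ)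
    (ε : Λ) (T : LogPolyL S.F b₀) (J : Fin r → Fin κ) (x : Λ) : Prop where
  x0 : x ≠ 0
  χ0 : aeval y T.χ ≠ 0
  a0 : ∀ i, aeval y (T.a i) ≠ 0
  J0 : minor S.F S.I₀ y J ≠ 0
  ε_reg : RegInf k (y b₀) ε
  χ_reg : RegInf k (y b₀) (ε / (aeval y T.χ / y b₀ ^ T.e₁))
  τ_reg : RegInf k (y b₀) (ε / tauL S n m₀ e₀ y b₀ α T J x)
  ζ_reg : RegInf k (y b₀) (ε * ((∏ i, (aeval y (T.a i) / y b₀ ^ T.e i) ^ T.lam i) * y b₀))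
  x_reg : RegInf k (y b₀) (ε * (y b₀ / x ^ E₀))

/-- As `Cert`. -/
structure CertL {k Λ : Type} [Field k] [Field Λ] [Algebra k Λ] {M κ r d : ℕ}
    (S : System k M κ r d) (n m₀ e₀ E₀ : ℕ) (y : Fin (M + 1) → Λ) (b₀ : Fin (M + 1)) (α : Λ) :
    Prop where
  dimM : M = n + r
  y0 : y 0 = 1
  yF : ∀ j, aeval y (S.F j) = 0
  g0 : aeval y S.g ≠ 0
  J0 : minor S.F S.I₀ y S.J₀ ≠ 0
  trans : Transcendental k (y b₀)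
  fin : FiniteDimensional (IntermediateField.adjoin k {y b₀}) Λ
  y_fin : ∀ l, RegFin k (y b₀) (y l)
  y_inf : ∀ l, RegInf k (y b₀) (y l / y b₀)
  m0 : 1 ≤ m₀
  e0 : 1 ≤ e₀
  α0 : α ≠ 0
  c_fin : ∃ c : (Fin r → Fin κ) → Λ, (∀ J, RegFin k (y b₀) (c J)) ∧
    ∑ J, c J * (α * minor S.F S.I₀ y J ^ m₀) = 1
  c_inf : ∃ (s : ℕ) (ε : Fin s → Λ), ∑ j, ε j = 1 ∧
    ∀ j, ∃ (T : LogPolyL S.F b₀) (J : Fin r → Fin κ) (x : Λ),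
      InfDataL S n m₀ e₀ E₀ y b₀ α (ε j) T J x

/-- EFGL. As `EFGStmt`.
PROOF. The proofs of E6a-E9 (`E6a.lean`, ..., `E9.lean`, `SpecE.lean`) with `LogPolyL`, `CertL`,
`FG16LStmt`. In characteristic `p` at a place at infinity where `ε_j` is a unit: `μ'_i =` the order of
`a_i(y)/z^{e_i}` (`≥ 0`), `μ_w = ∑ μ'_i`; `ord(tauL) ≤ 0` gives
`ℓ_w + μ_w ≤ (n+1) P_w - ord(α)/m₀ - (e₀/m₀) h_w`; `ζ_reg` gives `P_w ≤ ∑ λ_i μ'_i`. -/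
def EFGLStmt : Prop :=
  ∀ (L Λ : Type) [Field L] [CharZero L] [Field Λ] [Algebra L Λ] (M κ r d n m₀ e₀ E₀ B : ℕ)
    (S : System L M κ r d) (y : Fin (M + 1) → Λ) (b₀ : Fin (M + 1)) (α : Λ),
    CertL S n m₀ e₀ E₀ y b₀ α → (n + 1) * E₀ * m₀ < (B + 1) * e₀ →
    ∃ (Λ' : Type) (_ : Field Λ') (_ : Algebra L Λ') (_ : Algebra Λ Λ') (_ : IsScalarTower L Λ Λ')
      (Yp : Fin (M + 1) → Polynomial Λ'),
      (∀ j, aeval Yp (S.F j) = 0) ∧ Yp 0 = 1 ∧ (∀ l, (Yp l).natDegree ≤ B) ∧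
      (∃ l, 0 < (Yp l).natDegree) ∧ ∀ l, (Yp l).coeff 0 = algebraMap Λ Λ' (y l)

/-- As `VCert`. -/
structure VCertL {k Λ : Type} [Field k] [Field Λ] [Algebra k Λ] {M κ r d : ℕ}
    (S : System k M κ r d) (n m₀ e₀ E₀ : ℕ) (y : Fin (M + 1) → Λ) (b₀ : Fin (M + 1)) (α : Λ) :
    Prop where
  dimM : M = n + r
  y0 : y 0 = 1
  yF : ∀ j, aeval y (S.F j) = 0
  g0 : aeval y S.g ≠ 0
  J0 : minor S.F S.I₀ y S.J₀ ≠ 0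
  trans : Transcendental k (y b₀)
  fin : FiniteDimensional (IntermediateField.adjoin k {y b₀}) Λ
  m0 : 1 ≤ m₀
  e0 : 1 ≤ e₀
  α0 : α ≠ 0
  y_fin : ∀ V : ValuationSubring Λ, (∀ c : k, algebraMap k Λ c ∈ V) → y b₀ ∈ V → ∀ l, y l ∈ V
  y_inf : ∀ V : ValuationSubring Λ, (∀ c : k, algebraMap k Λ c ∈ V) → y b₀ ∉ V →
    ∀ l, y l / y b₀ ∈ V
  c_fin : ∀ V : ValuationSubring Λ, (∀ c : k, algebraMap k Λ c ∈ V) → y b₀ ∈ V →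
    ∃ J : Fin r → Fin κ, minor S.F S.I₀ y J ≠ 0 ∧ (α * minor S.F S.I₀ y J ^ m₀)⁻¹ ∈ V
  c_inf : ∀ V : ValuationSubring Λ, (∀ c : k, algebraMap k Λ c ∈ V) → y b₀ ∉ V →
    ∃ (T : LogPolyL S.F b₀) (J : Fin r → Fin κ) (x : Λ), x ≠ 0 ∧ aeval y T.χ ≠ 0 ∧
      (∀ i, aeval y (T.a i) ≠ 0) ∧ minor S.F S.I₀ y J ≠ 0 ∧
      (aeval y T.χ / y b₀ ^ T.e₁)⁻¹ ∈ V ∧
      (tauL S n m₀ e₀ y b₀ α T J x)⁻¹ ∈ V ∧
      (∏ i, (aeval y (T.a i) / y b₀ ^ T.e i) ^ T.lam i) * y b₀ ∈ V ∧ y b₀ / x ^ E₀ ∈ V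

/-- VL. As `cert_of_vcert` (`VCert1.lean` - `VCert4.lean`). -/
def VLStmt : Prop :=
  ∀ (L Λ : Type) [Field L] [CharZero L] [Field Λ] [Algebra L Λ] (M κ r d n m₀ e₀ E₀ : ℕ)
    (S : System L M κ r d) (y : Fin (M + 1) → Λ) (b₀ : Fin (M + 1)) (α : Λ),
    VCertL S n m₀ e₀ E₀ y b₀ α → CertL S n m₀ e₀ E₀ y b₀ α

end Pool.Agent.Lib.MP_410da7_agA
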