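import Pool.Agent.Lib.MP_410da7_agN.All
import Pool.Agent.Lib.MP_410da7_agA.L.Assembly
import Pool.Agent.Lib.MP_410da7_agA.L.Closed

/-!
# MP_410da7_ag, smooth affine varieties (C46), version 2: the end
-/

set_option autoImplicit false

namespace Pool.Agent.Lib.MP_410da7_agA

open KaehlerDifferential WithZero
open Pool.Agent.Lib.MP_410da7_ag (A1Uniruled dim)

/-- Theorem N. -/
theorem nThmAll : Pool.Agent.Lib.MP_410da7_agN.NThm :=
  Pool.Agent.Lib.MP_410da7_agN.nThmAll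

theorem nThmIfAll : NThmIf := by
  intro K _ _ n P Q H δ htr hn hfg hP hQ hH hP1 hQ1 hH1 hδ hvan
  obtain ⟨L, Λ, i1, i2, i3, i4, i5, i6, i7, i8, a, m₀, h1, h2, h3, h4, h5, h6⟩ :=
    nThmAll K n P Q H hfg hn htr hP hQ hH hP1 hQ1 hH1 ⟨δ, hδ, hvan⟩
  exact ⟨m₀, L, Λ, i1, i2, i3, i4, i5, i6, i7, i8, a, h1, h2, h3, h4, h5, h6⟩

theorem nStmtAll : NStmt := ng_nstmt nThmIfAll dL7

theorem dl6All : DL6Stmt := dL6 dl5All

/-- The criterion for affine varieties with log smooth closure. -/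
theorem criterionAll (R K : Type) [CommRing R] [IsDomain R] [Algebra ℂ R] [Field K]
    [Algebra R K] [IsFractionRing R K] [Algebra ℂ K] [IsScalarTower ℂ R K] {N : ℕ} (x : Fin N → R)
    (hx : Algebra.adjoin ℂ (Set.range x) = ⊤) (hc : LogSmoothClosure K (dim R) x)
    (Ψ : Ω[K⁄ℂ] [⋀^Fin (dim R)]→ₗ[K] K) (hΨ : Ψ ≠ 0) :
    List.TFAE [A1Uniruled R, NotPseudoEffective Ψ x,
      ∃ (m₀ e₀ : ℕ) (L Λ : Type) (_ : Field L) (_ : Field Λ) (_ : Algebra ℂ L) (_ : Algebra L Λ)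
        (_ : Algebra K Λ) (_ : Algebra ℂ Λ) (_ : IsScalarTower ℂ L Λ) (_ : IsScalarTower ℂ K Λ)
        (a : Λ), NegFamily Ψ x m₀ e₀ L Λ a] :=
  criterion h4 nStmtAll hl2All dl6All R K x hx hc Ψ hΨ

end Pool.Agent.Lib.MP_410da7_agA
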