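import Pool.Agent.Lib.MP_410da7_agA.SpecE
import Pool.Agent.Lib.MP_410da7_agA.L.Defs

/-!
# MP_410da7_ag, smooth affine varieties (C46), version 2: block E with several boundary components

As in `SpecE`, with `LogPolyL`, `InfDataL`, `CertL`, `PtDataL`. E1-E5, E6a, E7a, E8 are used as they are.
-/

set_option autoImplicit false

namespace Pool.Agent.Lib.MP_410da7_agA

open MvPolynomial Module

/-- EL6b. Transport of `LogPolyL` and `InfDataL`.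
PROOF. As E6b (`E6b.lean`), with `s.red (T.a i)` for all `i`; the product `∏ a_i^{λ_i} q` by E5 and
induction over the finite set. -/
def EL6bStmt : Prop :=
  ∀ (L Λ : Type) [Field L] [Field Λ] [Algebra L Λ] (M κ r d n m₀ e₀ E₀ : ℕ)
    (S : System L M κ r d) (y : Fin (M + 1) → Λ) (b₀ : Fin (M + 1)) (α ε : Λ)
    (T : LogPolyL S.F b₀) (J : Fin r → Fin κ) (x : Λ), y b₀ ≠ 0 → α ≠ 0 →
    InfDataL S n m₀ e₀ E₀ y b₀ α ε T J x →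
    ∃ (CL : Finset L) (E : Finset Λ), ∀ (k Λ' : Type) [Field k] [Field Λ'] [Algebra k Λ']
      (s : Spz L Λ k Λ') (Q : ℕ), s.Ok Q CL E → ∀ (S' : System k M κ r d),
      (∀ j, S'.F j = s.red (S.F j)) → S'.I₀ = S.I₀ →
      ∃ T' : LogPolyL S'.F b₀, (∀ i, FixedBy Q (T'.a i)) ∧ FixedBy Q T'.χ ∧
        InfDataL S' n m₀ e₀ E₀ (fun l => s.v (y l)) b₀ (s.v α) (s.v ε) T' J (s.v x)

/-- A certificate whose polynomials are fixed by `x ↦ x^Q`. -/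
structure CertQL (Q : ℕ) {k Λ : Type} [Field k] [Field Λ] [Algebra k Λ] {M κ r d : ℕ}
    (S : System k M κ r d) (n m₀ e₀ E₀ : ℕ) (y : Fin (M + 1) → Λ) (b₀ : Fin (M + 1)) (α : Λ) :
    Prop where
  cert : CertL S n m₀ e₀ E₀ y b₀ α
  F_fix : ∀ j, FixedBy Q (S.F j)
  g_fix : FixedBy Q S.g
  inf : ∃ (t : ℕ) (ε : Fin t → Λ), ∑ j, ε j = 1 ∧
    ∀ j, ∃ (T : LogPolyL S.F b₀) (J : Fin r → Fin κ) (x : Λ), (∀ i, FixedBy Q (T.a i)) ∧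
      FixedBy Q T.χ ∧ InfDataL S n m₀ e₀ E₀ y b₀ α (ε j) T J x

/-- EL6c. Transport of the certificate.
PROOF. As E6c (`E6c.lean`). -/
def EL6cStmt : Prop :=
  ∀ (L Λ : Type) [Field L] [Field Λ] [Algebra L Λ] (M κ r d n m₀ e₀ E₀ : ℕ)
    (S : System L M κ r d) (y : Fin (M + 1) → Λ) (b₀ : Fin (M + 1)) (α : Λ),
    CertL S n m₀ e₀ E₀ y b₀ α →
    ∃ (CL : Finset L) (E : Finset Λ), (∀ l, y l ∈ E) ∧
      (∀ j, ∀ m ∈ (S.F j).support, coeff m (S.F j) ∈ CL) ∧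
      ∀ (k Λ' : Type) [Field k] [Field Λ'] [Algebra k Λ'] (s : Spz L Λ k Λ') (Q : ℕ),
      s.Ok Q CL E → Transcendental k (s.v (y b₀)) →
      FiniteDimensional (IntermediateField.adjoin k {s.v (y b₀)}) Λ' →
      ∃ S' : System k M κ r d, (∀ j, S'.F j = s.red (S.F j)) ∧
        CertQL Q S' n m₀ e₀ E₀ (fun l => s.v (y l)) b₀ (s.v α)

/-- EL7b. The local inequalities. `P_w = max 0 (- ord_w z)`, `z = y b₀`.
PROOF. As E7b (`E7b.lean`). CASE `P_w > 0`: every `a_i(y)/z^{e_i}` is a polynomial in the `y_l / z`, hence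
regular at `w`; `μ'_i = ord (a_i(y)/z^{e_i}) ≥ 0` and `μ = ∑ μ'_i`. `ζ_reg` gives `∑ λ_i μ'_i - P_w ≥ 0`,
`τ_reg` gives `ord α + m₀ ord minor_J - (n+1-r(d-1)) m₀ P_w + m₀ ∑ μ'_i + e₀ h ≤ 0`, `h = - ord x`. -/
def EL7bStmt : Prop :=
  ∀ (k Λ : Type) [Field k] [Field Λ] [Algebra k Λ] (C : Curve k Λ)
    (Q M κ r d n m₀ e₀ E₀ : ℕ) (S : System k M κ r d) (y : Fin (M + 1) → Λ) (b₀ : Fin (M + 1))
    (α : Λ), CertQL Q S n m₀ e₀ E₀ y b₀ α → ∀ (w : C.pt) (P : ℤ),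
    P = max 0 (-(C.ord w (y b₀))) → (∀ l, ∀ i : ℤ, i < -P → (C.exp w (y l)).coeff i = 0) ∧
    ∃ (J : Fin r → Fin κ) (μ h : ℤ), minor S.F S.I₀ y J ≠ 0 ∧ 0 ≤ μ ∧
      (P = 0 → μ = 0 ∧ h = 0) ∧ P ≤ E₀ * h ∧
      m₀ * (C.ord w (minor S.F S.I₀ y J) + r * ((d : ℤ) - 1) * P + μ) ≤
        (n + 1) * m₀ * P - C.ord w α - e₀ * h ∧
      (0 < P → ∃ (T : LogPolyL S.F b₀) (μ' : Fin T.s → ℕ), (∀ i, FixedBy Q (T.a i)) ∧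
        FixedBy Q T.χ ∧ ∑ i, (μ' i : ℤ) ≤ μ ∧ aeval y T.χ ≠ 0 ∧
        C.ord w (aeval y T.χ) = - (T.e₁ * P) ∧
        (∀ i, ∀ j < (μ' i : ℤ) - T.e i * P, C.cf w j (aeval y (T.a i)) = 0) ∧
        P ≤ ∑ i, (T.lam i : ℤ) * μ' i)

/-- EL7c. The numerical data of FG16L.
PROOF. As E7c (`E7c.lean`). -/
def EL7cStmt : Prop :=
  ∀ (k Λ : Type) [Field k] [Field Λ] [Algebra k Λ] (C : Curve k Λ)
    (Q M κ r d n m₀ e₀ E₀ B : ℕ) (S : System k M κ r d) (y : Fin (M + 1) → Λ)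
    (b₀ : Fin (M + 1)) (α : Λ), CertQL Q S n m₀ e₀ E₀ y b₀ α →
    (n + 1) * E₀ * m₀ < (B + 1) * e₀ → (∃ w, C.ord w (y b₀) < 0) →
    ∀ P : C.pt → ℤ, (∀ w, P w = max 0 (-(C.ord w (y b₀)))) →
    ∃ (ℓ μ : C.pt → ℤ) (a' : ℤ), PtDataL C S y P ℓ μ b₀ ∧
      (∀ w, 0 < P w → ∃ (T : LogPolyL S.F b₀) (μ' : Fin T.s → ℕ), (∀ i, FixedBy Q (T.a i)) ∧
        FixedBy Q T.χ ∧ ∑ i, (μ' i : ℤ) ≤ μ w ∧
        aeval y T.χ ≠ 0 ∧ C.ord w (aeval y T.χ) = - (T.e₁ * P w) ∧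
        (∀ i, ∀ j < (μ' i : ℤ) - T.e i * P w, C.cf w j (aeval y (T.a i)) = 0) ∧
        P w ≤ ∑ i, (T.lam i : ℤ) * μ' i) ∧
      1 ≤ a' ∧ ∑ᶠ w, ℓ w + ∑ᶠ w, μ w + a' ≤ (n + 1) * ∑ᶠ w, P w ∧
      (n + 1) * ∑ᶠ w, P w < (B + 1) * a'

end Pool.Agent.Lib.MP_410da7_agA
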